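import Pool.Agent.T2h17.GP.Scale
import Pool.Agent.T2h17.AH.Tr

/-!
Hodge generic fibres: from transversality to tensors.
-/

set_option autoImplicit false
set_option maxHeartbeats 400000

open Matrix Module

namespace Pool.Agent.T2h17.GP

open Pool.Agent.T2h17.AH (sp om Xm LieT Pres AlgT dpw tp pw Dir bt Trans3 one_mem_LieT)
open Pool.Agent.T2h17.HW (tc En)
open Pool.Agent.T2h17.TV (Tg cj)

/-- all algebraic parts -/
structure Parts : Prop where
  gour : S_GOUR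
  minc : S_MINC
  simp : S_SIMP
  perf : S_PERF
  lieb : S_LIEB
  fftq : S_FFTQ

variable {n k r : ℕ}

/-- the rational form is alternating and nondegenerate -/
theorem form_alt {S P : Matrix (Fin n) (Fin n) ℚ} {C : Matrix (Fin n) (Fin n) ℂ} {κ : ℂ} (hS : Sᵀ = -S)
    (hd : S.det ≠ 0) (hC : C.det ≠ 0) (hκ : κ ≠ 0) (h : C * tc P * Cᵀ = κ • tc S) :
    Pᵀ = -P ∧ P.det ≠ 0 := by
  have hu : IsUnit C.det := isUnit_iff_ne_zero.2 hC
  have hu' : IsUnit Cᵀ.det := by rw [det_transpose]; exact hu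
  have hT : (tc S)ᵀ = -(tc S) := by
    have h1 : (tc S)ᵀ = tc Sᵀ := rfl
    rw [h1, hS]
    ext i j
    simp [tc]
  constructor
  · have h1 : C * (tc P)ᵀ * Cᵀ = -(κ • tc S) := by
      have h2 := congrArg Matrix.transpose h
      rw [transpose_mul, transpose_mul, transpose_transpose, transpose_smul, hT, smul_neg,
        ← Matrix.mul_assoc] at h2
      exact h2
    have h3 : C * ((tc P)ᵀ + tc P) * Cᵀ = 0 := by
      rw [Matrix.mul_add, Matrix.add_mul, h1, h, neg_add_cancel]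
    have h4 : (tc P)ᵀ + tc P = 0 := by
      have h5 := congrArg (fun M => C⁻¹ * M * Cᵀ⁻¹) h3
      simp only [Matrix.mul_zero, Matrix.zero_mul] at h5
      calc (tc P)ᵀ + tc P = (C⁻¹ * C) * ((tc P)ᵀ + tc P) * (Cᵀ * Cᵀ⁻¹) := by
            rw [Matrix.nonsing_inv_mul _ hu, Matrix.mul_nonsing_inv _ hu', Matrix.one_mul, Matrix.mul_one]
        _ = C⁻¹ * (C * ((tc P)ᵀ + tc P) * Cᵀ) * Cᵀ⁻¹ := by simp only [Matrix.mul_assoc]
        _ = 0 := h5
    ext i j
    have h5 := congrFun (congrFun h4 i) j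
    simp only [Matrix.add_apply, tc, Matrix.transpose_apply, Matrix.map_apply, Matrix.zero_apply] at h5
    rw [Matrix.transpose_apply, Matrix.neg_apply]
    have h6 : ((P j i + P i j : ℚ) : ℂ) = 0 := by exact_mod_cast h5
    have h7 : P j i + P i j = 0 := by exact_mod_cast h6
    linarith
  · intro h0
    have h1 := congrArg Matrix.det h
    have hdet : ∀ M : Matrix (Fin n) (Fin n) ℚ, (tc M).det = ((M.det : ℚ) : ℂ) := fun M =>
      (RingHom.map_det (algebraMap ℚ ℂ) M).symm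
    rw [det_mul, det_mul, hdet, h0, Rat.cast_zero, mul_zero, zero_mul, det_smul, hdet] at h1
    have h2 : κ ^ Fintype.card (Fin n) * ((S.det : ℚ) : ℂ) ≠ 0 := mul_ne_zero (pow_ne_zero _ hκ) (by exact_mod_cast hd)
    exact h2 h1.symm

/-- **from transversality to tensors** -/
theorem use3 (H : Parts) {β : Fin n × Fin n → Fin r → ℂ} {N S P : Matrix (Fin n) (Fin n) ℚ}
    {𝒩 : Set (Dir r n)} {d a0 D : ℕ} {C : Matrix (Fin n) (Fin n) ℂ} {κ : ℂ} (hS : Sᵀ = -S)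
    (hd : S.det ≠ 0) (hC : C.det ≠ 0) (hκ : κ ≠ 0) (hP : C * tc P * Cᵀ = κ • tc S)
    (hsp : ∀ X : Matrix (Fin n) (Fin n) ℂ, X * tc S + tc S * Xᵀ = 0 →
      X ∈ Submodule.span ℂ (Prod.snd '' 𝒩 ∪ {tc N}))
    {v : Fin k → Fin r → ℂ} {l : ℂ} {t : Fin k → ℂ} (hT : Trans3 β N 𝒩 d a0 D C v l t)
    {T : Submodule ℂ (Matrix (Fin n) (Fin n) ℂ)} (hTT : Tg d C ⊔ Submodule.span ℂ {tc N} ≤ T) {ν : ℕ}
    (hν : finrank ℂ T ≤ ν ∨ (1 ≤ n ∧ (1 : Matrix (Fin n) (Fin n) ℂ) ∈ T ∧ finrank ℂ T ≤ ν + 1)) :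
    ∃ R : Finset (Fin k), R.card * (n - 1) ≤ ν ∧ ∀ a ≤ a0, ∀ t' : (Fin a → Fin n × Fin k) → ℚ,
      (∀ i, (∃ s, (i s).2 ∈ R) → t' i = 0) →
      AT D (blockDiagonal fun j => bt β (v j) * En (tc N) (-(l + t j)) * C) t' →
      t' ∈ Submodule.span ℚ {G | ∃ (m : ℕ) (e : Fin m × Fin 2 ≃ Fin a) (c : Fin m → Fin k), G = prT P e c} := by
  obtain ⟨hP1, hP2⟩ := form_alt hS hd hC hκ hP
  have hu : IsUnit C.det := isUnit_iff_ne_zero.2 hC
  have hu' : IsUnit Cᵀ.det := by rw [det_transpose]; exact hu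
  have hCC : C * C⁻¹ = 1 := Matrix.mul_nonsing_inv _ hu
  have hCC' : C⁻¹ * C = 1 := Matrix.nonsing_inv_mul _ hu
  have h1 : ∀ Y : Fin k → Matrix (Fin n) (Fin n) ℂ, (∀ j, Y j ∈ sp (tc P)) →
      ∃ Z ∈ T.map (cj C), (blockDiagonal fun j => Y j + Z) ∈
        LieT D a0 (blockDiagonal fun j => bt β (v j) * En (tc N) (-(l + t j)) * C) := by
    intro Y hY
    obtain ⟨Z, hZ, hm⟩ := hT (fun j => C * Y j * C⁻¹) (fun j => by
      refine hsp _ ?_
      have h2 : Y j * tc P + tc P * (Y j)ᵀ = 0 := hY j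
      have h3 : κ • ((C * Y j * C⁻¹) * tc S + tc S * (C * Y j * C⁻¹)ᵀ) = 0 := by
        rw [smul_add, ← Matrix.mul_smul, ← Matrix.smul_mul, ← hP]
        have h4 : (C * Y j * C⁻¹)ᵀ = C⁻¹ᵀ * ((Y j)ᵀ * Cᵀ) := by
          rw [transpose_mul, transpose_mul]
        have h5 : Cᵀ * C⁻¹ᵀ = 1 := by rw [← transpose_mul, hCC', transpose_one]
        calc C * Y j * C⁻¹ * (C * tc P * Cᵀ) + C * tc P * Cᵀ * (C * Y j * C⁻¹)ᵀ =
            C * Y j * (C⁻¹ * C) * tc P * Cᵀ + C * tc P * (Cᵀ * C⁻¹ᵀ) * (Y j)ᵀ * Cᵀ := by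
              rw [h4]
              simp only [Matrix.mul_assoc]
          _ = C * (Y j * tc P + tc P * (Y j)ᵀ) * Cᵀ := by
              rw [hCC', h5, Matrix.mul_one, Matrix.mul_one, Matrix.mul_add, Matrix.add_mul]
              simp only [Matrix.mul_assoc]
          _ = 0 := by rw [h2, Matrix.mul_zero, Matrix.zero_mul]
      exact (smul_eq_zero.1 h3).resolve_left hκ)
    refine ⟨cj C Z, Submodule.mem_map_of_mem (hTT hZ), ?_⟩
    have h2 : (fun j => C⁻¹ * (C * Y j * C⁻¹ + Z) * C) = fun j => Y j + cj C Z := by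
      funext j
      show _ = Y j + C⁻¹ * Z * C
      rw [Matrix.mul_add, Matrix.add_mul]
      congr 1
      calc C⁻¹ * (C * Y j * C⁻¹) * C = (C⁻¹ * C) * Y j * (C⁻¹ * C) := by simp only [Matrix.mul_assoc]
        _ = Y j := by rw [hCC', Matrix.one_mul, Matrix.mul_one]
    rw [← h2]
    exact hm
  have h2 : finrank ℂ (T.map (cj C)) ≤ finrank ℂ T := Submodule.finrank_map_le _ _
  obtain ⟨R, hR, h3⟩ := generic H.gour H.minc H.simp H.perf H.lieb H.fftq hP1 hP2 h1 (ν := ν) (by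
    rcases hν with h | ⟨hn, h1T, h⟩
    · exact (h2.trans h).trans (Nat.le_add_right _ _)
    · have h4 : (1 : Matrix (Fin n) (Fin n) ℂ) ∈ (T.map (cj C) ⊓
          (LieT D a0 (blockDiagonal fun j => bt β (v j) * En (tc N) (-(l + t j)) * C)).comap
            ((bdL n k).comp (dg n k)) : Submodule ℂ _) := by
        refine ⟨⟨1, h1T, ?_⟩, ?_⟩
        · show C⁻¹ * 1 * C = 1
          rw [Matrix.mul_one, hCC']
        · show blockDiagonal (fun _ : Fin k => (1 : Matrix (Fin n) (Fin n) ℂ)) ∈ LieT D a0 _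
          have h5 : (blockDiagonal fun _ : Fin k => (1 : Matrix (Fin n) (Fin n) ℂ)) = 1 := blockDiagonal_one
          rw [h5]
          exact one_mem_LieT _ _ _
      have : NeZero n := ⟨by omega⟩
      have h5 : (1 : Matrix (Fin n) (Fin n) ℂ) ≠ 0 := one_ne_zero
      have h6 : Nontrivial (T.map (cj C) ⊓
          (LieT D a0 (blockDiagonal fun j => bt β (v j) * En (tc N) (-(l + t j)) * C)).comap
            ((bdL n k).comp (dg n k)) : Submodule ℂ _) :=
        ⟨⟨⟨1, h4⟩, 0, fun h => h5 (congrArg Subtype.val h)⟩⟩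
      have h7 : 0 < finrank ℂ (T.map (cj C) ⊓
          (LieT D a0 (blockDiagonal fun j => bt β (v j) * En (tc N) (-(l + t j)) * C)).comap
            ((bdL n k).comp (dg n k)) : Submodule ℂ _) := Module.finrank_pos
      omega)
  exact ⟨R, hR, fun a ha t' ht' hA => h3 a ha t' ht' (at_iff.1 hA)⟩

end Pool.Agent.T2h17.GP
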