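import Pool.Agent.T2h17.AH.Sp

/-! Facts on the symplectic Lie algebra (helper78). -/

set_option autoImplicit false

open Matrix Module

namespace Pool.Agent.T2h17.GP

open Pool.Agent.T2h17.AH

variable {n : ℕ} {S : Matrix (Fin n) (Fin n) ℂ}

theorem om_add_left (x y z : Fin n → ℂ) : om S (x + y) z = om S x z + om S y z := by
  unfold om
  rw [add_dotProduct]

theorem om_smul_left (c : ℂ) (x y : Fin n → ℂ) : om S (c • x) y = c * om S x y := by
  unfold om
  rw [smul_dotProduct, smul_eq_mul]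

theorem om_zero_right (x : Fin n → ℂ) : om S x 0 = 0 := by
  unfold om
  rw [mulVec_zero, dotProduct_zero]

theorem om_zero_left (x : Fin n → ℂ) : om S 0 x = 0 := by
  unfold om
  rw [zero_dotProduct]

theorem om_neg_left (x y : Fin n → ℂ) : om S (-x) y = -om S x y := by
  unfold om
  rw [neg_dotProduct]

theorem om_neg_right (x y : Fin n → ℂ) : om S x (-y) = -om S x y := by
  unfold om
  rw [mulVec_neg, dotProduct_neg]

/-- elements of `sp` are skew -/
theorem om_sp {X : Matrix (Fin n) (Fin n) ℂ} (hX : X ∈ sp S) (x y : Fin n → ℂ) :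
    om S (x ᵥ* X) y = -om S x (y ᵥ* X) := by
  have h1 : X * S + S * Xᵀ = 0 := hX
  have h2 : X * S = -(S * Xᵀ) := eq_neg_of_add_eq_zero_left h1
  unfold om
  rw [← dotProduct_mulVec x X, mulVec_mulVec, h2, neg_mulVec, dotProduct_neg, ← mulVec_mulVec,
    mulVec_transpose]

/-- the form is nondegenerate -/
theorem om_nd (hd : S.det ≠ 0) {x : Fin n → ℂ} (h : ∀ y, om S x y = 0) : x = 0 := by
  by_contra hx
  have h1 : x ∉ Submodule.span ℂ {(0 : Fin n → ℂ)} := by
    rw [Submodule.span_zero_singleton, Submodule.mem_bot]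
    exact hx
  obtain ⟨p, -, hp⟩ := ex_om (S := S) hd h1
  rw [h p] at hp
  exact zero_ne_one hp

theorem ex_one (hd : S.det ≠ 0) {x : Fin n → ℂ} (hx : x ≠ 0) : ∃ p, om S x p = 1 := by
  have h1 : x ∉ Submodule.span ℂ {(0 : Fin n → ℂ)} := by
    rw [Submodule.span_zero_singleton, Submodule.mem_bot]
    exact hx
  obtain ⟨p, -, hp⟩ := ex_om (S := S) hd h1
  exact ⟨p, hp⟩

/-- a matrix is determined by the row action -/
theorem ext_vm {X Y : Matrix (Fin n) (Fin n) ℂ} (h : ∀ x : Fin n → ℂ, x ᵥ* X = x ᵥ* Y) : X = Y := by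
  ext i j
  have h1 := congrFun (h (Pi.single i 1)) j
  rw [single_one_vecMul, single_one_vecMul] at h1
  exact h1

/-- the bracket with an element of small rank -/
theorem br_Xm {X : Matrix (Fin n) (Fin n) ℂ} (hX : X ∈ sp S) (p q : Fin n → ℂ) :
    X * Xm S p q - Xm S p q * X = -(Xm S (p ᵥ* X) q + Xm S p (q ᵥ* X)) := by
  apply ext_vm
  intro x
  rw [vecMul_sub, ← vecMul_vecMul, ← vecMul_vecMul, vm_Xm, vm_Xm, vecMul_neg, vecMul_add, vm_Xm,
    vm_Xm, add_vecMul, smul_vecMul, smul_vecMul, om_sp hX, om_sp hX]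
  module

theorem Xm_symm (p q : Fin n → ℂ) : Xm S p q = Xm S q p := by
  unfold Xm
  rw [add_comm]

theorem Xm_smul_right (c : ℂ) (p q : Fin n → ℂ) : Xm S p (c • q) = c • Xm S p q :=
  (XL S p).map_smul c q

theorem Xm_add_right (p q r : Fin n → ℂ) : Xm S p (q + r) = Xm S p q + Xm S p r :=
  (XL S p).map_add q r

theorem Xm_smul_left (c : ℂ) (p q : Fin n → ℂ) : Xm S (c • p) q = c • Xm S p q := by
  rw [Xm_symm, Xm_smul_right, Xm_symm]

theorem Xm_add_left (p q r : Fin n → ℂ) : Xm S (p + q) r = Xm S p r + Xm S q r := by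
  rw [Xm_symm, Xm_add_right, Xm_symm r p, Xm_symm r q]

theorem Xm_zero_right (p : Fin n → ℂ) : Xm S p 0 = 0 := (XL S p).map_zero

theorem Xm_zero_left (p : Fin n → ℂ) : Xm S 0 p = 0 := by
  rw [Xm_symm, Xm_zero_right]

/-- polarisation -/
theorem Xm_pol (p q : Fin n → ℂ) :
    Xm S p q = (2 : ℂ)⁻¹ • (Xm S (p + q) (p + q) - Xm S p p - Xm S q q) := by
  rw [Xm_add_right, Xm_add_left, Xm_add_left, Xm_symm q p]
  have h : Xm S p p + Xm S p q + (Xm S p q + Xm S q q) - Xm S p p - Xm S q q =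
      (2 : ℂ) • Xm S p q := by
    rw [two_smul]
    abel
  rw [h, smul_smul, inv_mul_cancel₀ two_ne_zero, one_smul]

theorem Xm_eq (p q : Fin n → ℂ) : Xm S p q = S * (vecMulVec p q + vecMulVec q p) := by
  unfold Xm
  rw [Matrix.mul_add, mul_vecMulVec, mul_vecMulVec]

/-- the elements of small rank span -/
theorem sp_sum (hS : Sᵀ = -S) (hd : S.det ≠ 0) {X : Matrix (Fin n) (Fin n) ℂ} (hX : X ∈ sp S) :
    X = ∑ i, ∑ j, ((2 : ℂ)⁻¹ * (S⁻¹ * X) i j) • Xm S (Pi.single i 1) (Pi.single j 1) := by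
  have hu : IsUnit S.det := isUnit_iff_ne_zero.2 hd
  have h1 : X * S + S * Xᵀ = 0 := hX
  obtain ⟨B, hB⟩ : ∃ B, B = S⁻¹ * X := ⟨_, rfl⟩
  have hXB : X = S * B := by
    rw [hB, ← Matrix.mul_assoc, Matrix.mul_nonsing_inv _ hu, Matrix.one_mul]
  have hsym : Bᵀ = B := by
    have h2 : S * (B - Bᵀ) * S = 0 := by
      rw [hXB, transpose_mul, hS, Matrix.mul_neg, Matrix.mul_neg] at h1
      rw [Matrix.mul_sub, Matrix.sub_mul]
      rw [← Matrix.mul_assoc] at h1
      rw [sub_eq_add_neg]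
      exact h1
    have h3 : B - Bᵀ = 0 := by
      have h4 := congrArg (fun M => S⁻¹ * M * S⁻¹) h2
      simp only [Matrix.mul_zero, Matrix.zero_mul] at h4
      rw [← h4, Matrix.mul_assoc, Matrix.mul_assoc, Matrix.mul_nonsing_inv _ hu, Matrix.mul_one,
        ← Matrix.mul_assoc, Matrix.nonsing_inv_mul _ hu, Matrix.one_mul]
    exact (sub_eq_zero.1 h3).symm
  rw [← hB]
  have h5 : ∀ i j : Fin n, ((2 : ℂ)⁻¹ * B i j) • Xm S (Pi.single i 1) (Pi.single j 1) =
      S * (((2 : ℂ)⁻¹ * B i j) • (vecMulVec (Pi.single i 1) (Pi.single j 1) +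
        vecMulVec (Pi.single j 1) (Pi.single i 1))) := by
    intro i j
    rw [Xm_eq, Matrix.mul_smul]
  simp only [h5]
  simp only [← Matrix.mul_sum]
  rw [hXB]
  congr 1
  ext a b
  simp only [Matrix.sum_apply, Matrix.smul_apply, Matrix.add_apply, vecMulVec_apply, smul_eq_mul,
    Pi.single_apply]
  have h6 : ∀ i j : Fin n, (2 : ℂ)⁻¹ * B i j * ((if a = i then (1 : ℂ) else 0) *
      (if b = j then 1 else 0) + (if a = j then 1 else 0) * (if b = i then 1 else 0)) =
      (if a = i then (if b = j then (2 : ℂ)⁻¹ * B i j else 0) else 0) +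
      (if b = i then (if a = j then (2 : ℂ)⁻¹ * B i j else 0) else 0) := by
    intro i j
    split_ifs <;> ring
  simp only [h6, Finset.sum_add_distrib]
  simp only [Finset.sum_ite_irrel, Finset.sum_const_zero, Finset.sum_ite_eq, Finset.mem_univ,
    if_true]
  have h7 : B b a = B a b := by
    conv_lhs => rw [← hsym]
    rfl
  rw [h7]
  ring

/-- a subspace which contains all `Xm v v` contains `sp` -/
theorem sp_le (hS : Sᵀ = -S) (hd : S.det ≠ 0) {I : Submodule ℂ (Matrix (Fin n) (Fin n) ℂ)}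
    (h : ∀ v, Xm S v v ∈ I) : sp S ≤ I := by
  intro X hX
  rw [sp_sum hS hd hX]
  refine I.sum_mem fun i _ => I.sum_mem fun j _ => I.smul_mem _ ?_
  rw [Xm_pol]
  exact I.smul_mem _ (I.sub_mem (I.sub_mem (h _) (h _)) (h _))

/-- the images of two independent vectors -/
theorem psi_surj (hS : Sᵀ = -S) (hd : S.det ≠ 0) {e f : Fin n → ℂ} (he : e ≠ 0)
    (hef : f ∉ Submodule.span ℂ {e}) (a c : Fin n → ℂ) (h : om S f a = om S e c) :
    ∃ X ∈ sp S, e ᵥ* X = a ∧ f ᵥ* X = c := by
  have hfe : e ∉ Submodule.span ℂ {f} := by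
    intro h1
    obtain ⟨t, ht⟩ := Submodule.mem_span_singleton.1 h1
    apply hef
    rw [Submodule.mem_span_singleton]
    have ht0 : t ≠ 0 := by
      rintro rfl
      apply he
      rw [← ht, zero_smul]
    exact ⟨t⁻¹, by rw [← ht, smul_smul, inv_mul_cancel₀ ht0, one_smul]⟩
  obtain ⟨p, hp1, hp2⟩ := ex_om (S := S) hd hfe
  obtain ⟨p', hq1, hq2⟩ := ex_om (S := S) hd hef
  -- `om f p = 0`, `om e p = 1`, `om e p' = 0`, `om f p' = 1`
  obtain ⟨r, hr⟩ : ∃ r, r = c - om S f a • p := ⟨_, rfl⟩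
  refine ⟨Xm S p (a - (2⁻¹ * om S e a) • p) + Xm S p' (r - (2⁻¹ * om S f r) • p'),
    (sp S).add_mem (Xm_mem hS _ _) (Xm_mem hS _ _), ?_, ?_⟩
  · have her : om S e r = 0 := by
      rw [hr, om_sub_right, om_smul_right, hp2, ← h]
      ring
    rw [vecMul_add, vm_Xm, vm_Xm, om_sub_right, om_sub_right, om_smul_right, om_smul_right, hp2,
      hq1, her]
    module
  · have hfr : om S f r = om S f c := by
      rw [hr, om_sub_right, om_smul_right, hp1]
      ring
    rw [vecMul_add, vm_Xm, vm_Xm, om_sub_right, om_sub_right, om_smul_right, om_smul_right, hp1,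
      hq2, hfr, hr]
    module

/-- the linear map `X ↦ (e X, f X)` -/
def psi (e f : Fin n → ℂ) : Matrix (Fin n) (Fin n) ℂ →ₗ[ℂ] (Fin n → ℂ) × (Fin n → ℂ) where
  toFun X := (e ᵥ* X, f ᵥ* X)
  map_add' X Y := by
    rw [vecMul_add, vecMul_add]
    rfl
  map_smul' c X := by
    rw [vecMul_smul, vecMul_smul]
    rfl

/-- the condition on the images -/
def cnd (S : Matrix (Fin n) (Fin n) ℂ) (e f : Fin n → ℂ) :
    (Fin n → ℂ) × (Fin n → ℂ) →ₗ[ℂ] ℂ where
  toFun x := om S f x.1 - om S e x.2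
  map_add' x y := by
    rw [Prod.fst_add, Prod.snd_add, om_add_right, om_add_right]
    ring
  map_smul' c x := by
    rw [Prod.smul_fst, Prod.smul_snd, om_smul_right, om_smul_right, RingHom.id_apply, smul_eq_mul]
    ring

theorem psi_rank (hS : Sᵀ = -S) (hd : S.det ≠ 0) {e f : Fin n → ℂ} (he : e ≠ 0)
    (hef : f ∉ Submodule.span ℂ {e}) : 2 * n ≤ finrank ℂ ((sp S).map (psi e f)) + 1 := by
  have h1 : LinearMap.ker (cnd S e f) ≤ (sp S).map (psi e f) := by
    rintro ⟨a, c⟩ hac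
    have h2 : om S f a - om S e c = 0 := hac
    obtain ⟨X, hX, h3, h4⟩ := psi_surj hS hd he hef a c (sub_eq_zero.1 h2)
    exact ⟨X, hX, by
      show (e ᵥ* X, f ᵥ* X) = (a, c)
      rw [h3, h4]⟩
  have h2 := Submodule.finrank_mono h1
  have h3 := LinearMap.finrank_range_add_finrank_ker (cnd S e f)
  have h4 : finrank ℂ ((Fin n → ℂ) × (Fin n → ℂ)) = 2 * n := by
    rw [finrank_prod, finrank_fin_fun]
    ring
  have h5 : finrank ℂ (LinearMap.range (cnd S e f)) ≤ 1 := by
    have := Submodule.finrank_le (LinearMap.range (cnd S e f))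
    rwa [finrank_self] at this
  omega

/-- images of subspaces and codimensions -/
theorem codim_map {M M' : Type} [AddCommGroup M] [Module ℂ M] [FiniteDimensional ℂ M]
    [AddCommGroup M'] [Module ℂ M'] (Ψ : M →ₗ[ℂ] M') {T G : Submodule ℂ M} (hTG : T ≤ G) :
    finrank ℂ T + finrank ℂ (G.map Ψ) ≤ finrank ℂ G + finrank ℂ (T.map Ψ) := by
  have h1 := LinearMap.finrank_range_add_finrank_ker (Ψ.domRestrict G)
  have h2 := LinearMap.finrank_range_add_finrank_ker (Ψ.domRestrict T)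
  have h3 : LinearMap.range (Ψ.domRestrict G) = G.map Ψ := by
    rw [LinearMap.domRestrict, LinearMap.range_comp, Submodule.range_subtype]
  have h4 : LinearMap.range (Ψ.domRestrict T) = T.map Ψ := by
    rw [LinearMap.domRestrict, LinearMap.range_comp, Submodule.range_subtype]
  rw [h3] at h1
  rw [h4] at h2
  have h5 : finrank ℂ (LinearMap.ker (Ψ.domRestrict T)) ≤
      finrank ℂ (LinearMap.ker (Ψ.domRestrict G)) := by
    let g : LinearMap.ker (Ψ.domRestrict T) →ₗ[ℂ] LinearMap.ker (Ψ.domRestrict G) :=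
      LinearMap.codRestrict _ ((Submodule.inclusion hTG).comp
        (LinearMap.ker (Ψ.domRestrict T)).subtype) fun x => by
          have hx := x.2
          rw [LinearMap.mem_ker] at hx ⊢
          exact hx
    have hg : Function.Injective g := by
      intro x y hxy
      have h6 : (g x).1 = (g y).1 := congrArg Subtype.val hxy
      have h7 : Submodule.inclusion hTG x.1 = Submodule.inclusion hTG y.1 := h6
      exact Subtype.ext (Submodule.inclusion_injective hTG h7)
    exact LinearMap.finrank_le_finrank_of_injective hg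
  omega

end Pool.Agent.T2h17.GP
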