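import Pool.Agent.T2h17.GP.Stm
import Pool.Agent.T2h17.GP.SpL

/-!
Elements of rank one and stable subspaces (task CLS of project GP).
-/

set_option autoImplicit false

open Matrix Module

namespace Pool.Agent.T2h17.GP

open Pool.Agent.T2h17.AH

namespace ClsAux

variable {n : ℕ} {S : Matrix (Fin n) (Fin n) ℂ} {h : Submodule ℂ (Matrix (Fin n) (Fin n) ℂ)}

/-- the derivative of a curve in a subspace -/
theorem deriv_mem (V : Submodule ℂ (Fin n → ℂ)) (γ : ℝ → Fin n → ℂ) (v : Fin n → ℂ)
    (hγ : HasDerivAt γ v 0) (hV : ∀ᶠ t in nhds (0 : ℝ), γ t ∈ V) : v ∈ V := by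
  have hcl : IsClosed (V : Set (Fin n → ℂ)) := Submodule.closed_of_finiteDimensional V
  have h0 : γ 0 ∈ V := hV.self_of_nhds
  refine hcl.mem_of_tendsto (hasDerivAt_iff_tendsto_slope.1 hγ) ?_
  refine Filter.Eventually.filter_mono nhdsWithin_le_nhds ?_
  filter_upwards [hV] with t ht
  show slope γ 0 t ∈ V
  rw [slope_def_module]
  have h1 : γ t - γ 0 ∈ V := V.sub_mem ht h0
  have h2 := V.smul_mem ((((t - 0)⁻¹ : ℝ)) : ℂ) h1
  have h3 : ((((t - 0)⁻¹ : ℝ)) : ℂ) • (γ t - γ 0) = (t - 0)⁻¹ • (γ t - γ 0) := by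
    funext i
    rw [Pi.smul_apply, Pi.smul_apply, smul_eq_mul, Complex.real_smul]
  rw [h3] at h2
  exact h2

/-- two elements of rank one whose vectors are not orthogonal -/
theorem mix (hS : Sᵀ = -S) (hL : Lie h) {v w : Fin n → ℂ} (hv : Xm S v v ∈ h) (hw : Xm S w w ∈ h)
    (hvw : om S v w ≠ 0) : Xm S v w ∈ h := by
  have h1 := hL _ hv _ hw
  rw [br_Xm (Xm_mem hS v v), vm_Xm, ← two_smul ℂ (om S w v • v), Xm_smul_left, Xm_smul_left,
    Xm_smul_right, Xm_smul_right, Xm_symm w v, ← two_smul ℂ ((2 : ℂ) • om S w v • Xm S v w),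
    om_self hS w v] at h1
  have h2 : -((2 : ℂ) • (2 : ℂ) • -om S v w • Xm S v w) = (4 * om S v w) • Xm S v w := by
    module
  rw [h2] at h1
  have h3 := h.smul_mem (4 * om S v w)⁻¹ h1
  rwa [smul_smul, inv_mul_cancel₀ (mul_ne_zero (by norm_num) hvw), one_smul] at h3

theorem comb_mem {v w : Fin n → ℂ} (hv : Xm S v v ∈ h) (hw : Xm S w w ∈ h)
    (hvw : Xm S v w ∈ h) (s : ℂ) : Xm S (v + s • w) (v + s • w) ∈ h := by
  rw [Xm_add_right, Xm_add_left, Xm_add_left, Xm_smul_left, Xm_smul_right, Xm_smul_left,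
    Xm_smul_right, Xm_symm w v]
  exact h.add_mem (h.add_mem hv (h.smul_mem _ hvw))
    (h.add_mem (h.smul_mem _ hvw) (h.smul_mem _ (h.smul_mem _ hw)))

/-- two neighbours of an element -/
theorem mix2 (hS : Sᵀ = -S) (hL : Lie h) {v u w : Fin n → ℂ} (hv : Xm S v v ∈ h)
    (hu : Xm S u u ∈ h) (hw : Xm S w w ∈ h) (hvu : om S v u ≠ 0) (huw : om S u w ≠ 0) :
    Xm S v w ∈ h := by
  by_cases hvw : om S v w = 0
  · have h1 := comb_mem hw hu (by rw [Xm_symm]; exact mix hS hL hu hw huw) 1
    rw [one_smul] at h1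
    have h2 : om S v (w + u) ≠ 0 := by
      rw [om_add_right, hvw, zero_add]
      exact hvu
    have h3 := mix hS hL hv h1 h2
    rw [Xm_add_right] at h3
    have h4 := h.sub_mem h3 (mix hS hL hv hu hvu)
    rwa [add_sub_cancel_right] at h4
  · exact mix hS hL hv hw hvw

/-- shortening of a walk of length three -/
theorem short (hS : Sᵀ = -S) (hL : Lie h) {v a b w : Fin n → ℂ}
    (ha : Xm S a a ∈ h) (hb : Xm S b b ∈ h) (hva : om S v a ≠ 0)
    (hab : om S a b ≠ 0) (hbw : om S b w ≠ 0) :
    ∃ u, Xm S u u ∈ h ∧ om S v u ≠ 0 ∧ om S u w ≠ 0 := by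
  obtain ⟨s, hs⟩ := Infinite.exists_notMem_finset
    ({-om S v a / om S v b, -om S a w / om S b w} : Finset ℂ)
  rw [Finset.mem_insert, Finset.mem_singleton, not_or] at hs
  refine ⟨a + s • b, comb_mem ha hb (mix hS hL ha hb hab) s, ?_, ?_⟩
  · rw [om_add_right, om_smul_right]
    intro h1
    by_cases h2 : om S v b = 0
    · rw [h2, mul_zero, add_zero] at h1
      exact hva h1
    · apply hs.1
      rw [eq_div_iff h2]
      linear_combination h1
  · rw [om_add_left, om_smul_left]
    intro h1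
    apply hs.2
    rw [eq_div_iff hbw]
    linear_combination h1

theorem om_ne_symm (hS : Sᵀ = -S) {v w : Fin n → ℂ} (hvw : om S v w ≠ 0) : om S w v ≠ 0 := by
  rw [om_self hS, neg_ne_zero]
  exact hvw

/-- connection by a walk of length two -/
def D (S : Matrix (Fin n) (Fin n) ℂ) (h : Submodule ℂ (Matrix (Fin n) (Fin n) ℂ))
    (v w : Fin n → ℂ) : Prop :=
  ∃ u, Xm S u u ∈ h ∧ om S v u ≠ 0 ∧ om S u w ≠ 0

theorem D_symm (hS : Sᵀ = -S) {v w : Fin n → ℂ} (hD : D S h v w) : D S h w v := by
  obtain ⟨u, h1, h2, h3⟩ := hD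
  exact ⟨u, h1, om_ne_symm hS h3, om_ne_symm hS h2⟩

theorem D_step (hS : Sᵀ = -S) (hL : Lie h) {v w x : Fin n → ℂ} (hw : Xm S w w ∈ h)
    (hD : D S h v w) (hwx : om S w x ≠ 0) : D S h v x := by
  obtain ⟨u, h1, h2, h3⟩ := hD
  exact short hS hL h1 hw h2 h3 hwx

theorem D_trans (hS : Sᵀ = -S) (hL : Lie h) {v w x : Fin n → ℂ} (hw : Xm S w w ∈ h)
    (hD : D S h v w) (hD' : D S h w x) : D S h v x := by
  obtain ⟨u, h1, h2, h3⟩ := hD'
  exact D_step hS hL h1 (D_step hS hL hw hD h2) h3

/-- every nonzero vector has a neighbour -/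
theorem ex_nb (hd : S.det ≠ 0) (hsp : Submodule.span ℂ {p : Fin n → ℂ | Xm S p p ∈ h} = ⊤)
    {v : Fin n → ℂ} (hv : v ≠ 0) : ∃ u, Xm S u u ∈ h ∧ om S v u ≠ 0 := by
  by_contra hcon
  push Not at hcon
  apply hv
  apply om_nd hd
  intro y
  have hy : y ∈ Submodule.span ℂ {p : Fin n → ℂ | Xm S p p ∈ h} := by
    rw [hsp]
    exact Submodule.mem_top
  induction hy using Submodule.span_induction with
  | mem x hx => exact hcon x hx
  | zero => exact om_zero_right v
  | add x y _ _ hx hy => rw [om_add_right, hx, hy, add_zero]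
  | smul c x _ hx => rw [om_smul_right, hx, mul_zero]

end ClsAux

open ClsAux

theorem t_cls : S_CURVE → S_CLS := by
  intro hC n S hS hd h hh hL hsp hne
  -- a nonzero element
  obtain ⟨v0, hv0, hv0n⟩ : ∃ v0 : Fin n → ℂ, Xm S v0 v0 ∈ h ∧ v0 ≠ 0 := by
    by_contra hcon
    push Not at hcon
    apply hne
    apply le_antisymm hh
    apply sp_le hS hd
    intro v
    have hv : v ∈ Submodule.span ℂ {p : Fin n → ℂ | Xm S p p ∈ h} := by
      rw [hsp]
      exact Submodule.mem_top
    have hv2 : Submodule.span ℂ {p : Fin n → ℂ | Xm S p p ∈ h} ≤ ⊥ := by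
      rw [Submodule.span_le]
      intro p hp
      exact hcon p hp
    have hv3 : v = 0 := (Submodule.mem_bot ℂ).1 (hv2 hv)
    rw [hv3, Xm_zero_left]
    exact h.zero_mem
  have hD0 : D S h v0 v0 := by
    obtain ⟨u, hu, hu1⟩ := ex_nb hd hsp hv0n
    exact ⟨u, hu, hu1, om_ne_symm hS hu1⟩
  by_cases hall : ∀ w, Xm S w w ∈ h → w ≠ 0 → D S h v0 w
  · exfalso
    apply hne
    apply le_antisymm hh
    apply sp_le hS hd
    have key : ∀ v w, Xm S v v ∈ h → Xm S w w ∈ h → Xm S v w ∈ h := by
      intro v w hv hw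
      by_cases hv1 : v = 0
      · rw [hv1, Xm_zero_left]
        exact h.zero_mem
      by_cases hw1 : w = 0
      · rw [hw1, Xm_zero_right]
        exact h.zero_mem
      obtain ⟨u, h1, h2, h3⟩ := D_trans hS hL hv0 (D_symm hS (hall v hv hv1)) (hall w hw hw1)
      exact mix2 hS hL hv h1 hw h2 h3
    have key2 : ∀ v w, Xm S v w ∈ h := by
      intro v w
      have hv : v ∈ Submodule.span ℂ {p : Fin n → ℂ | Xm S p p ∈ h} := by
        rw [hsp]
        exact Submodule.mem_top
      have hw : w ∈ Submodule.span ℂ {p : Fin n → ℂ | Xm S p p ∈ h} := by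
        rw [hsp]
        exact Submodule.mem_top
      induction hv using Submodule.span_induction with
      | mem x hx =>
        induction hw using Submodule.span_induction with
        | mem y hy => exact key x y hx hy
        | zero => rw [Xm_zero_right]; exact h.zero_mem
        | add y z _ _ hy hz => rw [Xm_add_right]; exact h.add_mem hy hz
        | smul c y _ hy => rw [Xm_smul_right]; exact h.smul_mem _ hy
      | zero => rw [Xm_zero_left]; exact h.zero_mem
      | add y z _ _ hy hz => rw [Xm_add_left]; exact h.add_mem hy hz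
      | smul c y _ hy => rw [Xm_smul_left]; exact h.smul_mem _ hy
    exact fun v => key2 v v
  · push Not at hall
    obtain ⟨w0, hw0, hw0n, hw0D⟩ := hall
    refine ⟨Submodule.span ℂ {w | Xm S w w ∈ h ∧ D S h v0 w}, ?_, ?_, ?_⟩
    · intro hbot
      apply hv0n
      rw [← Submodule.mem_bot ℂ, ← hbot]
      exact Submodule.subset_span ⟨hv0, hD0⟩
    · intro htop
      apply hw0n
      apply om_nd hd
      intro y
      have hy : y ∈ Submodule.span ℂ {w | Xm S w w ∈ h ∧ D S h v0 w} := by
        rw [htop]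
        exact Submodule.mem_top
      induction hy using Submodule.span_induction with
      | mem x hx =>
        by_contra hne2
        exact hw0D (D_step hS hL hx.1 hx.2 (om_ne_symm hS hne2))
      | zero => exact om_zero_right w0
      | add x y _ _ hx hy => rw [om_add_right, hx, hy, add_zero]
      | smul c x _ hx => rw [om_smul_right, hx, mul_zero]
    · intro X hX v hv
      induction hv using Submodule.span_induction with
      | mem x hx =>
        obtain ⟨γ, hγ0, hγ1, hγ2⟩ := hC n S hS hd h hh hL X hX x hx.1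
        refine deriv_mem _ γ _ hγ1 ?_
        obtain ⟨u, hu1, hu2, hu3⟩ := hx.2
        have hcont : ContinuousAt (fun t => om S u (γ t)) 0 := by
          have h1 : ContinuousAt γ 0 := hγ1.continuousAt
          have h2 : Continuous fun y : Fin n → ℂ => om S u y := by
            unfold om
            exact Continuous.dotProduct continuous_const (Continuous.matrix_mulVec continuous_const continuous_id)
          exact h2.continuousAt.comp h1
        have hne3 : ∀ᶠ t in nhds (0 : ℝ), om S u (γ t) ≠ 0 := by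
          apply hcont.eventually_ne
          rw [hγ0]
          exact hu3
        filter_upwards [hne3] with t ht
        exact Submodule.subset_span ⟨hγ2 t, u, hu1, hu2, ht⟩
      | zero =>
        rw [zero_vecMul]
        exact Submodule.zero_mem _
      | add x y _ _ hx hy =>
        rw [add_vecMul]
        exact Submodule.add_mem _ hx hy
      | smul c x _ hx =>
        rw [smul_vecMul]
        exact Submodule.smul_mem _ _ hx

end Pool.Agent.T2h17.GP
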