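import Pool.Agent.T2h17.GP.Stm

/-!
The transcendence degree of the periods of a polarised structure with complex multiplication.
-/

set_option autoImplicit false
set_option maxHeartbeats 400000

open Matrix Module

namespace Pool.Agent.T2h17.GP

open Pool.Agent.T2h17.HW (tc tc_mul)

namespace Cmt

/-! ### the transcendence degree -/

theorem trd_alg (s : Finset ℂ) : Algebra.trdeg ℚ (Algebra.adjoin ℚ (s : Set ℂ)) ≤ (s.card : ℕ) := by
  have h1 : Function.Surjective (MvPolynomial.aeval (R := ℚ) (fun x : s => (⟨x.1, Algebra.subset_adjoin x.2⟩ :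
      Algebra.adjoin ℚ (s : Set ℂ)))) := by
    intro y
    have h2 : y.1 ∈ Algebra.adjoin ℚ (Set.range fun x : s => (x : ℂ)) := by
      have h3 : (Set.range fun x : s => (x : ℂ)) = (s : Set ℂ) := by
        ext z
        simp
      rw [h3]
      exact y.2
    rw [Algebra.adjoin_range_eq_range_aeval] at h2
    obtain ⟨p, hp⟩ := h2
    refine ⟨p, Subtype.ext ?_⟩
    have h4 := MvPolynomial.aeval_algebraMap_apply (R := ℚ) (B := ℂ)
      (fun x : s => (⟨x.1, Algebra.subset_adjoin x.2⟩ : Algebra.adjoin ℚ (s : Set ℂ))) p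
    rw [← hp]
    exact h4.symm
  have h2 := trdeg_le_of_surjective _ h1
  rw [MvPolynomial.trdeg_of_isDomain, Cardinal.mk_fintype, Fintype.card_coe] at h2
  simpa using h2

open IntermediateField.algebraAdjoinAdjoin in
theorem trd_fld (s : Finset ℂ) : Algebra.trdeg ℚ (IntermediateField.adjoin ℚ (s : Set ℂ)) ≤ (s.card : ℕ) := by
  have h5 : Algebra.trdeg ℚ (Algebra.adjoin ℚ (s : Set ℂ)) +
      Algebra.trdeg (Algebra.adjoin ℚ (s : Set ℂ)) (IntermediateField.adjoin ℚ (s : Set ℂ)) =
      Algebra.trdeg ℚ (IntermediateField.adjoin ℚ (s : Set ℂ)) :=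
    trdeg_add_eq ℚ (Algebra.adjoin ℚ (s : Set ℂ))
  have h6 : Algebra.trdeg (Algebra.adjoin ℚ (s : Set ℂ)) (IntermediateField.adjoin ℚ (s : Set ℂ)) = 0 :=
    trdeg_eq_zero
  rw [h6, add_zero] at h5
  rw [← h5]
  exact trd_alg s

theorem trd (s : Finset ℂ) (T : Set ℂ)
    (h : ∀ x ∈ T, IsAlgebraic (IntermediateField.adjoin ℚ (s : Set ℂ)) x) :
    Algebra.trdeg ℚ (IntermediateField.adjoin ℚ T) ≤ (s.card : ℕ) := by
  have h1 : IntermediateField.adjoin ℚ T ≤
      (algebraicClosure (IntermediateField.adjoin ℚ (s : Set ℂ)) ℂ).restrictScalars ℚ := by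
    rw [IntermediateField.adjoin_le_iff]
    intro x hx
    exact mem_algebraicClosure_iff.2 (h x hx)
  have h2 := trdeg_le_of_injective (IntermediateField.inclusion h1) (IntermediateField.inclusion h1).injective
  refine h2.trans ?_
  have h3 : Algebra.trdeg ℚ (IntermediateField.adjoin ℚ (s : Set ℂ)) +
      Algebra.trdeg (IntermediateField.adjoin ℚ (s : Set ℂ))
        (algebraicClosure (IntermediateField.adjoin ℚ (s : Set ℂ)) ℂ) =
      Algebra.trdeg ℚ (algebraicClosure (IntermediateField.adjoin ℚ (s : Set ℂ)) ℂ) :=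
    trdeg_add_eq ℚ (IntermediateField.adjoin ℚ (s : Set ℂ))
  have h4 : Algebra.trdeg (IntermediateField.adjoin ℚ (s : Set ℂ))
      (algebraicClosure (IntermediateField.adjoin ℚ (s : Set ℂ)) ℂ) = 0 := trdeg_eq_zero
  rw [h4, add_zero] at h3
  have h7 := trd_fld s
  rw [h3] at h7
  exact h7

/-! ### one vertex of each component -/

theorem choose_set {n : ℕ} (π : Fin n → Fin n) (h : ∀ i, π i ≠ i) :
    ∃ I : Finset (Fin n), I.card ≤ n / 2 ∧
      ∀ p : Fin n → Prop, (∀ i, p i ↔ p (π i)) → (∀ i ∈ I, p i) → ∀ i, p i := by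
  classical
  let r : Fin n → Fin n → Prop := fun i j => π i = j
  have : Fintype (Quot r) := Fintype.ofSurjective (Quot.mk r) Quot.mk_surjective
  refine ⟨Finset.univ.image (Quot.out : Quot r → Fin n), ?_, ?_⟩
  · have h1 : 2 * (Finset.univ : Finset (Quot r)).card ≤ (Finset.univ : Finset (Fin n)).card := by
      refine Finset.mul_card_image_le_card_of_maps_to (f := Quot.mk r) (fun _ _ => Finset.mem_univ _) 2 ?_
      intro q _
      have h2 : ({q.out, π q.out} : Finset (Fin n)) ⊆ Finset.univ.filter fun a => Quot.mk r a = q := by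
        intro x hx
        rw [Finset.mem_insert, Finset.mem_singleton] at hx
        rw [Finset.mem_filter]
        refine ⟨Finset.mem_univ _, ?_⟩
        rcases hx with rfl | rfl
        · exact Quot.out_eq q
        · rw [← Quot.sound (r := r) (a := q.out) (b := π q.out) rfl]
          exact Quot.out_eq q
      have h3 := Finset.card_le_card h2
      rwa [Finset.card_pair (h _).symm] at h3
    have h2 : (Finset.univ.image (Quot.out : Quot r → Fin n)).card ≤ (Finset.univ : Finset (Quot r)).card :=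
      Finset.card_image_le
    rw [Finset.card_univ (α := Fin n), Fintype.card_fin] at h1
    omega
  · intro p hp hI i
    have h1 : ∀ a b, r a b → p a = p b := by
      intro a b hab
      have hab' : π a = b := hab
      rw [← hab']
      exact propext (hp a)
    have h2 : Quot.lift p h1 (Quot.mk r (Quot.mk r i).out) = Quot.lift p h1 (Quot.mk r i) := by
      rw [Quot.out_eq]
    have h3 : p (Quot.mk r i).out = p i := h2
    rw [← h3]
    exact hI _ (Finset.mem_image_of_mem _ (Finset.mem_univ _))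

/-! ### eigenvectors -/

theorem eig {K : Type} [Field K] {n : ℕ} (B : Matrix (Fin n) (Fin n) K) (l : Fin n → K)
    (hl : Function.Injective l) (h : ∀ i, B.charpoly.eval (l i) = 0) :
    ∃ V : Matrix (Fin n) (Fin n) K, V.det ≠ 0 ∧ B * V = V * Matrix.diagonal l := by
  have h1 : ∀ i, ∃ v : Fin n → K, v ≠ 0 ∧ B *ᵥ v = l i • v := by
    intro i
    have h2 := h i
    rw [Matrix.eval_charpoly] at h2
    obtain ⟨v, hv, hv2⟩ := Matrix.exists_mulVec_eq_zero_iff.2 h2
    refine ⟨v, hv, ?_⟩
    rw [Matrix.sub_mulVec, sub_eq_zero] at hv2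
    rw [← hv2, Matrix.scalar_apply, ← Matrix.smul_one_eq_diagonal, Matrix.smul_mulVec, Matrix.one_mulVec]
  choose v hv hv2 using h1
  have h2 : LinearIndependent K v :=
    Module.End.eigenvectors_linearIndependent' (Matrix.toLin' B) l hl v fun i =>
      ⟨Module.End.mem_eigenspace_iff.2 (by rw [Matrix.toLin'_apply]; exact hv2 i), hv i⟩
  refine ⟨Matrix.of fun a i => v i a, ?_, ?_⟩
  · have h3 : LinearIndependent K (Matrix.of fun a i => v i a).col := h2
    rw [Matrix.linearIndependent_cols_iff_isUnit, Matrix.isUnit_iff_isUnit_det] at h3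
    exact h3.ne_zero
  · ext a i
    have h3 := congrFun (hv2 i) a
    rw [Matrix.mul_diagonal, Matrix.mul_apply]
    rw [Pi.smul_apply, smul_eq_mul, mul_comm] at h3
    exact h3

/-- eigenvectors with algebraic coordinates -/
theorem eigQ {n : ℕ} (B : Matrix (Fin n) (Fin n) ℂ) (hB : ∀ i j, IsAlgebraic ℚ (B i j)) (l : Fin n → ℂ)
    (hl : Function.Injective l) (hla : ∀ i, IsAlgebraic ℚ (l i)) (h : ∀ i, B.charpoly.eval (l i) = 0) :
    ∃ V V' : Matrix (Fin n) (Fin n) ℂ, V * V' = 1 ∧ V' * V = 1 ∧ (∀ i j, IsAlgebraic ℚ (V i j)) ∧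
      (∀ i j, IsAlgebraic ℚ (V' i j)) ∧ B * V = V * Matrix.diagonal l := by
  let Q := algebraicClosure ℚ ℂ
  let f : Q →+* ℂ := algebraMap Q ℂ
  have hf : Function.Injective f := (algebraMap Q ℂ).injective
  let B' : Matrix (Fin n) (Fin n) Q := Matrix.of fun i j => ⟨B i j, mem_algebraicClosure_iff.2 (hB i j)⟩
  let l' : Fin n → Q := fun i => ⟨l i, mem_algebraicClosure_iff.2 (hla i)⟩
  have hB' : B'.map f = B := by
    ext i j
    rfl
  have hQ : ∀ x : Q, IsAlgebraic ℚ (f x) := fun x => mem_algebraicClosure_iff.1 x.2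
  obtain ⟨W, hW, hW2⟩ := eig B' l' (fun i j hij => hl (congrArg Subtype.val hij)) (by
    intro i
    apply hf
    rw [map_zero, ← Polynomial.eval_map_apply, ← Matrix.charpoly_map, hB']
    exact h i)
  have hu : IsUnit W.det := isUnit_iff_ne_zero.2 hW
  refine ⟨W.map f, W⁻¹.map f, ?_, ?_, fun i j => hQ _, fun i j => hQ _, ?_⟩
  · rw [← Matrix.map_mul, Matrix.mul_nonsing_inv _ hu, Matrix.map_one _ (map_zero f) (map_one f)]
  · rw [← Matrix.map_mul, Matrix.nonsing_inv_mul _ hu, Matrix.map_one _ (map_zero f) (map_one f)]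
  · have h1 := congrArg (fun X : Matrix (Fin n) (Fin n) Q => X.map f) hW2
    rw [Matrix.map_mul, Matrix.map_mul, hB', Matrix.diagonal_map (map_zero f)] at h1
    exact h1

theorem mul_mem' {n : ℕ} {K : Type} [Field K] [Algebra K ℂ] (F : IntermediateField K ℂ)
    {X Y : Matrix (Fin n) (Fin n) ℂ} (hX : ∀ i j, X i j ∈ F) (hY : ∀ i j, Y i j ∈ F) :
    ∀ i j, (X * Y) i j ∈ F := by
  intro i j
  rw [Matrix.mul_apply]
  exact sum_mem fun a _ => mul_mem (hX _ _) (hY _ _)

end Cmt

open Cmt in
theorem t_cmt : S_CMT := by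
  intro n S P M A C κ hS hSd hC hκ hpol hA hcm hsep
  classical
  have htc : tc M = M.map (algebraMap ℚ ℂ) := by
    ext i j
    simp [tc]
  have hCu : IsUnit C.det := isUnit_iff_ne_zero.2 hC
  -- the eigenvalues
  obtain ⟨l, hl, hl0⟩ : ∃ l : Fin n → ℂ, Function.Injective l ∧
      ∀ i, (M.charpoly.map (algebraMap ℚ ℂ)).eval (l i) = 0 := by
    have h1 : (M.charpoly.map (algebraMap ℚ ℂ)).roots.Nodup :=
      Polynomial.nodup_roots (hsep.map)
    have h2 : Multiset.card (M.charpoly.map (algebraMap ℚ ℂ)).roots = n := by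
      rw [← (IsAlgClosed.splits (M.charpoly.map (algebraMap ℚ ℂ))).natDegree_eq_card_roots,
        Polynomial.natDegree_map, Matrix.charpoly_natDegree_eq_dim, Fintype.card_fin]
    have h3 : (M.charpoly.map (algebraMap ℚ ℂ)).roots.toFinset.card = n := by
      rw [Multiset.toFinset_card_of_nodup h1, h2]
    refine ⟨fun i => ((Finset.equivFinOfCardEq h3).symm i : ℂ), fun i j hij =>
      (Finset.equivFinOfCardEq h3).symm.injective (Subtype.ext hij), fun i => ?_⟩
    have h4 := ((Finset.equivFinOfCardEq h3).symm i).2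
    rw [Multiset.mem_toFinset] at h4
    exact Polynomial.isRoot_of_mem_roots h4
  have hla : ∀ i, IsAlgebraic ℚ (l i) := by
    intro i
    refine ⟨M.charpoly, (Matrix.charpoly_monic M).ne_zero, ?_⟩
    rw [← hl0 i, Polynomial.eval_map_algebraMap]
  have hMl : ∀ i, (tc M).charpoly.eval (l i) = 0 := by
    intro i
    rw [htc, Matrix.charpoly_map]
    exact hl0 i
  have hAM : A.charpoly = (tc M).charpoly := by
    have h1 : A = C * (tc M * C⁻¹) := by
      rw [← Matrix.mul_assoc, hcm, Matrix.mul_assoc, Matrix.mul_nonsing_inv _ hCu, Matrix.mul_one]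
    rw [h1, Matrix.charpoly_mul_comm, Matrix.mul_assoc, Matrix.nonsing_inv_mul _ hCu, Matrix.mul_one]
  obtain ⟨V, V', hVV, hVV', hV, hV', hMV⟩ := eigQ (tc M) (fun i j => isAlgebraic_algebraMap (A := ℂ) (M i j)) l
    hl hla hMl
  obtain ⟨U, U', hUU, hUU', hU, hU', hAU⟩ := eigQ A hA l hl hla (fun i => by rw [hAM]; exact hMl i)
  set L := Matrix.diagonal l with hL
  -- the diagonal matrix
  set D := U' * C * V with hD
  have hUA : U' * A = L * U' := by
    calc U' * A = U' * (A * U) * U' := by
          rw [Matrix.mul_assoc, Matrix.mul_assoc, hUU, Matrix.mul_one]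
      _ = L * U' := by rw [hAU, ← Matrix.mul_assoc, hUU', Matrix.one_mul]
  have hDL : D * L = L * D := by
    calc D * L = U' * C * (V * L) := by rw [hD, Matrix.mul_assoc]
      _ = U' * (C * tc M) * V := by rw [← hMV]; simp only [Matrix.mul_assoc]
      _ = (U' * A) * C * V := by rw [hcm]; simp only [Matrix.mul_assoc]
      _ = L * D := by rw [hUA, hD]; simp only [Matrix.mul_assoc]
  have hD0 : ∀ i j, i ≠ j → D i j = 0 := by
    intro i j hij
    have h1 := congrFun (congrFun hDL i) j
    rw [hL, Matrix.mul_diagonal, Matrix.diagonal_mul] at h1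
    have h2 : D i j * (l j - l i) = 0 := by linear_combination h1
    exact (mul_eq_zero.1 h2).resolve_right (sub_ne_zero.2 fun h3 => hij (hl h3).symm)
  have hDd : D = Matrix.diagonal fun i => D i i := by
    ext i j
    by_cases hij : i = j
    · subst hij
      rw [Matrix.diagonal_apply_eq]
    · rw [Matrix.diagonal_apply_ne _ hij, hD0 i j hij]
  have hCD : C = U * D * V' := by
    rw [hD]
    calc C = (U * U') * C * (V * V') := by rw [hUU, hVV, Matrix.one_mul, Matrix.mul_one]
      _ = _ := by simp only [Matrix.mul_assoc]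
  -- the polarisation
  set P1 := V' * tc P * V'ᵀ with hP1
  set S1 := U' * tc S * U'ᵀ with hS1
  have hDP : D * P1 * Dᵀ = κ • S1 := by
    calc D * P1 * Dᵀ = U' * (C * (V * V') * tc P * (V * V')ᵀ * Cᵀ) * U'ᵀ := by
          rw [hP1, hD]
          simp only [Matrix.transpose_mul, Matrix.mul_assoc]
      _ = U' * (C * tc P * Cᵀ) * U'ᵀ := by
          rw [hVV, Matrix.transpose_one, Matrix.mul_one, Matrix.mul_one]
      _ = κ • S1 := by rw [hpol, hS1, Matrix.mul_smul, Matrix.smul_mul]
  have hent : ∀ i j, D i i * P1 i j * D j j = κ * S1 i j := by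
    intro i j
    have h1 := congrFun (congrFun hDP i) j
    rw [hDd, Matrix.diagonal_transpose, Matrix.mul_diagonal, Matrix.diagonal_mul, Matrix.smul_apply,
      smul_eq_mul] at h1
    exact h1
  have htS : (tc S)ᵀ = -tc S := by
    ext i j
    have h1 := congrFun (congrFun hS i) j
    rw [Matrix.transpose_apply, Matrix.neg_apply] at h1
    simp only [tc, Matrix.transpose_apply, Matrix.neg_apply, Matrix.map_apply]
    rw [h1]
    push_cast
    rfl
  have hS1t : ∀ i, S1 i i = 0 := by
    intro i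
    have h1 : S1ᵀ = -S1 := by
      rw [hS1, Matrix.transpose_mul, Matrix.transpose_mul, Matrix.transpose_transpose, htS]
      simp only [Matrix.neg_mul, Matrix.mul_neg, Matrix.mul_assoc]
    have h2 := congrFun (congrFun h1 i) i
    rw [Matrix.transpose_apply, Matrix.neg_apply] at h2
    have h3 : (2 : ℂ) * S1 i i = 0 := by linear_combination h2
    exact (mul_eq_zero.1 h3).resolve_left two_ne_zero
  have hS1d : S1.det ≠ 0 := by
    rw [hS1, Matrix.det_mul, Matrix.det_mul, Matrix.det_transpose]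
    have h1 : U'.det ≠ 0 := by
      intro h2
      have h3 := congrArg Matrix.det hUU'
      rw [Matrix.det_mul, h2, zero_mul, Matrix.det_one] at h3
      exact zero_ne_one h3
    have h2 : (tc S).det ≠ 0 := by
      have h3 : tc S = (algebraMap ℚ ℂ).mapMatrix S := by
        ext i j
        simp [tc]
      rw [h3, ← RingHom.map_det]
      exact fun h4 => hSd ((map_eq_zero (algebraMap ℚ ℂ)).1 h4)
    exact mul_ne_zero (mul_ne_zero h1 h2) h1
  have hex : ∀ i, ∃ j, j ≠ i ∧ S1 i j ≠ 0 := by
    intro i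
    by_contra hcon
    push Not at hcon
    apply hS1d
    refine Matrix.det_eq_zero_of_row_eq_zero i fun j => ?_
    by_cases hij : j = i
    · rw [hij]
      exact hS1t i
    · exact hcon j hij
  choose π hπ hπ2 using hex
  obtain ⟨I, hI, hI2⟩ := choose_set π hπ
  set s : Finset ℂ := insert κ (I.image fun i => D i i) with hs
  have hcard : s.card ≤ n / 2 + 1 := by
    have h1 : (I.image fun i => D i i).card ≤ I.card := Finset.card_image_le
    exact (Finset.card_insert_le _ _).trans (by omega)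
  set F := algebraicClosure (IntermediateField.adjoin ℚ (s : Set ℂ)) ℂ with hF
  have hFa : ∀ x : ℂ, IsAlgebraic ℚ x → x ∈ F := fun x hx =>
    mem_algebraicClosure_iff.2 (hx.tower_top (IntermediateField.adjoin ℚ (s : Set ℂ)))
  have hFs : ∀ x ∈ s, x ∈ F := by
    intro x hx
    exact F.algebraMap_mem (⟨x, IntermediateField.subset_adjoin ℚ _ hx⟩ :
      IntermediateField.adjoin ℚ (s : Set ℂ))
  have hκF : κ ∈ F := hFs κ (Finset.mem_insert_self _ _)
  have hVF : ∀ i j, V' i j ∈ F := fun i j => hFa _ (hV' i j)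
  have hUF : ∀ i j, U' i j ∈ F := fun i j => hFa _ (hU' i j)
  have hQF : ∀ (X : Matrix (Fin n) (Fin n) ℚ) i j, tc X i j ∈ F := fun X i j =>
    hFa _ (isAlgebraic_algebraMap (A := ℂ) (X i j))
  have hP1F : ∀ i j, P1 i j ∈ F :=
    mul_mem' F (mul_mem' F hVF (hQF P)) fun i j => hVF j i
  have hS1F : ∀ i j, S1 i j ∈ F :=
    mul_mem' F (mul_mem' F hUF (hQF S)) fun i j => hUF j i
  have hne : ∀ i, D i i * P1 i (π i) * D (π i) (π i) ≠ 0 := by
    intro i
    rw [hent]
    exact mul_ne_zero hκ (hπ2 i)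
  have hall : ∀ i, D i i ∈ F := by
    refine hI2 (fun i => D i i ∈ F) (fun i => ?_) fun i hi =>
      hFs _ (Finset.mem_insert_of_mem (Finset.mem_image_of_mem _ hi))
    have h0 := hne i
    have h1 : D i i ≠ 0 := fun h => h0 (by rw [h, zero_mul, zero_mul])
    have h2 : D (π i) (π i) ≠ 0 := fun h => h0 (by rw [h, mul_zero])
    have h3 : P1 i (π i) ≠ 0 := fun h => h0 (by rw [h, mul_zero, zero_mul])
    have h4 := hent i (π i)
    constructor
    · intro h
      have h5 : D (π i) (π i) = κ * S1 i (π i) / (D i i * P1 i (π i)) := by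
        rw [← h4]
        field_simp
      rw [h5]
      exact div_mem (mul_mem hκF (hS1F _ _)) (mul_mem h (hP1F _ _))
    · intro h
      have h5 : D i i = κ * S1 i (π i) / (D (π i) (π i) * P1 i (π i)) := by
        rw [← h4]
        field_simp
      rw [h5]
      exact div_mem (mul_mem hκF (hS1F _ _)) (mul_mem h (hP1F _ _))
  have hDF : ∀ i j, D i j ∈ F := by
    intro i j
    by_cases hij : i = j
    · rw [hij]
      exact hall j
    · rw [hD0 i j hij]
      exact zero_mem F
  have hCF : ∀ i j, C i j ∈ F := by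
    rw [hCD]
    exact mul_mem' F (mul_mem' F (fun i j => hFa _ (hU i j)) hDF) hVF
  refine (trd s _ ?_).trans (by exact_mod_cast hcard)
  rintro _ ⟨a, rfl⟩
  exact mem_algebraicClosure_iff.1 (hCF a.1 a.2)

end Pool.Agent.T2h17.GP
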