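import Pool.Agent.T2h17.GP.Stm

/-!
One-parameter groups (task CURVE of project GP).
-/

set_option autoImplicit false

open Matrix Module
open scoped Matrix.Norms.Operator

namespace Pool.Agent.T2h17.GP

open Pool.Agent.T2h17.AH (sp om Xm LieT Pres AlgT dpw)

namespace CurveAux

variable {n : ℕ}

/-- a linear differential equation with zero initial value -/
theorem ode_zero {E : Type} [NormedAddCommGroup E] [NormedSpace ℝ E] [FiniteDimensional ℝ E]
    (A : E →ₗ[ℝ] E) (f : ℝ → E) (hf : ∀ t, HasDerivAt f (A (f t)) t) (h0 : f 0 = 0) (t : ℝ) :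
    f t = 0 := by
  let Ac : E →L[ℝ] E := LinearMap.toContinuousLinearMap A
  have hzero : f = fun _ => (0 : E) := by
    apply ODE_solution_unique_univ (v := fun _ Z => Ac Z) (s := fun _ => Set.univ) (t₀ := 0)
      (K := ‖Ac‖₊)
    · intro t
      exact Ac.lipschitz.lipschitzOnWith
    · intro t
      exact ⟨hf t, Set.mem_univ _⟩
    · intro t
      refine ⟨?_, Set.mem_univ _⟩
      rw [map_zero]
      exact hasDerivAt_const t _
    · exact h0
  rw [hzero]

/-- the image of a derivative under a linear map -/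
theorem lin_deriv {E F : Type} [NormedAddCommGroup E] [NormedSpace ℝ E] [FiniteDimensional ℝ E]
    [NormedAddCommGroup F] [NormedSpace ℝ F]
    (A : E →ₗ[ℝ] F) (f : ℝ → E) (f' : E) (t : ℝ) (hf : HasDerivAt f f' t) :
    HasDerivAt (fun t => A (f t)) (A f') t :=
  ((LinearMap.toContinuousLinearMap A).hasFDerivAt (x := f t)).comp_hasDerivAt t hf

/-- conjugation of an element of a Lie algebra by its one-parameter groups -/
theorem conj_mem (h : Submodule ℂ (Matrix (Fin n) (Fin n) ℂ)) (X : Matrix (Fin n) (Fin n) ℂ)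
    (hX : ∀ Y ∈ h, Y * X - X * Y ∈ h) (Y : Matrix (Fin n) (Fin n) ℂ) (hY : Y ∈ h) (t : ℝ) :
    NormedSpace.exp (t • (-X)) * Y * NormedSpace.exp (t • X) ∈ h := by
  obtain ⟨P, hP⟩ := h.exists_isCompl
  -- the projection to `P` along `h`
  obtain ⟨pr, hpr0, hpr1⟩ : ∃ pr : Matrix (Fin n) (Fin n) ℂ →ₗ[ℂ] Matrix (Fin n) (Fin n) ℂ,
      (∀ Z, pr Z = 0 ↔ Z ∈ h) ∧ ∀ Z, Z - pr Z ∈ h := by
    refine ⟨P.subtype.comp (Submodule.projectionOnto P h hP.symm), ?_, ?_⟩
    · intro Z
      show ((Submodule.projectionOnto P h hP.symm Z : P) : Matrix (Fin n) (Fin n) ℂ) = 0 ↔ _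
      rw [Submodule.coe_eq_zero, Submodule.projectionOnto_apply_eq_zero_iff]
    · intro Z
      show Z - ((Submodule.projectionOnto P h hP.symm Z : P) : Matrix (Fin n) (Fin n) ℂ) ∈ h
      rw [← Submodule.projectionOnto_apply_eq_zero_iff hP.symm, map_sub,
        Submodule.projectionOnto_apply_left, sub_self]
  let L : Matrix (Fin n) (Fin n) ℂ →ₗ[ℂ] Matrix (Fin n) (Fin n) ℂ :=
    LinearMap.mulRight ℂ X - LinearMap.mulLeft ℂ X
  have hL : ∀ Z, L Z = Z * X - X * Z := fun Z => rfl
  let F : ℝ → Matrix (Fin n) (Fin n) ℂ := fun t =>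
    NormedSpace.exp (t • (-X)) * Y * NormedSpace.exp (t • X)
  have hF : ∀ t, HasDerivAt F (L (F t)) t := by
    intro t
    have h1 := hasDerivAt_exp_smul_const' (𝕂 := ℝ) (-X) t
    have h2 := hasDerivAt_exp_smul_const (𝕂 := ℝ) X t
    have h3 := (h1.mul_const Y).mul h2
    refine h3.congr_deriv ?_
    rw [hL]
    simp only [F]
    have key : ∀ A B : Matrix (Fin n) (Fin n) ℂ,
        -X * A * Y * B + A * Y * (B * X) = A * Y * B * X - X * (A * Y * B) := by
      intro A B
      rw [Matrix.neg_mul, Matrix.neg_mul, Matrix.neg_mul, neg_add_eq_sub]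
      simp only [Matrix.mul_assoc]
    exact key _ _
  have hG : ∀ t, HasDerivAt (fun t => pr (F t)) ((pr.comp L).restrictScalars ℝ (pr (F t))) t := by
    intro t
    have h1 := lin_deriv (pr.restrictScalars ℝ) F _ t (hF t)
    have h2 : (pr.comp L).restrictScalars ℝ (pr (F t)) = pr (L (F t)) := by
      show pr (L (pr (F t))) = pr (L (F t))
      have h3 : pr (L (F t - pr (F t))) = 0 := by
        rw [hpr0, hL]
        exact hX _ (hpr1 _)
      rw [map_sub, map_sub, sub_eq_zero] at h3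
      exact h3.symm
    rw [h2]
    exact h1
  have hzero := ode_zero _ _ hG (by
    rw [hpr0]
    show NormedSpace.exp ((0 : ℝ) • (-X)) * Y * NormedSpace.exp ((0 : ℝ) • X) ∈ h
    rw [zero_smul, zero_smul, NormedSpace.exp_zero, Matrix.one_mul, Matrix.mul_one]
    exact hY) t
  exact (hpr0 _).1 hzero

end CurveAux

theorem t_curve : S_CURVE := by
  intro n S hS hd h hh hL X hX p hp
  have hXs : X * S + S * Xᵀ = 0 := hh hX
  have hu : IsUnit S.det := isUnit_iff_ne_zero.2 hd
  refine ⟨fun t => p ᵥ* NormedSpace.exp (t • X), ?_, ?_, ?_⟩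
  · simp only
    rw [zero_smul, NormedSpace.exp_zero, vecMul_one]
  · let f : Matrix (Fin n) (Fin n) ℂ →ₗ[ℂ] (Fin n → ℂ) :=
      { toFun := fun M => p ᵥ* M
        map_add' := fun M N => by rw [vecMul_add]
        map_smul' := fun c M => by rw [vecMul_smul, RingHom.id_apply] }
    have h1 := hasDerivAt_exp_smul_const (𝕂 := ℝ) X (0 : ℝ)
    have h2 := CurveAux.lin_deriv (f.restrictScalars ℝ) _ _ 0 h1
    have h3 : f (NormedSpace.exp ((0 : ℝ) • X) * X) = p ᵥ* X := by
      rw [zero_smul, NormedSpace.exp_zero, Matrix.one_mul]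
      rfl
    rw [← h3]
    exact h2
  · intro t
    have h1 := CurveAux.conj_mem h X (fun Y hY => hL Y hY X hX) _ hp t
    have h2 : NormedSpace.exp (t • (-X)) * S = S * (NormedSpace.exp (t • X))ᵀ := by
      have h3 : t • (-X) = S * (t • X)ᵀ * S⁻¹ := by
        rw [transpose_smul, Matrix.mul_smul, Matrix.smul_mul]
        congr 1
        have h4 : S * Xᵀ = -X * S := by
          rw [Matrix.neg_mul]
          exact eq_neg_of_add_eq_zero_right hXs
        rw [h4, Matrix.mul_assoc, Matrix.mul_nonsing_inv _ hu, Matrix.mul_one]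
      rw [h3, Matrix.exp_conj _ _ ((Matrix.isUnit_iff_isUnit_det S).2 hu), Matrix.mul_assoc,
        Matrix.nonsing_inv_mul _ hu, Matrix.mul_one, Matrix.exp_transpose]
    have h5 : NormedSpace.exp (t • (-X)) * Xm S p p * NormedSpace.exp (t • X) =
        Xm S (p ᵥ* NormedSpace.exp (t • X)) (p ᵥ* NormedSpace.exp (t • X)) := by
      have h6 : NormedSpace.exp (t • (-X)) *ᵥ (S *ᵥ p) = S *ᵥ (p ᵥ* NormedSpace.exp (t • X)) := by
        rw [mulVec_mulVec, h2, ← mulVec_mulVec, mulVec_transpose]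
      unfold Pool.Agent.T2h17.AH.Xm
      rw [Matrix.mul_add, Matrix.add_mul, Matrix.mul_vecMulVec, Matrix.vecMulVec_mul, h6]
    rw [h5] at h1
    exact h1

end Pool.Agent.T2h17.GP
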