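import Pool.Agent.T2h17.GP.FftcB

/-!
The first fundamental theorem for products of symplectic groups with arbitrary alternating forms.
-/

set_option autoImplicit false
set_option linter.unusedSectionVars false

open Matrix Module
open Pool.Agent.T2h17.AH (sp om Xm vm_Xm Xm_mem om_self)
open Pool.Agent.H204R3.SP (JJ)
open Pool.Agent.H204R3.GP (InvG MatG matG fftG)

namespace Pool.Agent.T2h17.GP

noncomputable section

variable {n k a : ℕ} {R : Type} [Fintype R] [DecidableEq R]

/-- the involution of the product -/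
def iv (inv : R → R) (q : R × Fin k) : R × Fin k := (inv q.1, q.2)

/-- the signs of the product -/
def jv (jj : R → ℂ) (q : R × Fin k) : ℂ := jj q.1

theorem JJ_prod (inv : R → R) (jj : R → ℂ) (b q : R × Fin k) :
    JJ (iv inv) (jv jj) b q = if q.2 = b.2 then JJ inv jj b.1 q.1 else 0 := by
  unfold JJ iv jv
  by_cases h1 : q.2 = b.2
  · rw [if_pos h1]
    by_cases h2 : q.1 = inv b.1
    · rw [if_pos h2, if_pos (show q = (inv b.1, b.2) from Prod.ext h2 h1)]
    · rw [if_neg h2, if_neg (fun h : q = (inv b.1, b.2) => h2 (congrArg Prod.fst h))]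
  · rw [if_neg h1, if_neg (fun h : q = (inv b.1, b.2) => h1 (by rw [h]))]

theorem Fc_JJ {P : Matrix (Fin n) (Fin n) ℂ} (hP : Pᵀ = -P) (T : (Fin a → Fin n × Fin k) → ℂ)
    (hT : ∀ (j : Fin k) (Y : Matrix (Fin n) (Fin n) ℂ), Y ∈ sp P → ∀ i : Fin a → Fin n × Fin k,
      ∑ s, (if (i s).2 = j then ∑ c, Y (i s).1 c * T (Function.update i s (c, j)) else 0) = 0)
    (e : R → Fin n → ℂ) (inv : R → R) (jj : R → ℂ)
    (he : ∀ x y, om P (e x) (e y) = JJ inv jj x y) (b c : R × Fin k) (hbc : b.2 = c.2)
    (I : Fin a → R × Fin k) :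
    ∑ s, (JJ (iv inv) (jv jj) b (I s) * Fc T e (Function.update I s c) +
      JJ (iv inv) (jv jj) c (I s) * Fc T e (Function.update I s b)) = 0 := by
  have h := Fc_inv hP T hT e b.1 c.1 b.2 I
  rw [← neg_eq_zero, ← Finset.sum_neg_distrib] at h
  refine Eq.trans (Finset.sum_congr rfl fun s _ => ?_) h
  rw [JJ_prod, JJ_prod, ← hbc]
  have hc : (c.1, b.2) = c := Prod.ext rfl hbc
  rw [hc, Prod.mk.eta]
  by_cases hs : (I s).2 = b.2
  · simp only [hs, if_true]
    rw [om_self hP, om_self hP (e (I s).1) (e c.1), he, he]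
    ring
  · simp only [hs, if_false]
    ring

theorem Fc_zero {P : Matrix (Fin n) (Fin n) ℂ} (hP : Pᵀ = -P) (T : (Fin a → Fin n × Fin k) → ℂ)
    (hT : ∀ (j : Fin k) (Y : Matrix (Fin n) (Fin n) ℂ), Y ∈ sp P → ∀ i : Fin a → Fin n × Fin k,
      ∑ s, (if (i s).2 = j then ∑ c, Y (i s).1 c * T (Function.update i s (c, j)) else 0) = 0)
    (e : R → Fin n → ℂ) (inv : R → R) (jj : R → ℂ) (hinv : ∀ x, inv (inv x) = x)
    (hne : ∀ x, inv x ≠ x) (hjj : ∀ x, jj (inv x) = -jj x) (hj0 : ∀ x, jj x ≠ 0)
    (he : ∀ x y, om P (e x) (e y) = JJ inv jj x y) (I : Fin a → R × Fin k)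
    (hI : Fc T e I ≠ 0) : Even a := by
  classical
  have hN : ∀ b : R × Fin k, (Finset.univ.filter fun s => I s = iv inv b).card =
      (Finset.univ.filter fun s => I s = b).card := by
    intro b
    have h := Fc_JJ hP T hT e inv jj he b (iv inv b) rfl I
    have h1 : ∀ s, JJ (iv inv) (jv jj) b (I s) * Fc T e (Function.update I s (iv inv b)) =
        jv jj b * Fc T e I * (if I s = iv inv b then 1 else 0) := by
      intro s
      unfold JJ
      by_cases hs : I s = iv inv b
      · rw [if_pos hs, if_pos hs, ← hs, Function.update_eq_self, mul_one]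
      · rw [if_neg hs, if_neg hs, zero_mul, mul_zero]
    have h2 : ∀ s, JJ (iv inv) (jv jj) (iv inv b) (I s) * Fc T e (Function.update I s b) =
        -(jv jj b * Fc T e I) * (if I s = b then 1 else 0) := by
      intro s
      have hb : iv inv (iv inv b) = b := Prod.ext (hinv b.1) rfl
      unfold JJ
      rw [hb]
      by_cases hs : I s = b
      · rw [if_pos hs, if_pos hs, ← hs, Function.update_eq_self, mul_one]
        have : jv jj (iv inv (I s)) = -jv jj (I s) := hjj _
        rw [this]
        ring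
      · rw [if_neg hs, if_neg hs, zero_mul, mul_zero]
    have h3 : jv jj b * Fc T e I * (((Finset.univ.filter fun s => I s = iv inv b).card : ℂ) -
        ((Finset.univ.filter fun s => I s = b).card : ℂ)) = 0 := by
      rw [← h, Finset.sum_add_distrib, Finset.sum_congr rfl fun s _ => h1 s,
        Finset.sum_congr rfl fun s _ => h2 s, ← Finset.mul_sum, ← Finset.mul_sum,
        Finset.sum_boole, Finset.sum_boole]
      ring
    have h4 := (mul_eq_zero.1 h3).resolve_left (mul_ne_zero (hj0 _) hI)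
    exact_mod_cast sub_eq_zero.1 h4
  have h5 : a = ∑ b : R × Fin k, (Finset.univ.filter fun s => I s = b).card := by
    have h6 := Finset.card_eq_sum_card_fiberwise (s := (Finset.univ : Finset (Fin a)))
      (t := (Finset.univ : Finset (R × Fin k))) (f := I) (fun _ _ => Finset.mem_coe.2 (Finset.mem_univ _))
    rwa [Finset.card_univ, Fintype.card_fin] at h6
  have h7 : ((a : ℕ) : ZMod 2) = 0 := by
    conv_lhs => rw [h5]
    rw [Nat.cast_sum]
    refine Finset.sum_involution (fun b _ => iv inv b) ?_ ?_ ?_ ?_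
    · intro b _
      rw [hN b, ← two_mul]
      have : (2 : ZMod 2) = 0 := rfl
      rw [this, zero_mul]
    · intro b _ _ h
      exact hne b.1 (congrArg Prod.fst h)
    · intro b _
      exact Finset.mem_univ _
    · intro b _
      exact Prod.ext (hinv b.1) rfl
  exact (ZMod.natCast_eq_zero_iff_even).1 h7

/-- the part of a given type -/
def Ft (F : (Fin a → R × Fin k) → ℂ) (t : Fin a → Fin k) : (Fin a → R × Fin k) → ℂ :=
  fun I => if (fun s => (I s).2) = t then F I else 0

theorem sum_Ft (F : (Fin a → R × Fin k) → ℂ) : F = ∑ t, Ft F t := by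
  funext I
  rw [Finset.sum_apply]
  unfold Ft
  rw [Finset.sum_ite_eq]
  simp

theorem Ft_mem {P : Matrix (Fin n) (Fin n) ℂ} (hP : Pᵀ = -P) (T : (Fin a → Fin n × Fin k) → ℂ)
    (hT : ∀ (j : Fin k) (Y : Matrix (Fin n) (Fin n) ℂ), Y ∈ sp P → ∀ i : Fin a → Fin n × Fin k,
      ∑ s, (if (i s).2 = j then ∑ c, Y (i s).1 c * T (Function.update i s (c, j)) else 0) = 0)
    (e : R → Fin n → ℂ) (inv : R → R) (jj : R → ℂ)
    (he : ∀ x y, om P (e x) (e y) = JJ inv jj x y) (t : Fin a → Fin k) :
    Ft (Fc T e) t ∈ InvG (Prod.snd : R × Fin k → Fin k) (iv inv) (jv jj) (Fin a) t := by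
  refine ⟨fun b c hbc I => ?_, fun I hI s => ?_⟩
  · have hbc' : b.2 = c.2 := hbc
    by_cases hI : (fun s => (I s).2) = t
    · refine Eq.trans (Finset.sum_congr rfl fun s _ => ?_) (Fc_JJ hP T hT e inv jj he b c hbc' I)
      have key : ∀ b c : R × Fin k, b.2 = c.2 →
          JJ (iv inv) (jv jj) b (I s) * Ft (Fc T e) t (Function.update I s c) =
          JJ (iv inv) (jv jj) b (I s) * Fc T e (Function.update I s c) := by
        intro b c hbc
        by_cases h : I s = iv inv b
        · congr 1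
          unfold Ft
          rw [if_pos]
          rw [← hI]
          funext s'
          by_cases hs : s' = s
          · subst hs
            rw [Function.update_self, h, ← hbc]
            rfl
          · rw [Function.update_of_ne hs]
        · unfold JJ
          rw [if_neg h, zero_mul, zero_mul]
      rw [key b c hbc', key c b hbc'.symm]
    · refine Finset.sum_eq_zero fun s _ => ?_
      have key : ∀ b c : R × Fin k, b.2 = c.2 →
          JJ (iv inv) (jv jj) b (I s) * Ft (Fc T e) t (Function.update I s c) = 0 := by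
        intro b c hbc
        by_cases h : I s = iv inv b
        · unfold Ft
          rw [if_neg, mul_zero]
          intro h'
          apply hI
          rw [← h']
          funext s'
          by_cases hs : s' = s
          · subst hs
            rw [Function.update_self, h, ← hbc]
            rfl
          · rw [Function.update_of_ne hs]
        · unfold JJ
          rw [if_neg h, zero_mul]
      rw [key b c hbc', key c b hbc'.symm, add_zero]
  · unfold Ft at hI
    by_cases h : (fun s => (I s).2) = t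
    · exact congrFun h s
    · rw [if_neg h] at hI
      exact absurd rfl hI

theorem sum_pairs {m : ℕ} (ε : Fin m × Fin 2 ≃ Fin a) (G : Fin m → R → R → ℂ) :
    ∑ I : Fin a → R, ∏ s, G s (I (ε (s, 0))) (I (ε (s, 1))) = ∏ s, ∑ x, ∑ y, G s x y := by
  have h1 : ∀ s, ∑ x, ∑ y, G s x y = ∑ z : Fin 2 → R, G s (z 0) (z 1) := by
    intro s
    rw [← (finTwoArrowEquiv R).symm.sum_comp, Fintype.sum_prod_type]
    rfl
  rw [Finset.prod_congr rfl fun s _ => h1 s, Finset.prod_univ_sum, Fintype.piFinset_univ]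
  refine Fintype.sum_equiv ((Equiv.arrowCongr ε.symm (Equiv.refl R)).trans (Equiv.curry _ _ _))
    _ _ fun I => ?_
  rfl

theorem P_eq (P : Matrix (Fin n) (Fin n) ℂ) (e : Basis R ℂ (Fin n → ℂ)) (inv : R → R) (jj : R → ℂ)
    (he : ∀ x y, om P (e x) (e y) = JJ inv jj x y) (v v' : Fin n) :
    ∑ x, ∑ y, e.repr (Pi.single v 1) x * e.repr (Pi.single v' 1) y * JJ inv jj x y = P v v' := by
  have h1 : om P (Pi.single v 1) (Pi.single v' 1) = P v v' := by
    unfold om
    rw [mulVec_single_one, single_one_dotProduct]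
    rfl
  rw [← h1]
  conv_rhs => rw [← e.sum_repr (Pi.single v 1), ← e.sum_repr (Pi.single v' 1)]
  unfold om
  rw [sum_dotProduct]
  refine Finset.sum_congr rfl fun x _ => ?_
  rw [mulVec_sum, dotProduct_sum]
  refine Finset.sum_congr rfl fun y _ => ?_
  rw [mulVec_smul, smul_dotProduct, dotProduct_smul, ← he, smul_eq_mul, smul_eq_mul]
  unfold om
  ring

theorem Ph_matG (P : Matrix (Fin n) (Fin n) ℂ) (e : Basis R ℂ (Fin n → ℂ)) (inv : R → R)
    (jj : R → ℂ) (he : ∀ x y, om P (e x) (e y) = JJ inv jj x y) {m : ℕ}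
    (ε : Fin m × Fin 2 ≃ Fin a) (c : Fin m → Fin k) :
    Ph e (matG (Prod.snd : R × Fin k → Fin k) (iv inv) (jv jj) ε c) =
      fun i => ∏ s, if (i (ε (s, 0))).2 = c s ∧ (i (ε (s, 1))).2 = c s then
        P (i (ε (s, 0))).1 (i (ε (s, 1))).1 else 0 := by
  funext i
  show ∑ I : Fin a → R, (∏ s, e.repr (Pi.single (i s).1 1) (I s)) *
    matG (Prod.snd : R × Fin k → Fin k) (iv inv) (jv jj) ε c (fun s => (I s, (i s).2)) = _
  let G : Fin m → R → R → ℂ := fun s x y =>
    if (i (ε (s, 0))).2 = c s ∧ (i (ε (s, 1))).2 = c s then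
        e.repr (Pi.single (i (ε (s, 0))).1 1) x * e.repr (Pi.single (i (ε (s, 1))).1 1) y *
          JJ inv jj x y else 0
  have h1 : ∀ I : Fin a → R, (∏ s, e.repr (Pi.single (i s).1 1) (I s)) *
      matG (Prod.snd : R × Fin k → Fin k) (iv inv) (jv jj) ε c (fun s => (I s, (i s).2)) =
      ∏ s, G s (I (ε (s, 0))) (I (ε (s, 1))) := by
    intro I
    have h2 : ∏ s, e.repr (Pi.single (i s).1 1) (I s) =
        ∏ s : Fin m, (e.repr (Pi.single (i (ε (s, 0))).1 1) (I (ε (s, 0))) *
          e.repr (Pi.single (i (ε (s, 1))).1 1) (I (ε (s, 1)))) := by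
      rw [← ε.prod_comp, Fintype.prod_prod_type]
      refine Finset.prod_congr rfl fun s _ => ?_
      rw [Fin.prod_univ_two]
    rw [h2]
    unfold matG
    rw [← Finset.prod_mul_distrib]
    refine Finset.prod_congr rfl fun s _ => ?_
    dsimp only [G]
    rw [JJ_prod]
    dsimp only
    by_cases h3 : (i (ε (s, 0))).2 = c s
    · rw [if_pos h3]
      by_cases h4 : (i (ε (s, 1))).2 = c s
      · rw [if_pos (h4.trans h3.symm), if_pos ⟨h3, h4⟩]
      · rw [if_neg (fun h => h4 (h.trans h3)), if_neg (fun h => h4 h.2), mul_zero]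
    · rw [if_neg h3, if_neg (fun h => h3 h.1), mul_zero]
  refine (Finset.sum_congr rfl fun I _ => h1 I).trans ((sum_pairs ε G).trans ?_)
  refine Finset.prod_congr rfl fun s _ => ?_
  dsimp only [G]
  by_cases h5 : (i (ε (s, 0))).2 = c s ∧ (i (ε (s, 1))).2 = c s
  · simp only [h5, and_self, if_true]
    exact P_eq P e inv jj he _ _
  · simp only [h5, if_false, Finset.sum_const_zero]

/-- **The first fundamental theorem** for products of symplectic groups of an arbitrary form -/
theorem fftc_core (P : Matrix (Fin n) (Fin n) ℂ) (hP : Pᵀ = -P) (hdet : P.det ≠ 0)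
    (T : (Fin a → Fin n × Fin k) → ℂ)
    (hT : ∀ (j : Fin k) (Y : Matrix (Fin n) (Fin n) ℂ), Y ∈ sp P → ∀ i : Fin a → Fin n × Fin k,
      ∑ s, (if (i s).2 = j then ∑ c, Y (i s).1 c * T (Function.update i s (c, j)) else 0) = 0) :
    T ∈ Submodule.span ℂ {G | ∃ (m : ℕ) (ε : Fin m × Fin 2 ≃ Fin a) (c : Fin m → Fin k),
      G = fun i => ∏ s, if (i (ε (s, 0))).2 = c s ∧ (i (ε (s, 1))).2 = c s then
        P (i (ε (s, 0))).1 (i (ε (s, 1))).1 else 0} := by
  classical
  let ω : (Fin n → ℂ) →ₗ[ℂ] (Fin n → ℂ) →ₗ[ℂ] ℂ :=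
    LinearMap.mk₂ ℂ (fun x y => om P x y)
      (fun x y z => by simp only [om, add_dotProduct])
      (fun c x y => by simp only [om, smul_dotProduct])
      (fun x y z => by simp only [om, mulVec_add, dotProduct_add])
      (fun c x y => by simp only [om, mulVec_smul, dotProduct_smul])
  have hω : ∀ x y, ω x y = om P x y := fun _ _ => rfl
  obtain ⟨R, _, _, e, inv, jj, hinv, hne, hjj, hj1, hJ⟩ :=
    Pool.Agent.W437.HD.exists_darboux (finrank ℂ (Fin n → ℂ)) (Fin n → ℂ) ω
      (fun v => by rw [hω]; exact Pool.Agent.T2h17.AH.om_zero hP v)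
      (fun u hu => by
        have h1 : P *ᵥ u = 0 := by
          funext v
          have h2 := hu (Pi.single v 1)
          rw [hω] at h2
          unfold om at h2
          rwa [single_one_dotProduct] at h2
        exact Matrix.eq_zero_of_mulVec_eq_zero hdet h1) le_rfl
  have he : ∀ x y, om P (e x) (e y) = JJ inv jj x y := fun x y => hJ x y
  have hj0 : ∀ x, jj x ≠ 0 := by
    intro x
    rcases hj1 x with h | h
    · rw [h]
      exact one_ne_zero
    · rw [h]
      exact neg_ne_zero.2 one_ne_zero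
  rcases Nat.even_or_odd a with ha | ha
  · obtain ⟨m, hm⟩ := ha
    have k1 : ∀ x : R × Fin k, iv inv (iv inv x) = x := fun x => Prod.ext (hinv x.1) rfl
    have k2 : ∀ x : R × Fin k, jv jj (iv inv x) = -jv jj x := fun x => hjj x.1
    have k3 : ∀ x : R × Fin k, jv jj x ≠ 0 := fun x => hj0 x.1
    have k4 : ∀ x y : R × Fin k, Prod.snd x = Prod.snd y → Prod.snd (iv inv x) = Prod.snd (iv inv y) :=
      fun x y h => h
    have k5 : Fintype.card (Fin a) = 2 * m := by
      rw [Fintype.card_fin]
      omega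
    have hF : Fc T e ∈ MatG (Prod.snd : R × Fin k → Fin k) (iv inv) (jv jj) (Fin a) m := by
      rw [sum_Ft (Fc T e)]
      refine Submodule.sum_mem _ fun t _ => ?_
      exact fftG k1 k2 k3 k4 m (Fin a) k5 t (Ft_mem hP T hT e inv jj he t)
    rw [← Ph_Fc e T]
    have h6 : Submodule.map (Ph e) (MatG (Prod.snd : R × Fin k → Fin k) (iv inv) (jv jj) (Fin a) m) ≤
        Submodule.span ℂ {G | ∃ (m : ℕ) (ε : Fin m × Fin 2 ≃ Fin a) (c : Fin m → Fin k),
          G = fun i => ∏ s, if (i (ε (s, 0))).2 = c s ∧ (i (ε (s, 1))).2 = c s then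
            P (i (ε (s, 0))).1 (i (ε (s, 1))).1 else 0} := by
      unfold MatG
      rw [Submodule.map_span_le]
      rintro _ ⟨ε, c, rfl⟩
      exact Submodule.subset_span ⟨m, ε, c, Ph_matG P e inv jj he ε c⟩
    have h7 := Submodule.mem_map_of_mem (f := Ph e) hF
    exact h6 h7
  · have h7 : Fc T e = 0 := by
      funext I
      by_contra hI
      exact (Nat.not_even_iff_odd.2 ha)
        (Fc_zero hP T hT e inv jj hinv hne hjj hj0 he I hI)
    have h8 : T = 0 := by
      rw [← Ph_Fc e T, h7, map_zero]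
    rw [h8]
    exact Submodule.zero_mem _

end

end Pool.Agent.T2h17.GP
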