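import Pool.Agent.T2h17.GP.Stm
import Pool.Agent.T2h17.GP.FftcC

/-!
The invariant tensors of a product of symplectic groups.
-/

set_option autoImplicit false

open Matrix Module

namespace Pool.Agent.T2h17.GP

theorem t_fftc : S_FFTC := fun _ _ _ P hP hdet T hT => fftc_core P hP hdet T hT

end Pool.Agent.T2h17.GP
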