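import Mathlib

/-!
Descent of spans of rational vectors.
-/

set_option autoImplicit false

namespace Pool.Agent.T2h17.GP

/-- a rational vector in the complex span of rational vectors is in the rational span -/
theorem mem_span_rat {κ : Type*} [Fintype κ] [DecidableEq κ] (A : Set (κ → ℚ)) (T : κ → ℚ)
    (h : (fun i => (T i : ℂ)) ∈ Submodule.span ℂ ((fun G : κ → ℚ => fun i => (G i : ℂ)) '' A)) :
    T ∈ Submodule.span ℚ A := by
  by_contra hT
  obtain ⟨φ, hφ, hle⟩ := Submodule.exists_le_ker_of_notMem hT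
  let ψ : (κ → ℂ) →ₗ[ℂ] ℂ := ∑ i, ((φ (Pi.single i 1) : ℚ) : ℂ) • (LinearMap.proj i : (κ → ℂ) →ₗ[ℂ] ℂ)
  have hψ : ∀ G : κ → ℚ, ψ (fun i => (G i : ℂ)) = ((φ G : ℚ) : ℂ) := by
    intro G
    have h1 : φ G = ∑ i, G i * φ (Pi.single i 1) := by
      have h2 : G = ∑ i, G i • (Pi.single i 1 : κ → ℚ) := by
        funext p
        simp [Finset.sum_apply, Pi.single_apply]
      conv_lhs => rw [h2]
      rw [map_sum]
      refine Finset.sum_congr rfl fun i _ => ?_
      rw [map_smul, smul_eq_mul]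
    rw [h1]
    simp only [ψ, LinearMap.sum_apply, LinearMap.smul_apply, LinearMap.proj_apply, smul_eq_mul]
    push_cast
    refine Finset.sum_congr rfl fun i _ => ?_
    ring
  have h3 : Submodule.span ℂ ((fun G : κ → ℚ => fun i => (G i : ℂ)) '' A) ≤ LinearMap.ker ψ := by
    rw [Submodule.span_le]
    rintro _ ⟨G, hG, rfl⟩
    show ψ _ = 0
    rw [hψ]
    have h4 : φ G = 0 := hle (Submodule.subset_span hG)
    rw [h4]
    exact Rat.cast_zero
  have h5 : ψ (fun i => (T i : ℂ)) = 0 := h3 h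
  rw [hψ] at h5
  exact hφ (by exact_mod_cast h5)

end Pool.Agent.T2h17.GP
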