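import Pool.Agent.T2h17.GP.Stm
import Pool.Agent.T2h17.GP.FftqA

/-!
The rational invariant tensors of a product of symplectic groups.
-/

set_option autoImplicit false

open Matrix Module
open Pool.Agent.T2h17.HW (tc)

namespace Pool.Agent.T2h17.GP

theorem cast_prT {n k a m : ℕ} (P : Matrix (Fin n) (Fin n) ℚ) (e : Fin m × Fin 2 ≃ Fin a)
    (c : Fin m → Fin k) : (fun i => ((prT P e c i : ℚ) : ℂ)) = prT (tc P) e c := by
  funext i
  unfold prT
  rw [Rat.cast_prod]
  refine Finset.prod_congr rfl fun s _ => ?_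
  split_ifs
  · rfl
  · exact Rat.cast_zero

theorem t_fftq : S_FFTC → S_FFTQ := by
  intro h n k a P hP hdet T hT
  have h1 : (tc P)ᵀ = -(tc P) := by
    ext i j
    have h2 := congrFun (congrFun hP i) j
    show ((P j i : ℚ) : ℂ) = -((P i j : ℚ) : ℂ)
    have h3 : P j i = -P i j := h2
    rw [h3]
    push_cast
    rfl
  have h4 : (tc P).det ≠ 0 := by
    have h5 : (tc P).det = ((P.det : ℚ) : ℂ) := by
      have h6 := (Rat.castHom ℂ).map_det P
      exact h6.symm
    rw [h5]
    exact_mod_cast hdet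
  have h7 := h n k a (tc P) h1 h4 (fun i => (T i : ℂ)) hT
  refine mem_span_rat _ T ?_
  refine Submodule.span_mono ?_ h7
  rintro _ ⟨m, e, c, rfl⟩
  exact ⟨prT P e c, ⟨m, e, c, rfl⟩, cast_prT P e c⟩

end Pool.Agent.T2h17.GP
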