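import Pool.Agent.T2h17.GP.Stm

/-!
Subalgebras of small codimension of a power of a simple Lie algebra (task GOUR of helper17).
-/

set_option autoImplicit false

open Matrix Module

namespace Pool.Agent.T2h17.GP.Gour

variable {K A : Type*} [Field K] [Ring A] [Algebra K A]

/-- The elements `Y` with `Y` at the place `j` in `M`. -/
def pt {k : ℕ} (M : Submodule K (Fin k → A)) (j : Fin k) : Submodule K A :=
  M.comap (LinearMap.single K (fun _ : Fin k => A) j)

lemma mem_pt {k : ℕ} {M : Submodule K (Fin k → A)} {j : Fin k} {Y : A} :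
    Y ∈ pt M j ↔ (Pi.single j Y : Fin k → A) ∈ M := Iff.rfl

lemma br_single {k : ℕ} (i : Fin k) (X : A) (W : Fin k → A) :
    (fun j => W j * (Pi.single i X : Fin k → A) j - (Pi.single i X : Fin k → A) j * W j) =
      Pi.single i (W i * X - X * W i) := by
  funext j
  by_cases h : j = i
  · subst h
    simp
  · simp [h]

open Classical in
/-- The places which are not contained. -/
noncomputable def RR (g : Submodule K A) {k : ℕ} (M : Submodule K (Fin k → A)) : Finset (Fin k) :=
  Finset.univ.filter fun j => ¬ g ≤ pt M j

lemma mem_RR {g : Submodule K A} {k : ℕ} {M : Submodule K (Fin k → A)} {j : Fin k} :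
    j ∈ RR g M ↔ ¬ g ≤ pt M j := by
  simp [RR]

lemma RR_mem {g : Submodule K A} {k : ℕ} {M : Submodule K (Fin k → A)} {Y : Fin k → A}
    (hY : ∀ j, Y j ∈ g) (h0 : ∀ j ∈ RR g M, Y j = 0) : Y ∈ M := by
  have h1 : Y = ∑ j, Pi.single j (Y j) := (Finset.univ_sum_single Y).symm
  rw [h1]
  refine Submodule.sum_mem _ fun j _ => ?_
  by_cases hj : j ∈ RR g M
  · rw [h0 j hj, Pi.single_zero]
    exact M.zero_mem
  · rw [mem_RR, not_not] at hj
    exact hj (hY j)

/-- Forget the first place. -/
def tl (K A : Type*) [Field K] [Ring A] [Algebra K A] (k : ℕ) :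
    (Fin (k + 1) → A) →ₗ[K] (Fin k → A) where
  toFun Y j := Y j.succ
  map_add' _ _ := rfl
  map_smul' _ _ := rfl

/-- The elements of `M` with zeros except at the places `0` and `j + 1`. -/
def NN {k : ℕ} (M : Submodule K (Fin (k + 1) → A)) (j : Fin k) :
    Submodule K (Fin (k + 1) → A) where
  carrier := {W | W ∈ M ∧ ∀ i, i ≠ j → W i.succ = 0}
  add_mem' := fun {a b} ha hb => ⟨M.add_mem ha.1 hb.1, fun i hi => by
    rw [Pi.add_apply, ha.2 i hi, hb.2 i hi, add_zero]⟩
  zero_mem' := ⟨M.zero_mem, fun _ _ => rfl⟩
  smul_mem' := fun r a ha => ⟨M.smul_mem r ha.1, fun i hi => by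
    rw [Pi.smul_apply, ha.2 i hi, smul_zero]⟩

variable [FiniteDimensional K A]

/-- The induction. -/
theorem main (g : Submodule K A) (m : ℕ)
    (hm : ∀ h : Submodule K A, h ≤ g → (∀ X ∈ h, ∀ Y ∈ h, X * Y - Y * X ∈ h) → h ≠ g →
      finrank K h + m ≤ finrank K g)
    (hs : ∀ I : Submodule K A, I ≤ g → (∀ X ∈ g, ∀ Y ∈ I, X * Y - Y * X ∈ I) → I = ⊥ ∨ I = g)
    (hn : ∃ X ∈ g, ∃ Y ∈ g, X * Y ≠ Y * X) (h2 : 2 * m ≤ finrank K g) :
    ∀ (k : ℕ) (M : Submodule K (Fin k → A)), (∀ Y ∈ M, ∀ j, Y j ∈ g) →
      (∀ X ∈ M, ∀ Y ∈ M, (fun j => X j * Y j - Y j * X j) ∈ M) →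
      (RR g M).card * m + finrank K M ≤ k * finrank K g
  | 0, M, _, _ => by
    have h1 : (RR g M) = ∅ := Finset.eq_empty_of_isEmpty _
    have h3 : finrank K M = 0 := finrank_zero_of_subsingleton
    rw [h1, h3]
    simp
  | k + 1, M, hM1, hM2 => by
    classical
    set M' := M.map (tl K A k) with hM'
    have hM1' : ∀ Y ∈ M', ∀ j, Y j ∈ g := by
      rintro _ ⟨Y, hY, rfl⟩ j
      exact hM1 Y hY _
    have hM2' : ∀ X ∈ M', ∀ Y ∈ M', (fun j => X j * Y j - Y j * X j) ∈ M' := by
      rintro _ ⟨X, hX, rfl⟩ _ ⟨Y, hY, rfl⟩
      exact ⟨_, hM2 X hX Y hY, rfl⟩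
    have ih := main g m hm hs hn h2 k M' hM1' hM2'
    have hd : finrank K M ≤ finrank K M' + finrank K (pt M 0) := by
      have h3 := LinearMap.finrank_range_add_finrank_ker ((tl K A k).domRestrict M)
      rw [LinearMap.range_domRestrict, ← hM'] at h3
      have h4 : finrank K (LinearMap.ker ((tl K A k).domRestrict M)) ≤ finrank K (pt M 0) := by
        have h6 : ∀ W : LinearMap.ker ((tl K A k).domRestrict M),
            (W : M).1 = Pi.single 0 ((W : M).1 0) := by
          intro W
          have h5 : tl K A k (W : M).1 = 0 := W.2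
          funext j
          refine Fin.cases ?_ (fun i => ?_) j
          · rw [Pi.single_eq_same]
          · rw [Pi.single_eq_of_ne (Fin.succ_ne_zero i)]
            exact congrFun h5 i
        let φ : LinearMap.ker ((tl K A k).domRestrict M) →ₗ[K] pt M 0 :=
          { toFun := fun W => ⟨(W : M).1 0, by
              rw [mem_pt, ← h6 W]
              exact (W : M).2⟩
            map_add' := fun a b => rfl
            map_smul' := fun r a => rfl }
        refine LinearMap.finrank_le_finrank_of_injective (f := φ) ?_
        intro a b hab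
        have h7 : (a : M).1 0 = (b : M).1 0 := congrArg Subtype.val hab
        apply Subtype.ext
        apply Subtype.ext
        rw [h6 a, h6 b, h7]
      omega
    have hle : ∀ j, pt M j ≤ g := by
      intro j Y hY
      have h3 := hM1 _ hY j
      rwa [LinearMap.single_apply, Pi.single_eq_same] at h3
    set B : Finset (Fin k) := Finset.univ.filter fun j => ¬ g ≤ pt M j.succ ∧ g ≤ pt M' j
      with hB
    have hBmem : ∀ {j}, j ∈ B ↔ (¬ g ≤ pt M j.succ ∧ g ≤ pt M' j) := by
      intro j
      rw [hB, Finset.mem_filter]
      exact ⟨fun h => h.2, fun h => ⟨Finset.mem_univ _, h⟩⟩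
    have hcard : (RR g M).card ≤ (if g ≤ pt M 0 then 0 else 1) + ((RR g M').card + B.card) := by
      have h3 : RR g M ⊆ (if g ≤ pt M 0 then ∅ else {0}) ∪ ((RR g M') ∪ B).image Fin.succ := by
        intro j hj
        rw [mem_RR] at hj
        rw [Finset.mem_union]
        revert hj
        refine Fin.cases (fun hj => ?_) (fun i hj => ?_) j
        · left
          rw [if_neg hj]
          exact Finset.mem_singleton_self _
        · right
          refine Finset.mem_image_of_mem _ ?_
          rw [Finset.mem_union, mem_RR, hBmem]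
          tauto
      refine (Finset.card_le_card h3).trans ((Finset.card_union_le _ _).trans ?_)
      refine Nat.add_le_add ?_ (Finset.card_image_le.trans (Finset.card_union_le _ _))
      split_ifs <;> simp
    -- lifting
    have hlift : ∀ {j}, g ≤ pt M' j → ∀ Y ∈ g, ∃ W ∈ M, W j.succ = Y ∧ ∀ i, i ≠ j →
        W i.succ = 0 := by
      intro j hj Y hY
      obtain ⟨W, hW, h3⟩ := hj hY
      refine ⟨W, hW, ?_, fun i hi => ?_⟩
      · have h4 := congrFun h3 j
        rw [LinearMap.single_apply, Pi.single_eq_same] at h4
        exact h4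
      · have h4 := congrFun h3 i
        rw [LinearMap.single_apply, Pi.single_eq_of_ne hi] at h4
        exact h4
    by_cases h0 : g ≤ pt M 0
    · have hBe : B = ∅ := by
        rw [Finset.eq_empty_iff_forall_notMem]
        intro j hj
        rw [hBmem] at hj
        apply hj.1
        intro Y hY
        obtain ⟨W, hW, h3, h4⟩ := hlift hj.2 Y hY
        have h5 : (Pi.single j.succ Y : Fin (k + 1) → A) = W - Pi.single 0 (W 0) := by
          funext i
          refine Fin.cases ?_ (fun i => ?_) i
          · rw [Pi.single_eq_of_ne (Fin.succ_ne_zero j).symm, Pi.sub_apply, Pi.single_eq_same,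
              sub_self]
          · have h9 : (Pi.single 0 (W 0) : Fin (k + 1) → A) i.succ = 0 :=
              Pi.single_eq_of_ne (Fin.succ_ne_zero i) _
            rw [Pi.sub_apply, h9, sub_zero]
            by_cases hi : i = j
            · subst hi
              rw [Pi.single_eq_same, h3]
            · rw [h4 i hi, Pi.single_eq_of_ne (fun h => hi (Fin.succ_injective _ h))]
        rw [mem_pt, h5]
        exact M.sub_mem hW (h0 (hM1 W hW 0))
      rw [if_pos h0, hBe, Finset.card_empty, zero_add, add_zero] at hcard
      have h3 : (RR g M).card * m ≤ (RR g M').card * m := Nat.mul_le_mul_right m hcard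
      have h4 : finrank K (pt M 0) ≤ finrank K g := Submodule.finrank_mono (hle 0)
      rw [add_mul, one_mul]
      omega
    · have hp := hm (pt M 0) (hle 0) (fun X hX Y hY => by
        have h3 := hM2 _ hX _ hY
        rw [mem_pt]
        have h4 := br_single (0 : Fin (k + 1)) Y (Pi.single 0 X)
        rw [Pi.single_eq_same] at h4
        rw [← h4]
        exact h3) (fun h => h0 h.ge)
      -- the parts of `B`
      have hbot : ∀ {j}, j ∈ B → pt M j.succ = ⊥ := by
        intro j hj
        rw [hBmem] at hj
        refine (hs _ (hle _) fun X hX Y hY => ?_).resolve_right fun h => hj.1 h.ge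
        obtain ⟨W, hW, h3, -⟩ := hlift hj.2 X hX
        have h4 := hM2 W hW _ hY
        rw [mem_pt]
        have h5 := br_single j.succ Y W
        rw [h3] at h5
        rw [← h5]
        exact h4
      have hsur : ∀ {j}, j ∈ B → ∀ Z ∈ g, ∃ W ∈ NN M j, W 0 = Z := by
        intro j hj
        have hb := hbot hj
        rw [hBmem] at hj
        have h3 : finrank K g ≤ finrank K (NN M j) := by
          have h4 : g ≤ (NN M j).map (LinearMap.proj j.succ) := by
            intro Y hY
            obtain ⟨W, hW, h5, h6⟩ := hlift hj.2 Y hY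
            exact ⟨W, ⟨hW, h6⟩, h5⟩
          exact (Submodule.finrank_mono h4).trans (Submodule.finrank_map_le _ _)
        have hinj : Function.Injective
            ((LinearMap.proj (R := K) (φ := fun _ : Fin (k + 1) => A) 0).domRestrict
              (NN M j)) := by
          rw [injective_iff_map_eq_zero]
          rintro ⟨W, hW⟩ h5
          have h6 : W 0 = 0 := h5
          have h7 : W = Pi.single j.succ (W j.succ) := by
            funext i
            refine Fin.cases ?_ (fun i => ?_) i
            · rw [Pi.single_eq_of_ne (Fin.succ_ne_zero j).symm, h6]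
            · by_cases hi : i = j
              · subst hi
                rw [Pi.single_eq_same]
              · rw [hW.2 i hi, Pi.single_eq_of_ne (fun h => hi (Fin.succ_injective _ h))]
          have h8 : W j.succ ∈ pt M j.succ := by
            rw [mem_pt, ← h7]
            exact hW.1
          rw [hb, Submodule.mem_bot] at h8
          apply Subtype.ext
          change W = 0
          rw [h7, h8, Pi.single_zero]
        have h5 := LinearMap.finrank_range_of_inj hinj
        rw [LinearMap.range_domRestrict] at h5
        have h6 : (NN M j).map (LinearMap.proj (R := K) (φ := fun _ : Fin (k + 1) => A) 0) ≤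
            g := by
          rintro _ ⟨W, hW, rfl⟩
          exact hM1 W hW.1 0
        have h7 := Submodule.eq_of_le_of_finrank_le h6 (by rw [h5]; exact h3)
        intro Z hZ
        rw [← h7] at hZ
        obtain ⟨W, hW, h8⟩ := hZ
        exact ⟨W, hW, h8⟩
      rw [if_neg h0] at hcard
      rcases B.eq_empty_or_nonempty with hBe | ⟨j, hj⟩
      · rw [hBe, Finset.card_empty, add_zero] at hcard
        have h3 : (RR g M).card * m ≤ (1 + (RR g M').card) * m := Nat.mul_le_mul_right m hcard
        rw [add_mul, one_mul] at h3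
        rw [add_mul, one_mul]
        omega
      · have hz : pt M 0 = ⊥ := by
          refine (hs _ (hle _) fun X hX Y hY => ?_).resolve_right fun h => h0 h.ge
          obtain ⟨W, hW, h3⟩ := hsur hj X hX
          have h4 := hM2 W hW.1 _ hY
          rw [mem_pt]
          have h5 := br_single (0 : Fin (k + 1)) Y W
          rw [h3] at h5
          rw [← h5]
          exact h4
        have hB1 : B.card ≤ 1 := by
          rw [Finset.card_le_one]
          intro a ha b hb
          by_contra hab
          obtain ⟨Z, hZ, Z', hZ', hne⟩ := hn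
          obtain ⟨W, hW, h3⟩ := hsur ha Z hZ
          obtain ⟨W', hW', h4⟩ := hsur hb Z' hZ'
          have h5 := hM2 W hW.1 W' hW'.1
          have h6 : (fun i => W i * W' i - W' i * W i) = Pi.single 0 (Z * Z' - Z' * Z) := by
            funext i
            refine Fin.cases ?_ (fun i => ?_) i
            · rw [Pi.single_eq_same, h3, h4]
            · rw [Pi.single_eq_of_ne (Fin.succ_ne_zero i)]
              by_cases hi : i = a
              · subst hi
                rw [hW'.2 i hab, mul_zero, zero_mul, sub_zero]
              · rw [hW.2 i hi, mul_zero, zero_mul, sub_zero]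
          rw [h6] at h5
          have h7 : Z * Z' - Z' * Z ∈ pt M 0 := h5
          rw [hz, Submodule.mem_bot, sub_eq_zero] at h7
          exact hne h7
        have h3 : (RR g M).card * m ≤ (1 + ((RR g M').card + 1)) * m :=
          Nat.mul_le_mul_right m (hcard.trans (by omega))
        rw [hz, finrank_bot, add_zero] at hd
        rw [add_mul, add_mul, one_mul] at h3
        rw [add_mul, one_mul]
        omega

end Pool.Agent.T2h17.GP.Gour

namespace Pool.Agent.T2h17.GP

/-- (GOUR) -/
theorem t_gour : S_GOUR := by
  intro n k m ν g _ hm hs hn h2 M hM1 hM2 hν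
  have h := Gour.main g m (fun h h1 h2 h3 => hm h h1 h2 h3) hs hn h2 k M hM1 hM2
  refine ⟨Gour.RR g M, ?_, fun Y hY h0 => Gour.RR_mem hY h0⟩
  omega

end Pool.Agent.T2h17.GP
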