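import Pool.Agent.T2h17.GP.Stm

/-!
The derivative of the tensor power is a homomorphism of Lie algebras.
-/

set_option autoImplicit false
set_option maxHeartbeats 400000

open Matrix Module

namespace Pool.Agent.T2h17.GP

open Pool.Agent.T2h17.AH (LieT Pres AlgT dpw tp tp_mul tp_upd_add tp_upd_smul)
open Pool.Agent.T2h17.HW (tc)

namespace Lieb

section ring
variable {R : Type} [CommRing R] {α : Type} [Fintype α] [DecidableEq α] {a : ℕ}

/-- the operator at one place -/
def pl (s : Fin a) (X : Matrix α α R) : Matrix (Fin a → α) (Fin a → α) R :=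
  tp (Function.update (fun _ => (1 : Matrix α α R)) s X)

theorem pl_mul (s : Fin a) (X Y : Matrix α α R) : pl s X * pl s Y = pl s (X * Y) := by
  unfold pl
  rw [tp_mul]
  congr 1
  funext r
  by_cases h : r = s
  · subst h
    simp only [Function.update_self]
  · simp only [Function.update_of_ne h, Matrix.one_mul]

theorem pl_comm {s t : Fin a} (h : s ≠ t) (X Y : Matrix α α R) : pl s X * pl t Y = pl t Y * pl s X := by
  unfold pl
  rw [tp_mul, tp_mul]
  congr 1
  funext r
  by_cases h1 : r = s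
  · subst h1
    simp only [Function.update_self, Function.update_of_ne h, Matrix.mul_one, Matrix.one_mul]
  · simp only [Function.update_of_ne h1, Matrix.mul_one, Matrix.one_mul]

theorem pl_sub (s : Fin a) (X Y : Matrix α α R) : pl s (X - Y) = pl s X - pl s Y := by
  have h : X - Y = X + (-1 : R) • Y := by rw [neg_one_smul, sub_eq_add_neg]
  unfold pl
  rw [h, tp_upd_add, tp_upd_smul, neg_one_smul, sub_eq_add_neg]

theorem dpw_lie (X Y : Matrix α α R) :
    dpw a (X * Y - Y * X) = dpw a X * dpw a Y - dpw a Y * dpw a X := by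
  have h0 : ∀ Z : Matrix α α R, dpw a Z = ∑ s, pl s Z := fun Z => rfl
  rw [h0, h0 X, h0 Y, Finset.sum_mul_sum, Finset.sum_mul_sum, Finset.sum_comm (f := fun t s => pl t Y * pl s X),
    ← Finset.sum_sub_distrib]
  refine Finset.sum_congr rfl fun s _ => ?_
  rw [← Finset.sum_sub_distrib, Finset.sum_eq_single s]
  · rw [pl_mul, pl_mul, pl_sub]
  · intro t _ ht
    rw [pl_comm (Ne.symm ht), sub_self]
  · intro h
    exact absurd (Finset.mem_univ s) h

end ring

end Lieb

theorem t_lieb : S_LIEB := by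
  intro ι _ _ D0 a0 P
  have key : ∀ X ∈ LieT D0 a0 P, ∀ Y ∈ LieT D0 a0 P, ∀ a ≤ a0, ∀ b ≤ a0,
      ∀ T : Matrix (Fin a → ι) (Fin b → ι) ℚ, AlgT D0 P T →
      dpw a (X * Y - Y * X) * tc T - tc T * dpw b (X * Y - Y * X) = 0 := by
    intro X hX Y hY a ha b hb T hT
    obtain ⟨μ, h1⟩ := hX a ha b hb T hT
    obtain ⟨ν, h2⟩ := hY a ha b hb T hT
    have h1' : dpw a X * tc T = μ • tc T + tc T * dpw b X := sub_eq_iff_eq_add.1 h1
    have h2' : dpw a Y * tc T = ν • tc T + tc T * dpw b Y := sub_eq_iff_eq_add.1 h2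
    have h3 : dpw a X * dpw a Y * tc T = ν • (μ • tc T + tc T * dpw b X) +
        (μ • tc T + tc T * dpw b X) * dpw b Y := by
      rw [Matrix.mul_assoc, h2', Matrix.mul_add, Matrix.mul_smul, ← Matrix.mul_assoc, h1']
    have h4 : dpw a Y * dpw a X * tc T = μ • (ν • tc T + tc T * dpw b Y) +
        (ν • tc T + tc T * dpw b Y) * dpw b X := by
      rw [Matrix.mul_assoc, h1', Matrix.mul_add, Matrix.mul_smul, ← Matrix.mul_assoc, h2']
    rw [Lieb.dpw_lie, Lieb.dpw_lie, Matrix.sub_mul, h3, h4, Matrix.mul_sub, ← Matrix.mul_assoc,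
      ← Matrix.mul_assoc, Matrix.add_mul, Matrix.add_mul, Matrix.smul_mul, Matrix.smul_mul, smul_add,
      smul_add, smul_smul, smul_smul, mul_comm ν μ]
    abel
  refine ⟨?_, key⟩
  intro X hX Y hY a ha b hb T hT
  exact ⟨0, by rw [key X hX Y hY a ha b hb T hT, zero_smul]⟩

end Pool.Agent.T2h17.GP
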