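import Pool.Agent.T2h17.GP.Stm
import Pool.Agent.T2h17.GP.Cls

/-!
The minimal codimension of a proper subalgebra of the symplectic Lie algebra (task MINC of project GP).
-/

set_option autoImplicit false

open Matrix Module

namespace Pool.Agent.T2h17.GP

open Pool.Agent.T2h17.AH

theorem t_minc : S_STAB → S_CURVE → S_NZ → S_CLS → S_MINC := by
  intro hSt hC hN hCl n S hS hd h hh hL hne
  by_contra hcon
  push Not at hcon
  have hstab : ∀ V : Submodule ℂ (Fin n → ℂ), V ≠ ⊥ → V ≠ ⊤ → ¬ ∀ X ∈ h, ∀ v ∈ V, v ᵥ* X ∈ V := by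
    intro V h1 h2 h3
    have h4 := hSt n S hS hd V h1 h2
    have h5 : h ≤ stab S V := fun X hX => ⟨hh hX, h3 X hX⟩
    have h6 := Submodule.finrank_mono h5
    omega
  rcases Nat.eq_zero_or_pos n with hn | hn
  · subst hn
    apply hne
    apply le_antisymm hh
    intro X _
    have hX0 : X = 0 := by
      ext i
      exact i.elim0
    rw [hX0]
    exact h.zero_mem
  obtain ⟨p, hp0, hp⟩ := hN n S hS hd h hh (by omega)
  by_cases htop : Submodule.span ℂ {p : Fin n → ℂ | Xm S p p ∈ h} = ⊤
  · obtain ⟨V, h1, h2, h3⟩ := hCl n S hS hd h hh hL htop hne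
    exact hstab V h1 h2 h3
  · refine hstab _ ?_ htop ?_
    · intro hbot
      apply hp0
      rw [← Submodule.mem_bot ℂ, ← hbot]
      exact Submodule.subset_span hp
    · intro X hX v hv
      induction hv using Submodule.span_induction with
      | mem x hx =>
        obtain ⟨γ, -, hγ1, hγ2⟩ := hC n S hS hd h hh hL X hX x hx
        exact ClsAux.deriv_mem _ γ _ hγ1 (Filter.Eventually.of_forall fun t =>
          Submodule.subset_span (hγ2 t))
      | zero =>
        rw [zero_vecMul]
        exact Submodule.zero_mem _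
      | add x y _ _ hx hy =>
        rw [add_vecMul]
        exact Submodule.add_mem _ hx hy
      | smul c x _ hx =>
        rw [smul_vecMul]
        exact Submodule.smul_mem _ _ hx

end Pool.Agent.T2h17.GP
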