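import Pool.Agent.T2h17.GP.Stm
import Pool.Agent.H952R2.Sextic.CommonZero

/-!
Subspaces of small codimension of the symplectic Lie algebra contain elements of rank one.
-/

set_option autoImplicit false
set_option maxHeartbeats 400000

open Matrix Module

namespace Pool.Agent.T2h17.GP

open Pool.Agent.T2h17.AH (sp Xm Xm_mem)

theorem t_nz : S_NZ := by
  intro n S hS hd h hle hdim
  -- the quotient
  set h' : Submodule ℂ (sp S) := h.comap (sp S).subtype with hh'
  have hmap : h'.map (sp S).subtype = h := by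
    rw [hh', Submodule.map_comap_subtype]
    exact inf_eq_right.2 hle
  have hfr : finrank ℂ h' = finrank ℂ h := by
    rw [← hmap]
    exact (Submodule.equivMapOfInjective (sp S).subtype (sp S).injective_subtype h').finrank_eq
  have hq : finrank ℂ (sp S ⧸ h') + finrank ℂ h' = finrank ℂ (sp S) := Submodule.finrank_quotient_add_finrank h'
  have hc : finrank ℂ (sp S ⧸ h') < n := by omega
  set B := Module.finBasis ℂ (sp S ⧸ h') with hB
  -- the functionals
  have hex : ∀ k : Fin (finrank ℂ (sp S ⧸ h')), ∃ g : Matrix (Fin n) (Fin n) ℂ →ₗ[ℂ] ℂ,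
      ∀ Y : sp S, g Y = B.coord k (h'.mkQ Y) := by
    intro k
    obtain ⟨g, hg⟩ := LinearMap.exists_extend ((B.coord k).comp h'.mkQ)
    exact ⟨g, fun Y => LinearMap.congr_fun hg Y⟩
  choose g hg using hex
  have hg2 : ∀ k (Y : Matrix (Fin n) (Fin n) ℂ), g k Y = ∑ a, ∑ b, Y a b * g k (Matrix.single a b 1) := by
    intro k Y
    conv_lhs => rw [Matrix.matrix_eq_sum_single Y]
    rw [map_sum]
    refine Finset.sum_congr rfl fun a _ => ?_
    rw [map_sum]
    refine Finset.sum_congr rfl fun b _ => ?_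
    rw [← smul_eq_mul, ← map_smul, Matrix.smul_single, smul_eq_mul, mul_one]
  obtain ⟨p, hp0, hp⟩ := Pool.Agent.H952R2.Sextic.exists_common_zero (K := ℂ) (ι := Fin n)
    (κ := Fin (finrank ℂ (sp S ⧸ h'))) (by simpa using hc)
    (fun k => ∑ a, ∑ b, (∑ c, MvPolynomial.C (2 * S a c) * MvPolynomial.X c * MvPolynomial.X b) *
      MvPolynomial.C (g k (Matrix.single a b 1)))
    (by
      intro k
      simp only [map_sum, map_mul, MvPolynomial.eval_C, MvPolynomial.eval_X, Pi.zero_apply, mul_zero,
        Finset.sum_const_zero, zero_mul])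
  refine ⟨p, hp0, ?_⟩
  have h1 : h'.mkQ ⟨Xm S p p, Xm_mem hS p p⟩ = 0 := by
    rw [← B.forall_coord_eq_zero_iff]
    intro k
    rw [← hg k ⟨Xm S p p, Xm_mem hS p p⟩, hg2]
    have h2 := hp k
    simp only [map_sum, map_mul, MvPolynomial.eval_C, MvPolynomial.eval_X] at h2
    rw [← h2]
    refine Finset.sum_congr rfl fun a _ => Finset.sum_congr rfl fun b _ => ?_
    congr 1
    show (vecMulVec (S *ᵥ p) p + vecMulVec (S *ᵥ p) p) a b = _
    rw [Matrix.add_apply, vecMulVec_apply, mulVec, dotProduct, Finset.sum_mul, ← Finset.sum_add_distrib]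
    exact Finset.sum_congr rfl fun c _ => by ring
  rw [Submodule.mkQ_apply, Submodule.Quotient.mk_eq_zero] at h1
  exact h1

end Pool.Agent.T2h17.GP
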