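import Pool.Agent.T2h17.GP.Stm
import Pool.Agent.T2h17.GP.SpL

/-! Task GP_07_SIMP: the symplectic Lie algebra is simple and perfect. -/

set_option autoImplicit false

open Matrix Module

namespace Pool.Agent.T2h17.GP

open Pool.Agent.T2h17.AH

variable {n : ℕ} {S : Matrix (Fin n) (Fin n) ℂ}

theorem lie_sp : Lie (sp S) := by
  intro X hX Y hY
  have h1 : X * S + S * Xᵀ = 0 := hX
  have h2 : Y * S + S * Yᵀ = 0 := hY
  have h3 : X * S = -(S * Xᵀ) := eq_neg_of_add_eq_zero_left h1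
  have h4 : Y * S = -(S * Yᵀ) := eq_neg_of_add_eq_zero_left h2
  show (X * Y - Y * X) * S + S * (X * Y - Y * X)ᵀ = 0
  have e1 : X * Y * S = S * (Xᵀ * Yᵀ) := by
    rw [Matrix.mul_assoc, h4, Matrix.mul_neg, ← Matrix.mul_assoc, h3, Matrix.neg_mul, neg_neg,
      Matrix.mul_assoc]
  have e2 : Y * X * S = S * (Yᵀ * Xᵀ) := by
    rw [Matrix.mul_assoc, h3, Matrix.mul_neg, ← Matrix.mul_assoc, h4, Matrix.neg_mul, neg_neg,
      Matrix.mul_assoc]
  rw [Matrix.sub_mul, e1, e2, transpose_sub, transpose_mul, transpose_mul, Matrix.mul_sub]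
  abel

/-- the double bracket with `Xm v v` -/
theorem br2 (hS : Sᵀ = -S) {X : Matrix (Fin n) (Fin n) ℂ} (hX : X ∈ sp S) (v : Fin n → ℂ) :
    (X * Xm S v v - Xm S v v * X) * Xm S v v - Xm S v v * (X * Xm S v v - Xm S v v * X) =
      (4 * om S v (v ᵥ* X)) • Xm S v v := by
  have h1 := br_Xm hX v v
  have h2 : X * Xm S v v - Xm S v v * X = (-2 : ℂ) • Xm S (v ᵥ* X) v := by
    rw [h1, Xm_symm v (v ᵥ* X)]
    module
  have h3 : (-2 : ℂ) • Xm S (v ᵥ* X) v ∈ sp S := (sp S).smul_mem _ (Xm_mem hS _ _)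
  rw [h2, br_Xm h3, vecMul_smul, vm_Xm, om_zero hS, zero_smul, add_zero, Xm_smul_left,
    Xm_smul_left, Xm_smul_right, Xm_smul_right]
  module

theorem t_simp : S_SIMP := by
  intro n S hS hd I hI hid
  by_cases h0 : I = ⊥
  · exact Or.inl h0
  right
  obtain ⟨X, hXI, hX0⟩ := Submodule.exists_mem_ne_zero_of_ne_bot h0
  have hX := hI hXI
  have hid' : ∀ X ∈ I, ∀ Y ∈ sp S, X * Y - Y * X ∈ I := by
    intro A hA B hB
    have := I.neg_mem (hid B hB A hA)
    rwa [neg_sub] at this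
  -- a vector with `om v (v X) ≠ 0`
  obtain ⟨v, hv⟩ : ∃ v : Fin n → ℂ, om S v (v ᵥ* X) ≠ 0 := by
    by_contra hcon
    push Not at hcon
    apply hX0
    apply ext_vm
    intro x
    rw [vecMul_zero]
    apply om_nd (S := S) hd
    intro y
    have h1 := hcon (x + y)
    rw [add_vecMul, om_add_left, om_add_right, om_add_right, hcon x, hcon y] at h1
    have h2 := om_sp hX x y
    have h3 := om_self hS y (x ᵥ* X)
    rw [h2] at h3 ⊢
    have h4 : (2 : ℂ) * om S x (y ᵥ* X) = 0 := by linear_combination h1 - h3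
    have h5 := (mul_eq_zero.1 h4).resolve_left two_ne_zero
    rw [h5, neg_zero]
  have hvI : Xm S v v ∈ I := by
    have h1 := hid' _ (hid' X hXI _ (Xm_mem hS v v)) _ (Xm_mem hS v v)
    rw [br2 hS hX v] at h1
    have h2 : (4 * om S v (v ᵥ* X)) ≠ 0 := mul_ne_zero (by norm_num) hv
    have h3 := I.smul_mem (4 * om S v (v ᵥ* X))⁻¹ h1
    rwa [smul_smul, inv_mul_cancel₀ h2, one_smul] at h3
  have hv0 : v ≠ 0 := by
    rintro rfl
    exact hv (om_zero_left _)
  -- vectors not orthogonal to `v`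
  have hw : ∀ w, om S v w ≠ 0 → Xm S w w ∈ I := by
    intro w hvw
    have h1 := hid _ (Xm_mem hS w w) _ (hid _ (Xm_mem hS w w) _ hvI)
    have h2 : Xm S w w * Xm S v v - Xm S v v * Xm S w w = (-4 * om S v w) • Xm S w v := by
      rw [br_Xm (Xm_mem hS w w), vm_Xm, ← two_smul ℂ (om S v w • w), Xm_smul_left, Xm_smul_left,
        Xm_smul_right, Xm_smul_right, Xm_symm v w]
      module
    have h3 : Xm S w w * Xm S w v - Xm S w v * Xm S w w = (-2 * om S v w) • Xm S w w := by
      rw [br_Xm (Xm_mem hS w w), vm_Xm, vm_Xm, om_zero hS, zero_smul, add_zero, Xm_zero_left,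
        zero_add, ← two_smul ℂ (om S v w • w), Xm_smul_right, Xm_smul_right]
      module
    rw [h2, Matrix.mul_smul, Matrix.smul_mul, ← smul_sub, h3, smul_smul] at h1
    have h4 : (-4 * om S v w * (-2 * om S v w)) ≠ 0 :=
      mul_ne_zero (mul_ne_zero (by norm_num) hvw) (mul_ne_zero (by norm_num) hvw)
    have h5 := I.smul_mem (-4 * om S v w * (-2 * om S v w))⁻¹ h1
    rwa [smul_smul, inv_mul_cancel₀ h4, one_smul] at h5
  refine le_antisymm hI (sp_le hS hd fun w => ?_)
  by_cases hvw : om S v w = 0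
  · obtain ⟨u, hu⟩ := ex_one (S := S) hd hv0
    have h1 := hw (w + u) (by
      rw [om_add_right, hvw, hu, zero_add]
      exact one_ne_zero)
    have h2 := hw (w + (-1 : ℂ) • u) (by
      rw [om_add_right, om_smul_right, hvw, hu, zero_add]
      norm_num)
    have h3 := hw u (by
      rw [hu]
      exact one_ne_zero)
    have h4 : Xm S w w = (2 : ℂ)⁻¹ • (Xm S (w + u) (w + u) +
        Xm S (w + (-1 : ℂ) • u) (w + (-1 : ℂ) • u)) - Xm S u u := by
      rw [Xm_add_right, Xm_add_left, Xm_add_left, Xm_add_right, Xm_add_left, Xm_add_left,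
        Xm_smul_left, Xm_smul_right, Xm_smul_left, Xm_smul_right]
      module
    rw [h4]
    exact I.sub_mem (I.smul_mem _ (I.add_mem h1 h2)) h3
  · exact hw w hvw

/-- `[Xm p q, Xm p p] = -2 Xm p p` if `om p q = 1` -/
theorem br_pp (hS : Sᵀ = -S) {p q : Fin n → ℂ} (h : om S p q = 1) :
    Xm S p q * Xm S p p - Xm S p p * Xm S p q = (-2 : ℂ) • Xm S p p := by
  rw [br_Xm (Xm_mem hS p q), vm_Xm, om_zero hS, zero_smul, zero_add, h, one_smul]
  module

theorem t_perf : S_PERF := by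
  intro n S hS hd
  refine ⟨lie_sp, ?_, ?_, ?_⟩
  · apply le_antisymm
    · apply sp_le hS hd
      intro p
      by_cases hp : p = 0
      · rw [hp, Xm_zero_left]
        exact Submodule.zero_mem _
      obtain ⟨q, hq⟩ := ex_one (S := S) hd hp
      have h1 := br_pp hS hq
      have h2 : Xm S p p = (-2 : ℂ)⁻¹ • (Xm S p q * Xm S p p - Xm S p p * Xm S p q) := by
        rw [h1, smul_smul, inv_mul_cancel₀ (by norm_num), one_smul]
      rw [h2]
      exact Submodule.smul_mem _ _ (Submodule.subset_span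
        ⟨_, Xm_mem hS p q, _, Xm_mem hS p p, rfl⟩)
    · rw [Submodule.span_le]
      rintro _ ⟨X, hX, Y, hY, rfl⟩
      exact lie_sp X hX Y hY
  · intro hn
    have hp : (Pi.single ⟨0, hn⟩ 1 : Fin n → ℂ) ≠ 0 := by
      intro h
      have := congrFun h ⟨0, hn⟩
      rw [Pi.single_eq_same, Pi.zero_apply] at this
      exact one_ne_zero this
    obtain ⟨p, hpe⟩ : ∃ p : Fin n → ℂ, p = Pi.single ⟨0, hn⟩ 1 := ⟨_, rfl⟩
    rw [← hpe] at hp
    obtain ⟨q, hq⟩ := ex_one (S := S) hd hp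
    refine ⟨_, Xm_mem hS p q, _, Xm_mem hS p p, fun h => ?_⟩
    have h1 := br_pp hS hq
    rw [h, sub_self] at h1
    have h2 : Xm S p p = 0 := (smul_eq_zero.1 h1.symm).resolve_left (by norm_num)
    have h3 : q ᵥ* Xm S p p = 0 := by rw [h2, vecMul_zero]
    rw [vm_Xm, om_self hS q p, hq, ← two_smul ℂ] at h3
    have h4 := (smul_eq_zero.1 h3).resolve_left two_ne_zero
    exact hp ((smul_eq_zero.1 h4).resolve_left (by norm_num))
  · rcases Nat.lt_or_ge n 2 with hn | hn
    · have : n - 1 = 0 := by omega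
      rw [this]
      exact Nat.zero_le _
    · have hn0 : 0 < n := by omega
      have hn1 : 1 < n := by omega
      obtain ⟨e, he⟩ : ∃ e : Fin n → ℂ, e = Pi.single ⟨0, hn0⟩ 1 := ⟨_, rfl⟩
      obtain ⟨f, hf⟩ : ∃ f : Fin n → ℂ, f = Pi.single ⟨1, hn1⟩ 1 := ⟨_, rfl⟩
      have he0 : e ≠ 0 := by
        intro h
        have := congrFun h ⟨0, hn0⟩
        rw [he, Pi.single_eq_same, Pi.zero_apply] at this
        exact one_ne_zero this
      have hef : f ∉ Submodule.span ℂ {e} := by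
        intro h
        obtain ⟨t, ht⟩ := Submodule.mem_span_singleton.1 h
        have := congrFun ht ⟨1, hn1⟩
        rw [he, hf, Pi.smul_apply, Pi.single_eq_same, Pi.single_eq_of_ne (by simp), smul_zero]
          at this
        exact zero_ne_one this
      have h1 := psi_rank hS hd he0 hef
      have h2 : finrank ℂ ((sp S).map (psi e f)) ≤ finrank ℂ (sp S) := Submodule.finrank_map_le _ _
      omega

end Pool.Agent.T2h17.GP
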