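import Pool.Agent.T2h17.GP.Stm
import Pool.Agent.T2h17.GP.SpL

/-! Task GP_02_STAB: the stabilizer of a subspace has codimension at least `n - 1`. -/

set_option autoImplicit false

open Matrix Module

namespace Pool.Agent.T2h17.GP

open Pool.Agent.T2h17.AH

variable {n : ℕ} {S : Matrix (Fin n) (Fin n) ℂ}

/-- `y ↦ om(·, y)` -/
def omD (S : Matrix (Fin n) (Fin n) ℂ) : (Fin n → ℂ) →ₗ[ℂ] Dual ℂ (Fin n → ℂ) where
  toFun y :=
    { toFun := fun x => om S x y
      map_add' := fun x z => om_add_left x z y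
      map_smul' := fun c x => om_smul_left c x y }
  map_add' y z := by
    ext x
    exact om_add_right _ y z
  map_smul' c y := by
    ext x
    exact om_smul_right c _ y

theorem omD_apply (x y : Fin n → ℂ) : omD S y x = om S x y := rfl

theorem omD_inj (hS : Sᵀ = -S) (hd : S.det ≠ 0) : Function.Injective (omD S) := by
  rw [← LinearMap.ker_eq_bot, LinearMap.ker_eq_bot']
  intro y hy
  apply om_nd (S := S) hd
  intro x
  rw [om_self hS, ← omD_apply, hy]
  simp

/-- the orthogonal complement -/
def orth (S : Matrix (Fin n) (Fin n) ℂ) (V : Submodule ℂ (Fin n → ℂ)) :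
    Submodule ℂ (Fin n → ℂ) := V.dualAnnihilator.comap (omD S)

theorem mem_orth (V : Submodule ℂ (Fin n → ℂ)) (y : Fin n → ℂ) :
    y ∈ orth S V ↔ ∀ v ∈ V, om S v y = 0 := by
  unfold orth
  rw [Submodule.mem_comap, Submodule.mem_dualAnnihilator]
  rfl

theorem finrank_orth (hS : Sᵀ = -S) (hd : S.det ≠ 0) (V : Submodule ℂ (Fin n → ℂ)) :
    finrank ℂ V + finrank ℂ (orth S V) = n := by
  have h1 := Subspace.finrank_add_finrank_dualAnnihilator_eq V
  rw [finrank_fin_fun] at h1
  have h2 : Function.Bijective (omD S) := by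
    refine ⟨omD_inj hS hd, ?_⟩
    have h3 : finrank ℂ (Fin n → ℂ) = finrank ℂ (Dual ℂ (Fin n → ℂ)) :=
      (Subspace.dual_finrank_eq).symm
    exact (LinearMap.injective_iff_surjective_of_finrank_eq_finrank h3).1 (omD_inj hS hd)
  have h4 : finrank ℂ (orth S V) = finrank ℂ V.dualAnnihilator := by
    have h7 : (V.dualAnnihilator.comap (omD S)).map (omD S) = V.dualAnnihilator :=
      Submodule.map_comap_eq_of_surjective h2.2 _
    have h6 := LinearEquiv.finrank_map_eq (LinearEquiv.ofBijective (omD S) h2)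
      (V.dualAnnihilator.comap (omD S))
    unfold orth
    rw [← h6]
    have h8 : (V.dualAnnihilator.comap (omD S)).map
        ((LinearEquiv.ofBijective (omD S) h2 : (Fin n → ℂ) ≃ₗ[ℂ] Dual ℂ (Fin n → ℂ)) :
          (Fin n → ℂ) →ₗ[ℂ] Dual ℂ (Fin n → ℂ)) = V.dualAnnihilator := by
      conv_rhs => rw [← h7]
      rfl
    rw [h8]
  omega

theorem stab_le (V : Submodule ℂ (Fin n → ℂ)) : stab S V ≤ sp S := fun _ hX => hX.1

/-- the main case -/
theorem stab_main (hS : Sᵀ = -S) (hd : S.det ≠ 0) (V : Submodule ℂ (Fin n → ℂ))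
    {e f : Fin n → ℂ} (he : e ∈ V) (he0 : e ≠ 0) (hf : f ∈ orth S V)
    (hef : f ∉ Submodule.span ℂ {e}) : finrank ℂ (stab S V) + (n - 1) ≤ finrank ℂ (sp S) := by
  have h1 := psi_rank hS hd he0 hef
  have h2 := codim_map (psi e f) (stab_le (S := S) V)
  have h3 : (stab S V).map (psi e f) ≤ V.prod (orth S V) := by
    rintro _ ⟨X, hX, rfl⟩
    refine ⟨hX.2 e he, ?_⟩
    show f ᵥ* X ∈ orth S V
    rw [mem_orth]
    intro v hv
    have h4 := om_sp hX.1 v f
    rw [mem_orth] at hf
    rw [hf _ (hX.2 v hv)] at h4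
    exact neg_eq_zero.1 h4.symm
  have h4 := Submodule.finrank_mono h3
  have h5 : finrank ℂ (V.prod (orth S V)) ≤ finrank ℂ V + finrank ℂ (orth S V) := by
    rw [← finrank_prod]
    let g : V.prod (orth S V) →ₗ[ℂ] V × orth S V :=
      { toFun := fun x => (⟨x.1.1, x.2.1⟩, ⟨x.1.2, x.2.2⟩)
        map_add' := fun x y => rfl
        map_smul' := fun c x => rfl }
    have hg : Function.Injective g := by
      intro x y hxy
      have h7 := congrArg (fun z => (z.1 : Fin n → ℂ)) hxy
      have h8 := congrArg (fun z => (z.2 : Fin n → ℂ)) hxy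
      exact Subtype.ext (Prod.ext h7 h8)
    exact LinearMap.finrank_le_finrank_of_injective hg
  have h6 := finrank_orth hS hd V
  omega

theorem t_stab : S_STAB := by
  intro n S hS hd V hV0 hV1
  by_cases hc : ∃ e ∈ V, e ≠ 0 ∧ ∃ f ∈ orth S V, f ∉ Submodule.span ℂ {e}
  · obtain ⟨e, he, he0, f, hf, hef⟩ := hc
    exact stab_main hS hd V he he0 hf hef
  · push Not at hc
    obtain ⟨e, he, he0⟩ := Submodule.exists_mem_ne_zero_of_ne_bot hV0
    have h1 : orth S V ≤ Submodule.span ℂ {e} := fun f hf => hc e he he0 f hf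
    have h2 : finrank ℂ (Submodule.span ℂ {e}) = 1 := finrank_span_singleton he0
    have h3 := Submodule.finrank_mono h1
    have h4 := finrank_orth hS hd V
    have h5 : finrank ℂ V < n := by
      have := Submodule.finrank_lt hV1
      rwa [finrank_fin_fun] at this
    have h6 : orth S V = Submodule.span ℂ {e} := by
      apply Submodule.eq_of_le_of_finrank_le h1
      omega
    have h7 : V ≤ Submodule.span ℂ {e} := by
      intro v hv
      by_cases hv0 : v = 0
      · rw [hv0]
        exact Submodule.zero_mem _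
      have h8 := hc v hv hv0 e (by rw [h6]; exact Submodule.mem_span_singleton_self e)
      obtain ⟨t, ht⟩ := Submodule.mem_span_singleton.1 h8
      rw [Submodule.mem_span_singleton]
      have ht0 : t ≠ 0 := by
        rintro rfl
        apply he0
        rw [← ht, zero_smul]
      exact ⟨t⁻¹, by rw [← ht, smul_smul, inv_mul_cancel₀ ht0, one_smul]⟩
    have h8 := Submodule.finrank_mono h7
    have h9 : stab S V < sp S := by
      refine lt_of_le_of_ne (stab_le V) fun h => ?_
      obtain ⟨p, hp⟩ := ex_one (S := S) hd he0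
      have h10 : Xm S p p ∈ stab S V := by
        rw [h]
        exact Xm_mem hS p p
      have h11 := h10.2 e he
      rw [vm_Xm, hp, one_smul] at h11
      have h12 : p ∈ V := by
        have h13 : (2 : ℂ)⁻¹ • (p + p) = p := by
          rw [← two_smul ℂ p, smul_smul, inv_mul_cancel₀ two_ne_zero, one_smul]
        rw [← h13]
        exact V.smul_mem _ h11
      obtain ⟨t, ht⟩ := Submodule.mem_span_singleton.1 (h7 h12)
      rw [← ht, om_smul_right, om_zero hS, mul_zero] at hp
      exact zero_ne_one hp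
    have h10 := Submodule.finrank_lt_finrank_of_lt h9
    omega

end Pool.Agent.T2h17.GP
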