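import Pool.Agent.T2h17.GP.Use
import Pool.Agent.T2h17.GP.Gour
import Pool.Agent.T2h17.GP.Minc
import Pool.Agent.T2h17.GP.Cls
import Pool.Agent.T2h17.GP.Curve
import Pool.Agent.T2h17.GP.Nz
import Pool.Agent.T2h17.GP.Simp
import Pool.Agent.T2h17.GP.Stab
import Pool.Agent.T2h17.GP.Lieb
import Pool.Agent.T2h17.GP.Fftc
import Pool.Agent.T2h17.GP.Fftq
import Pool.Agent.T2h17.GP.Cmt

/-!
All algebraic parts together.
-/

set_option autoImplicit false

namespace Pool.Agent.T2h17.GP

theorem parts : Parts where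
  gour := t_gour
  minc := t_minc t_stab t_curve t_nz (t_cls t_curve)
  simp := t_simp
  perf := t_perf
  lieb := t_lieb
  fftq := t_fftq t_fftc

theorem cmt : S_CMT := t_cmt

end Pool.Agent.T2h17.GP
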