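import Pool.Agent.T2h17.GP.Scale

/-!
Tensors of one fibre.
-/

set_option autoImplicit false

open Matrix Module

namespace Pool.Agent.T2h17.GP

variable {n : ℕ}

/-- the equivalence between indices -/
def arr (n a : ℕ) : (Fin a → Fin n) ≃ (Fin a → Fin n × Fin 1) :=
  Equiv.arrowCongr (Equiv.refl _) (Equiv.prodUnique (Fin n) (Fin 1)).symm

theorem arr_apply {a : ℕ} (i : Fin a → Fin n) (s : Fin a) : arr n a i s = (i s, 0) := rfl

theorem arr_symm_apply {a : ℕ} (i : Fin a → Fin n × Fin 1) (s : Fin a) : (arr n a).symm i s = (i s).1 := rfl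

/-- from one summand to one fibre -/
theorem one_fibre {a0 D ν : ℕ} {P : Matrix (Fin n) (Fin n) ℚ} {B : Matrix (Fin n) (Fin n) ℂ} (hν : ν < n - 1)
    (H : ∃ R : Finset (Fin 1), R.card * (n - 1) ≤ ν ∧ ∀ a ≤ a0, ∀ t' : (Fin a → Fin n × Fin 1) → ℚ,
      (∀ i, (∃ s, (i s).2 ∈ R) → t' i = 0) → AT D (blockDiagonal fun _ : Fin 1 => B) t' →
      t' ∈ Submodule.span ℚ {G | ∃ (m : ℕ) (e : Fin m × Fin 2 ≃ Fin a) (c : Fin m → Fin 1), G = prT P e c}) :
    ∀ a ≤ a0, ∀ t : (Fin a → Fin n) → ℚ, AT D B t →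
      t ∈ Submodule.span ℚ {G | ∃ (m : ℕ) (e : Fin m × Fin 2 ≃ Fin a),
        G = fun i => ∏ s, P (i (e (s, 0))) (i (e (s, 1)))} := by
  obtain ⟨R, hR, h1⟩ := H
  have hR0 : R = ∅ := by
    rw [← Finset.card_eq_zero]
    by_contra h0
    have h3 : 1 * (n - 1) ≤ R.card * (n - 1) := Nat.mul_le_mul_right _ (Nat.one_le_iff_ne_zero.2 h0)
    omega
  intro a ha t ht
  have h2 := h1 a ha (fun i => t ((arr n a).symm i)) (fun i hi => by
    obtain ⟨s, hs⟩ := hi
    rw [hR0] at hs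
    exact absurd hs (Finset.notMem_empty _)) (by
      obtain ⟨K, κ, hK, hD, hκ, hw⟩ := ht
      refine ⟨K, κ, hK, hD, hκ, fun i => ?_⟩
      obtain ⟨w, hwK, hw'⟩ := hw ((arr n a).symm i)
      refine ⟨w, hwK, ?_⟩
      rw [← hw']
      refine (Fintype.sum_equiv (arr n a) _ _ fun i' => ?_).symm
      have h5 : t ((arr n a).symm (arr n a i')) = t i' := by rw [Equiv.symm_apply_apply]
      have h6 : ∀ s, B ((arr n a).symm i s) (i' s) =
          blockDiagonal (fun _ : Fin 1 => B) (i s) (arr n a i' s) := fun s => by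
        rw [arr_apply, arr_symm_apply, blockDiagonal_apply, if_pos (Subsingleton.elim _ _)]
      show (∏ s, B ((arr n a).symm i s) (i' s)) * ((t i' : ℚ) : ℂ) =
        (∏ s, blockDiagonal (fun _ : Fin 1 => B) (i s) (arr n a i' s)) *
          ((t ((arr n a).symm (arr n a i')) : ℚ) : ℂ)
      rw [h5, Finset.prod_congr rfl fun s _ => h6 s])
  have h3 := Submodule.mem_map_of_mem (f := LinearMap.funLeft ℚ ℚ (arr n a)) h2
  rw [Submodule.map_span] at h3
  have h4 : LinearMap.funLeft ℚ ℚ (arr n a) (fun i => t ((arr n a).symm i)) = t := by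
    funext i
    rw [LinearMap.funLeft_apply, Equiv.symm_apply_apply]
  rw [h4] at h3
  refine Submodule.span_mono ?_ h3
  rintro _ ⟨G, ⟨m, e, c, rfl⟩, rfl⟩
  refine ⟨m, e, ?_⟩
  funext i
  rw [LinearMap.funLeft_apply, prT]
  refine Finset.prod_congr rfl fun s _ => ?_
  rw [if_pos ⟨Subsingleton.elim _ _, Subsingleton.elim _ _⟩]
  rfl

/-- more fields -/
theorem AT.mono {ι : Type} [Fintype ι] {D D' : ℕ} (hD : D ≤ D') {B : Matrix ι ι ℂ} {a : ℕ}
    {t : (Fin a → ι) → ℚ} (h : AT D B t) : AT D' B t := by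
  obtain ⟨K, κ, hK, hD', hκ, hw⟩ := h
  exact ⟨K, κ, hK, hD'.trans hD, hκ, hw⟩

end Pool.Agent.T2h17.GP
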