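import Pool.Agent.T2h17.GP.Stm2

/-! Project GP, task HIT. -/

set_option autoImplicit false

namespace Pool.Agent.T2h17.GP

namespace Hit

/-- `S` meets all bad tuples in `X` -/
def Hits {k : ℕ} (Bad : (Fin k → ℕ) → Prop) (X S : Finset ℕ) : Prop :=
  ∀ u : Fin k → ℕ, Function.Injective u → (∀ j, u j ∈ X) → Bad u → ∃ j, u j ∈ S

theorem aux (k : ℕ) : ∀ r : ℕ, ∃ K : ℕ, ∀ (X : Finset ℕ) (Bad : (Fin k → ℕ) → Prop),
    (¬ ∃ S ⊆ X, S.card ≤ r ∧ Hits Bad X S) →
    ∃ Ω ⊆ X, Ω.card ≤ K ∧ ¬ ∃ S ⊆ Ω, S.card ≤ r ∧ Hits Bad Ω S := by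
  classical
  intro r
  induction r with
  | zero =>
    refine ⟨k, fun X Bad h => ?_⟩
    have h1 : ¬ Hits Bad X ∅ := fun h2 => h ⟨∅, Finset.empty_subset _, by simp, h2⟩
    unfold Hits at h1
    push Not at h1
    obtain ⟨u, hu, huX, hB, -⟩ := h1
    refine ⟨Finset.univ.image u, ?_, ?_, ?_⟩
    · intro x hx
      obtain ⟨j, -, rfl⟩ := Finset.mem_image.1 hx
      exact huX j
    · exact Finset.card_image_le.trans (by simp)
    · rintro ⟨S, -, hS, hH⟩
      have hS0 : S = ∅ := Finset.card_eq_zero.1 (by omega)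
      obtain ⟨j, hj⟩ := hH u hu (fun j => Finset.mem_image_of_mem u (Finset.mem_univ j)) hB
      rw [hS0] at hj
      exact absurd hj (Finset.notMem_empty _)
  | succ r ih =>
    obtain ⟨K, hK⟩ := ih
    refine ⟨k + k * K, fun X Bad h => ?_⟩
    have h1 : ¬ Hits Bad X ∅ := fun h2 => h ⟨∅, Finset.empty_subset _, by simp, h2⟩
    unfold Hits at h1
    push Not at h1
    obtain ⟨u, hu, huX, hB, -⟩ := h1
    have h2 : ∀ j : Fin k, ∃ Ω ⊆ X.erase (u j), Ω.card ≤ K ∧
        ¬ ∃ S ⊆ Ω, S.card ≤ r ∧ Hits Bad Ω S := by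
      intro j
      apply hK
      rintro ⟨S, hSX, hS, hH⟩
      apply h
      refine ⟨insert (u j) S, ?_, ?_, ?_⟩
      · intro x hx
        rcases Finset.mem_insert.1 hx with rfl | hx
        · exact huX j
        · exact Finset.mem_of_mem_erase (hSX hx)
      · exact (Finset.card_insert_le _ _).trans (by omega)
      · intro u' hu' huX' hB'
        by_cases hc : ∃ i, u' i = u j
        · obtain ⟨i, hi⟩ := hc
          exact ⟨i, by rw [hi]; exact Finset.mem_insert_self _ _⟩
        · push Not at hc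
          obtain ⟨i, hi⟩ := hH u' hu' (fun i => Finset.mem_erase.2 ⟨hc i, huX' i⟩) hB'
          exact ⟨i, Finset.mem_insert_of_mem hi⟩
    choose Ω hΩX hΩc hΩ using h2
    refine ⟨Finset.univ.image u ∪ Finset.univ.biUnion Ω, ?_, ?_, ?_⟩
    · intro x hx
      rcases Finset.mem_union.1 hx with hx | hx
      · obtain ⟨j, -, rfl⟩ := Finset.mem_image.1 hx
        exact huX j
      · obtain ⟨j, -, hj⟩ := Finset.mem_biUnion.1 hx
        exact Finset.mem_of_mem_erase (hΩX j hj)
    · refine (Finset.card_union_le _ _).trans ?_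
      apply Nat.add_le_add
      · exact Finset.card_image_le.trans (by simp)
      · refine Finset.card_biUnion_le.trans ?_
        refine (Finset.sum_le_sum fun j _ => hΩc j).trans ?_
        simp
    · rintro ⟨S, hSO, hS, hH⟩
      obtain ⟨j, hj⟩ := hH u hu (fun j => Finset.mem_union_left _
        (Finset.mem_image_of_mem u (Finset.mem_univ j))) hB
      apply hΩ j
      refine ⟨(S.erase (u j)) ∩ Ω j, Finset.inter_subset_right, ?_, ?_⟩
      · refine (Finset.card_le_card Finset.inter_subset_left).trans ?_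
        rw [Finset.card_erase_of_mem hj]
        omega
      · intro u' hu' huX' hB'
        obtain ⟨i, hi⟩ := hH u' hu' (fun i => Finset.mem_union_right _
          (Finset.mem_biUnion.2 ⟨j, Finset.mem_univ _, huX' i⟩)) hB'
        refine ⟨i, Finset.mem_inter.2 ⟨Finset.mem_erase.2 ⟨?_, hi⟩, huX' i⟩⟩
        exact Finset.ne_of_mem_erase (hΩX j (huX' i))

end Hit

theorem t_hit : S_HIT := by
  intro k r
  obtain ⟨K, hK⟩ := Hit.aux k r
  refine ⟨K, fun X Bad h => ?_⟩
  by_contra hc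
  obtain ⟨Ω, h1, h2, h3⟩ := hK X Bad hc
  exact h3 (h Ω h1 h2)

end Pool.Agent.T2h17.GP
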