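import Pool.Agent.T2h17.GP.Stm2

/-!
Restriction of an operator which preserves the algebraic tensors of a direct sum to a partial sum.
-/

set_option autoImplicit false
set_option maxHeartbeats 800000

open Matrix Module

namespace Pool.Agent.T2h17.GP

open Pool.Agent.T2h17.AH
open Pool.Agent.T2h17.HW (tc)

section gen
variable {ι κ : Type} [Fintype ι] [DecidableEq ι] [Fintype κ] [DecidableEq κ]

/-- the inclusion of coordinates -/
def incf (R : Type) [Zero R] [One R] (g : ι → κ) : Matrix κ ι R :=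
  Matrix.of fun x y => if x = g y then 1 else 0

omit [Fintype ι] [DecidableEq ι] in
theorem mul_incf {R : Type} [CommRing R] {μ : Type} (g : ι → κ) (A : Matrix μ κ R) (x : μ) (y : ι) :
    (A * incf R g) x y = A x (g y) := by
  rw [Matrix.mul_apply, Finset.sum_eq_single (g y)]
  · simp only [incf, Matrix.of_apply, if_true, mul_one]
  · intro b _ hb
    simp only [incf, Matrix.of_apply]
    rw [if_neg hb, mul_zero]
  · intro h
    exact absurd (Finset.mem_univ _) h

omit [Fintype ι] in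
theorem incf_incf {R : Type} [CommRing R] {g : ι → κ} (hg : Function.Injective g) :
    (incf R g)ᵀ * incf R g = 1 := by
  ext a c
  rw [mul_incf]
  simp only [incf, Matrix.of_apply, transpose_apply, Matrix.one_apply]
  by_cases h : a = c
  · subst h
    simp
  · rw [if_neg (fun h' => h (hg h').symm), if_neg h]

omit [Fintype ι] [DecidableEq ι] [Fintype κ] in
theorem tc_incf (g : ι → κ) : tc (incf ℚ g) = incf ℂ g := by
  ext a c
  simp only [tc, Matrix.map_apply, incf, Matrix.of_apply]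
  split_ifs <;> simp

omit [Fintype ι] [DecidableEq ι] [Fintype κ] in
theorem incf_entry (g : ι → κ) (a : ℕ) (i : Fin a → κ) (m : Fin a → ι) :
    pw a (incf ℂ g) i m = if i = (fun s => g (m s)) then 1 else 0 := by
  show ∏ s, (if i s = g (m s) then (1 : ℂ) else 0) = _
  by_cases h : i = fun s => g (m s)
  · rw [if_pos h]
    refine Finset.prod_eq_one fun s _ => ?_
    rw [if_pos (congrFun h s)]
  · rw [if_neg h]
    obtain ⟨s, hs⟩ : ∃ s, i s ≠ g (m s) := by
      by_contra hcon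
      push Not at hcon
      exact h (funext hcon)
    exact Finset.prod_eq_zero (Finset.mem_univ s) (if_neg hs)

/-- **restriction to coordinates** -/
theorem lie_restr {D0 a0 : ℕ} {g : ι → κ} (hg : Function.Injective g) {P X : Matrix κ κ ℂ}
    {P' X' : Matrix ι ι ℂ} (hP : P * incf ℂ g = incf ℂ g * P')
    (hPi : (incf ℂ g)ᵀ * P⁻¹ = P'⁻¹ * (incf ℂ g)ᵀ)
    (hX1 : X * incf ℂ g = incf ℂ g * X') (hX2 : (incf ℂ g)ᵀ * X = X' * (incf ℂ g)ᵀ)
    (hX : X ∈ LieT D0 a0 P) : X' ∈ LieT D0 a0 P' := by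
  classical
  intro a ha b hb T hT
  set T' : Matrix (Fin a → κ) (Fin b → κ) ℚ :=
    pw a (incf ℚ g) * T * pw b (incf ℚ g)ᵀ with hT'
  have htc : tc T' = pw a (incf ℂ g) * tc T * pw b (incf ℂ g)ᵀ := by
    rw [hT', Pool.Agent.T2h17.HW.tc_mul, Pool.Agent.T2h17.HW.tc_mul, tc_pw, tc_pw, tc_incf]
    have h1 : tc (incf ℚ g)ᵀ = (incf ℂ g)ᵀ := by rw [← tc_incf]; rfl
    rw [h1]
  obtain ⟨K, κ', hK1, hK2, hκ, hw⟩ := hT
  choose w hw hw' using hw
  obtain ⟨μ, hμ⟩ := hX a ha b hb T' ⟨K, κ', hK1, hK2, hκ, fun i m => by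
    have h1 : pw a P * tc T' * pw b P⁻¹ =
        pw a (incf ℂ g) * (pw a P' * tc T * pw b P'⁻¹) * pw b (incf ℂ g)ᵀ := by
      rw [htc]
      calc pw a P * (pw a (incf ℂ g) * tc T * pw b (incf ℂ g)ᵀ) * pw b P⁻¹ =
          (pw a P * pw a (incf ℂ g)) * tc T * (pw b (incf ℂ g)ᵀ * pw b P⁻¹) := by
            simp only [Matrix.mul_assoc]
        _ = (pw a (incf ℂ g) * pw a P') * tc T * (pw b P'⁻¹ * pw b (incf ℂ g)ᵀ) := by
          rw [← pw_mul, ← pw_mul, ← pw_mul, ← pw_mul, hP, hPi]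
        _ = _ := by simp only [Matrix.mul_assoc]
    rw [h1]
    set M := pw a P' * tc T * pw b P'⁻¹ with hM
    have h2 : (pw a (incf ℂ g) * M * pw b (incf ℂ g)ᵀ) i m =
        ∑ q, ∑ p, pw a (incf ℂ g) i p * M p q * pw b (incf ℂ g) m q := by
      rw [Matrix.mul_apply]
      refine Finset.sum_congr rfl fun q _ => ?_
      rw [Matrix.mul_apply, Finset.sum_mul]
      rfl
    rw [h2]
    refine ⟨∑ q, ∑ p, pw a (incf ℂ g) i p * w p q * pw b (incf ℂ g) m q, ?_, ?_⟩
    · refine sum_mem fun q _ => sum_mem fun p _ => ?_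
      rw [incf_entry, incf_entry]
      split_ifs
      · rw [one_mul, mul_one]
        exact hw p q
      · rw [mul_zero]
        exact zero_mem _
      · rw [zero_mul, zero_mul]
        exact zero_mem _
      · rw [zero_mul, zero_mul]
        exact zero_mem _
    · rw [Finset.mul_sum]
      refine Finset.sum_congr rfl fun q _ => ?_
      rw [Finset.mul_sum]
      refine Finset.sum_congr rfl fun p _ => ?_
      rw [hw']
      ring⟩
  refine ⟨μ, ?_⟩
  have h3 := dpw_comm (a := a) hX1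
  have h4 : pw b (incf ℂ g)ᵀ * dpw b X = dpw b X' * pw b (incf ℂ g)ᵀ :=
    (dpw_comm hX2.symm).symm
  have h5 : dpw a X * tc T' - tc T' * dpw b X =
      pw a (incf ℂ g) * (dpw a X' * tc T - tc T * dpw b X') * pw b (incf ℂ g)ᵀ := by
    rw [htc, Matrix.mul_sub, Matrix.sub_mul]
    congr 1
    · calc dpw a X * (pw a (incf ℂ g) * tc T * pw b (incf ℂ g)ᵀ) =
          (dpw a X * pw a (incf ℂ g)) * tc T * pw b (incf ℂ g)ᵀ := by
            simp only [Matrix.mul_assoc]
        _ = _ := by rw [h3]; simp only [Matrix.mul_assoc]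
    · calc pw a (incf ℂ g) * tc T * pw b (incf ℂ g)ᵀ * dpw b X =
          pw a (incf ℂ g) * tc T * (pw b (incf ℂ g)ᵀ * dpw b X) := by
            simp only [Matrix.mul_assoc]
        _ = _ := by rw [h4]; simp only [Matrix.mul_assoc]
  rw [h5, htc] at hμ
  have hpw : ∀ c : ℕ, pw c (incf ℂ g)ᵀ * pw c (incf ℂ g) = 1 := fun c => by
    rw [← pw_mul, incf_incf hg, pw_one]
  have hl : ∀ A : Matrix (Fin a → ι) (Fin b → ι) ℂ,
      pw a (incf ℂ g)ᵀ * (pw a (incf ℂ g) * A * pw b (incf ℂ g)ᵀ) * pw b (incf ℂ g) = A := by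
    intro A
    calc pw a (incf ℂ g)ᵀ * (pw a (incf ℂ g) * A * pw b (incf ℂ g)ᵀ) * pw b (incf ℂ g) =
        (pw a (incf ℂ g)ᵀ * pw a (incf ℂ g)) * A * (pw b (incf ℂ g)ᵀ * pw b (incf ℂ g)) := by
          simp only [Matrix.mul_assoc]
      _ = A := by rw [hpw, hpw, Matrix.one_mul, Matrix.mul_one]
  have h6 := congrArg (fun M => pw a (incf ℂ g)ᵀ * M * pw b (incf ℂ g)) hμ
  rw [hl, Matrix.mul_smul, Matrix.smul_mul, hl] at h6
  exact h6

end gen

/-- the inclusion of a partial sum -/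
theorem bd_incf {R : Type} [CommRing R] {n k K : ℕ} {f : Fin k → Fin K} (hf : Function.Injective f)
    (P : Fin K → Matrix (Fin n) (Fin n) R) :
    blockDiagonal P * incf R (fun y : Fin n × Fin k => (y.1, f y.2)) =
      incf R (fun y : Fin n × Fin k => (y.1, f y.2)) * blockDiagonal fun j => P (f j) := by
  ext ⟨a, j'⟩ ⟨c, j⟩
  rw [mul_incf, blockDiagonal_apply, Matrix.mul_apply]
  by_cases h : j' = f j
  · subst h
    rw [if_pos rfl, Finset.sum_eq_single (a, j)]
    · simp only [incf, Matrix.of_apply, if_true, one_mul, blockDiagonal_apply]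
    · rintro ⟨b, i⟩ _ hb
      simp only [incf, Matrix.of_apply]
      rw [if_neg, zero_mul]
      intro h'
      have h1 := Prod.ext_iff.1 h'
      exact hb (Prod.ext h1.1.symm (hf h1.2).symm)
    · intro h
      exact absurd (Finset.mem_univ _) h
  · rw [if_neg h]
    symm
    refine Finset.sum_eq_zero ?_
    rintro ⟨b, i⟩ _
    simp only [incf, Matrix.of_apply, blockDiagonal_apply]
    by_cases h1 : i = j
    · subst h1
      rw [if_neg (fun h' => h (Prod.ext_iff.1 h').2), zero_mul]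
    · rw [if_neg h1, mul_zero]

theorem incf_bd {R : Type} [CommRing R] {n k K : ℕ} {f : Fin k → Fin K} (hf : Function.Injective f)
    (P : Fin K → Matrix (Fin n) (Fin n) R) :
    (incf R (fun y : Fin n × Fin k => (y.1, f y.2)))ᵀ * blockDiagonal P =
      (blockDiagonal fun j => P (f j)) * (incf R (fun y : Fin n × Fin k => (y.1, f y.2)))ᵀ := by
  have h1 := bd_incf hf fun j => (P j)ᵀ
  have h2 := congrArg Matrix.transpose h1
  rw [transpose_mul, transpose_mul, blockDiagonal_transpose, blockDiagonal_transpose] at h2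
  simpa using h2

theorem bd_inv {n k : ℕ} {P : Fin k → Matrix (Fin n) (Fin n) ℂ} (hP : ∀ j, (P j).det ≠ 0) :
    (blockDiagonal P)⁻¹ = blockDiagonal fun j => (P j)⁻¹ := by
  refine Matrix.inv_eq_left_inv ?_
  rw [← blockDiagonal_mul]
  have h1 : (fun j => (P j)⁻¹ * P j) = fun _ => (1 : Matrix (Fin n) (Fin n) ℂ) := by
    funext j
    exact Matrix.nonsing_inv_mul _ (isUnit_iff_ne_zero.2 (hP j))
  rw [h1]
  exact blockDiagonal_one

/-- **(LSUB)** -/
theorem t_lsub : S_LSUB := by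
  intro n k K D0 a0 P X hP f hf hX
  refine lie_restr (g := fun y : Fin n × Fin k => (y.1, f y.2)) ?_ (bd_incf hf P) ?_
    (bd_incf hf X) (incf_bd hf X) hX
  · rintro ⟨a, i⟩ ⟨b, j⟩ h
    have h1 := Prod.ext_iff.1 h
    exact Prod.ext h1.1 (hf h1.2)
  · rw [bd_inv hP, bd_inv (P := fun j => P (f j)) (fun j => hP (f j))]
    exact incf_bd hf fun j => (P j)⁻¹

end Pool.Agent.T2h17.GP
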