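import Pool.Agent.T2h17.GP.Stm
import Pool.Agent.T2h17.TV.Dim

/-!
Hodge generic fibres: assembly of the algebraic parts.
-/

set_option autoImplicit false
set_option maxHeartbeats 400000

open Matrix Module

namespace Pool.Agent.T2h17.GP

open Pool.Agent.T2h17.AH (sp om Xm LieT Pres AlgT dpw tp pw dpw_add dpw_smul dpw_zero)
open Pool.Agent.T2h17.HW (tc)
open Pool.Agent.T2h17.TV (dim_ineq)

variable {n k : ℕ}

/-- block diagonal matrices -/
def bdL (n k : ℕ) : (Fin k → Matrix (Fin n) (Fin n) ℂ) →ₗ[ℂ] Matrix (Fin n × Fin k) (Fin n × Fin k) ℂ where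
  toFun := blockDiagonal
  map_add' := fun X Y => blockDiagonal_add X Y
  map_smul' := fun c X => blockDiagonal_smul c X

/-- the powers of the symplectic Lie algebra -/
def spk (k : ℕ) (S : Matrix (Fin n) (Fin n) ℂ) : Submodule ℂ (Fin k → Matrix (Fin n) (Fin n) ℂ) :=
  Submodule.pi Set.univ fun _ => sp S

theorem mem_spk {S : Matrix (Fin n) (Fin n) ℂ} {Y : Fin k → Matrix (Fin n) (Fin n) ℂ} :
    Y ∈ spk k S ↔ ∀ j, Y j ∈ sp S := by
  unfold spk
  rw [Submodule.mem_pi]
  exact ⟨fun h j => h j (Set.mem_univ j), fun h j _ => h j⟩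

theorem finrank_spk (k : ℕ) (S : Matrix (Fin n) (Fin n) ℂ) : finrank ℂ (spk k S) = k * finrank ℂ (sp S) := by
  let e : (Fin k → sp S) →ₗ[ℂ] (Fin k → Matrix (Fin n) (Fin n) ℂ) :=
    LinearMap.pi fun j => (sp S).subtype.comp (LinearMap.proj j)
  have he : ∀ f j, e f j = (f j : Matrix (Fin n) (Fin n) ℂ) := fun _ _ => rfl
  have h1 : LinearMap.range e = spk k S := by
    ext Y
    rw [mem_spk]
    constructor
    · rintro ⟨f, rfl⟩ j
      rw [he]
      exact (f j).2
    · intro h
      exact ⟨fun j => ⟨Y j, h j⟩, rfl⟩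
  have h2 : Function.Injective e := by
    intro f f' hff
    funext j
    exact Subtype.ext (congrFun hff j)
  rw [← h1, LinearMap.finrank_range_of_inj h2, Module.finrank_pi_fintype, Finset.sum_const,
    Finset.card_univ, Fintype.card_fin, smul_eq_mul]

/-- the diagonal -/
def dg (n k : ℕ) : Matrix (Fin n) (Fin n) ℂ →ₗ[ℂ] (Fin k → Matrix (Fin n) (Fin n) ℂ) :=
  LinearMap.pi fun _ => LinearMap.id

theorem dg_apply (Z : Matrix (Fin n) (Fin n) ℂ) (j : Fin k) : dg n k Z j = Z := rfl

/-- the codimension in the power of the symplectic Lie algebra -/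
theorem codim {S : Matrix (Fin n) (Fin n) ℂ} {L : Submodule ℂ (Matrix (Fin n × Fin k) (Fin n × Fin k) ℂ)}
    {T : Submodule ℂ (Matrix (Fin n) (Fin n) ℂ)}
    (h : ∀ Y : Fin k → Matrix (Fin n) (Fin n) ℂ, (∀ j, Y j ∈ sp S) →
      ∃ Z ∈ T, (blockDiagonal fun j => Y j + Z) ∈ L) {ν : ℕ}
    (hν : finrank ℂ T ≤ ν + finrank ℂ (T ⊓ L.comap ((bdL n k).comp (dg n k)) : Submodule ℂ _)) :
    k * finrank ℂ (sp S) ≤ finrank ℂ (spk k S ⊓ L.comap (bdL n k) : Submodule ℂ _) + ν := by
  rcases Nat.eq_zero_or_pos k with hk | hk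
  · subst hk
    rw [zero_mul]
    exact Nat.zero_le _
  have hinj : Function.Injective (dg n k) := fun Z Z' hZ => congrFun hZ ⟨0, hk⟩
  have h1 := dim_ineq (k := 1) (spk k S) (T.map (dg n k)) (fun _ => L.comap (bdL n k)) (fun Y hY => by
    obtain ⟨Z, hZ, hm⟩ := h (Y 0) (mem_spk.1 (hY 0))
    refine ⟨dg n k Z, Submodule.mem_map_of_mem hZ, fun j => ?_⟩
    rw [Subsingleton.elim j 0]
    exact hm)
  rw [Fin.sum_univ_one, finrank_spk] at h1
  have h2 : finrank ℂ (T.map (dg n k)) = finrank ℂ T := LinearEquiv.finrank_eq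
    (Submodule.equivMapOfInjective _ hinj T).symm
  have h3 : (⨅ _ : Fin 1, L.comap (bdL n k)) = L.comap (bdL n k) := iInf_const
  have h4 : (T.map (dg n k) ⊓ L.comap (bdL n k) : Submodule ℂ _) =
      (T ⊓ L.comap ((bdL n k).comp (dg n k)) : Submodule ℂ _).map (dg n k) := by
    ext Y
    constructor
    · rintro ⟨⟨Z, hZ, rfl⟩, hY⟩
      exact ⟨Z, ⟨hZ, hY⟩, rfl⟩
    · rintro ⟨Z, ⟨hZ, hY⟩, rfl⟩
      exact ⟨⟨Z, hZ, rfl⟩, hY⟩
  have h5 : finrank ℂ ((T ⊓ L.comap ((bdL n k).comp (dg n k)) : Submodule ℂ _).map (dg n k)) =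
      finrank ℂ (T ⊓ L.comap ((bdL n k).comp (dg n k)) : Submodule ℂ _) := LinearEquiv.finrank_eq
    (Submodule.equivMapOfInjective _ hinj _).symm
  rw [h2, h3, h4, h5] at h1
  omega

/-- the matrix of one column of a tensor -/
def col {ι F : Type} {a : ℕ} (T : (Fin a → ι) → F) : Matrix (Fin a → ι) (Fin 0 → ι) F :=
  Matrix.of fun i _ => T i

theorem update_prod {ι : Type} [DecidableEq ι] {a : ℕ} (X : Matrix ι ι ℂ) (s : Fin a) (i m : Fin a → ι) :
    tp (Function.update (fun _ => (1 : Matrix ι ι ℂ)) s X) i m =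
      if m = Function.update i s (m s) then X (i s) (m s) else 0 := by
  rw [Pool.Agent.T2h17.AH.tp_apply, ← Finset.mul_prod_erase _ _ (Finset.mem_univ s), Function.update_self]
  by_cases h : m = Function.update i s (m s)
  · rw [if_pos h, Finset.prod_eq_one, mul_one]
    intro s' hs'
    have hne := Finset.ne_of_mem_erase hs'
    rw [Function.update_of_ne hne]
    have h1 := congrFun h s'
    rw [Function.update_of_ne hne] at h1
    rw [h1, Matrix.one_apply_eq]
  · rw [if_neg h]
    obtain ⟨s', hs'⟩ : ∃ s', m s' ≠ Function.update i s (m s) s' := by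
      by_contra hcon
      push Not at hcon
      exact h (funext hcon)
    have hne : s' ≠ s := by
      intro h0
      subst h0
      exact hs' (by rw [Function.update_self])
    rw [Function.update_of_ne hne] at hs'
    rw [Finset.prod_eq_zero (Finset.mem_erase.2 ⟨hne, Finset.mem_univ s'⟩), mul_zero]
    rw [Function.update_of_ne hne, Matrix.one_apply_ne (fun h0 => hs' h0.symm)]

/-- the action on tensors with one column -/
theorem dpw_col {ι : Type} [Fintype ι] [DecidableEq ι] {a : ℕ} (X : Matrix ι ι ℂ) (T : (Fin a → ι) → ℚ)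
    (i : Fin a → ι) (z : Fin 0 → ι) :
    (dpw a X * tc (col T)) i z = ∑ s, ∑ c, X (i s) c * (T (Function.update i s c) : ℂ) := by
  rw [dpw, Matrix.sum_mul, Matrix.sum_apply]
  refine Finset.sum_congr rfl fun s _ => ?_
  rw [Matrix.mul_apply]
  simp only [update_prod]
  have h1 : ∀ m : Fin a → ι, (if m = Function.update i s (m s) then X (i s) (m s) else 0) * tc (col T) m z =
      ∑ c, if m = Function.update i s c then X (i s) c * (T m : ℂ) else 0 := by
    intro m
    rw [Finset.sum_eq_single (m s)]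
    · by_cases h : m = Function.update i s (m s)
      · rw [if_pos h, if_pos h]
        rfl
      · rw [if_neg h, if_neg h, zero_mul]
    · intro c _ hc
      rw [if_neg]
      intro h
      apply hc
      have := congrFun h s
      rw [Function.update_self] at this
      exact this.symm
    · intro h
      exact absurd (Finset.mem_univ _) h
  simp only [h1]
  rw [Finset.sum_comm]
  refine Finset.sum_congr rfl fun c _ => ?_
  rw [Finset.sum_eq_single (Function.update i s c)]
  · rw [if_pos rfl]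
  · intro m _ hm
    rw [if_neg hm]
  · intro h
    exact absurd (Finset.mem_univ _) h

/-- the block with one nonzero entry -/
theorem bd_single_apply (j : Fin k) (Y : Matrix (Fin n) (Fin n) ℂ) (x y : Fin n × Fin k) :
    blockDiagonal (Pi.single j Y) x y = if x.2 = j ∧ y.2 = j then Y x.1 y.1 else 0 := by
  rw [blockDiagonal_apply]
  by_cases h : x.2 = y.2
  · rw [if_pos h]
    by_cases h2 : x.2 = j
    · rw [if_pos ⟨h2, h ▸ h2⟩, h2, Pi.single_eq_same]
    · rw [if_neg (fun h' => h2 h'.1), Pi.single_eq_of_ne h2, Matrix.zero_apply]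
  · rw [if_neg h, if_neg]
    rintro ⟨h1, h2⟩
    exact h (h1.trans h2.symm)

theorem sum_single (j : Fin k) (Y : Matrix (Fin n) (Fin n) ℂ) {a : ℕ} (T : (Fin a → Fin n × Fin k) → ℚ)
    (i : Fin a → Fin n × Fin k) :
    ∑ s, ∑ c, blockDiagonal (Pi.single j Y) (i s) c * (T (Function.update i s c) : ℂ) =
      ∑ s, (if (i s).2 = j then ∑ c, Y (i s).1 c * (T (Function.update i s (c, j)) : ℂ) else 0) := by
  refine Finset.sum_congr rfl fun s _ => ?_
  rw [Fintype.sum_prod_type]
  by_cases h : (i s).2 = j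
  · rw [if_pos h]
    refine Finset.sum_congr rfl fun c _ => ?_
    rw [Finset.sum_eq_single j]
    · rw [bd_single_apply, if_pos ⟨h, rfl⟩]
    · intro j' _ hj'
      rw [bd_single_apply, if_neg (fun h' => hj' h'.2), zero_mul]
    · intro h'
      exact absurd (Finset.mem_univ _) h'
  · rw [if_neg h]
    refine Finset.sum_eq_zero fun c _ => Finset.sum_eq_zero fun j' _ => ?_
    rw [bd_single_apply, if_neg (fun h' => h h'.1), zero_mul]

/-- the bracket of block matrices -/
theorem bd_bracket (X Y : Fin k → Matrix (Fin n) (Fin n) ℂ) :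
    blockDiagonal (fun j => X j * Y j - Y j * X j) =
      blockDiagonal X * blockDiagonal Y - blockDiagonal Y * blockDiagonal X := by
  have h1 : (fun j => X j * Y j - Y j * X j) = (fun j => X j * Y j) - fun j => Y j * X j := rfl
  rw [h1, blockDiagonal_sub, blockDiagonal_mul, blockDiagonal_mul]

/-- **Hodge generic fibres**: outside a small set the algebraic tensors are generated by the polarisations -/
theorem generic (hG : S_GOUR) (hM : S_MINC) (hS : S_SIMP) (hP : S_PERF) (hL : S_LIEB) (hF : S_FFTQ)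
    {P : Matrix (Fin n) (Fin n) ℚ} (hP1 : Pᵀ = -P) (hP2 : P.det ≠ 0) {D0 a0 : ℕ}
    {B : Matrix (Fin n × Fin k) (Fin n × Fin k) ℂ} {T : Submodule ℂ (Matrix (Fin n) (Fin n) ℂ)}
    (h : ∀ Y : Fin k → Matrix (Fin n) (Fin n) ℂ, (∀ j, Y j ∈ sp (tc P)) →
      ∃ Z ∈ T, (blockDiagonal fun j => Y j + Z) ∈ LieT D0 a0 B) {ν : ℕ}
    (hν : finrank ℂ T ≤ ν + finrank ℂ (T ⊓ (LieT D0 a0 B).comap ((bdL n k).comp (dg n k)) : Submodule ℂ _)) :
    ∃ R : Finset (Fin k), R.card * (n - 1) ≤ ν ∧ ∀ a ≤ a0, ∀ t : (Fin a → Fin n × Fin k) → ℚ,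
      (∀ i, (∃ s, (i s).2 ∈ R) → t i = 0) → AlgT D0 B (col t) →
      t ∈ Submodule.span ℚ {G | ∃ (m : ℕ) (e : Fin m × Fin 2 ≃ Fin a) (c : Fin m → Fin k), G = prT P e c} := by
  have hT1 : (tc P)ᵀ = -(tc P) := by
    have h1 := congrArg tc hP1
    ext i j
    have h2 := congrFun (congrFun h1 i) j
    simp only [tc, Matrix.map_apply, Matrix.transpose_apply, Matrix.neg_apply] at h2 ⊢
    rw [h2]
    push_cast
    rfl
  have hT2 : (tc P).det ≠ 0 := by
    have h1 : (tc P).det = ((P.det : ℚ) : ℂ) := by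
      have := RingHom.map_det (algebraMap ℚ ℂ) P
      exact this.symm
    rw [h1]
    exact_mod_cast hP2
  obtain ⟨hLie, hspan, hab, hdim⟩ := hP n (tc P) hT1 hT2
  rcases Nat.eq_zero_or_pos n with hn | hn
  · subst hn
    refine ⟨∅, by simp, fun a ha t ht hA => ?_⟩
    refine hF 0 k a P hP1 hP2 t fun j Y _ i => ?_
    refine Finset.sum_eq_zero fun s _ => ?_
    exact (i s).1.elim0
  set M : Submodule ℂ (Fin k → Matrix (Fin n) (Fin n) ℂ) :=
    spk k (tc P) ⊓ (LieT D0 a0 B).comap (bdL n k) with hMdef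
  obtain ⟨hLT, hkill⟩ := hL (Fin n × Fin k) D0 a0 B
  obtain ⟨R, hR1, hR2⟩ := hG n k (n - 1) ν (sp (tc P)) hLie
    (fun h' h1 h2 h3 => hM n (tc P) hT1 hT2 h' h1 h2 h3)
    (fun I h1 h2 => hS n (tc P) hT1 hT2 I h1 h2) (hab hn) hdim M
    (fun Y hY j => mem_spk.1 hY.1 j) (fun X hX Y hY => by
      refine ⟨mem_spk.2 fun j => hLie _ (mem_spk.1 hX.1 j) _ (mem_spk.1 hY.1 j), ?_⟩
      show blockDiagonal (fun j => X j * Y j - Y j * X j) ∈ LieT D0 a0 B
      rw [bd_bracket]
      exact hLT _ hX.2 _ hY.2) (codim h hν)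
  refine ⟨R, hR1, fun a ha t ht hA => ?_⟩
  refine hF n k a P hP1 hP2 t fun j Y hY i => ?_
  by_cases hj : j ∈ R
  · refine Finset.sum_eq_zero fun s _ => ?_
    split_ifs with hs
    · refine Finset.sum_eq_zero fun c _ => ?_
      rw [ht _ ⟨s, by rw [Function.update_self]; exact hj⟩, Rat.cast_zero, mul_zero]
    · rfl
  · rw [← sum_single, ← dpw_col _ _ i Fin.elim0]
    have hmem : ∀ X ∈ sp (tc P), blockDiagonal (Pi.single j X) ∈ LieT D0 a0 B := by
      intro X hX
      have h1 := hR2 (Pi.single j X) (fun j' => by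
        by_cases hjj : j' = j
        · subst hjj
          rw [Pi.single_eq_same]
          exact hX
        · rw [Pi.single_eq_of_ne hjj]
          exact Submodule.zero_mem _) (fun j' hj' => by
        rw [Pi.single_eq_of_ne]
        rintro rfl
        exact hj hj')
      exact h1.2
    have hz : dpw a (blockDiagonal (Pi.single j Y)) * tc (col t) = 0 := by
      rw [hspan] at hY
      induction hY using Submodule.span_induction with
      | mem Z hZ =>
        obtain ⟨X, hX, Y, hY, rfl⟩ := hZ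
        have h1 := hkill _ (hmem X hX) _ (hmem Y hY) a ha 0 (Nat.zero_le _) (col t) hA
        have h2 : blockDiagonal (Pi.single j (X * Y - Y * X)) =
            blockDiagonal (Pi.single j X) * blockDiagonal (Pi.single j Y) -
              blockDiagonal (Pi.single j Y) * blockDiagonal (Pi.single j X) := by
          rw [← bd_bracket]
          congr 1
          funext j'
          by_cases hjj : j' = j
          · subst hjj
            simp only [Pi.single_eq_same]
          · simp only [Pi.single_eq_of_ne hjj, Matrix.mul_zero, sub_zero]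
        have h3 : ∀ Z : Matrix (Fin n × Fin k) (Fin n × Fin k) ℂ, dpw 0 Z = 0 := fun Z => by
          rw [dpw, Finset.univ_eq_empty, Finset.sum_empty]
        rw [← h2, h3, Matrix.mul_zero, sub_zero] at h1
        exact h1
      | zero => rw [Pi.single_zero, blockDiagonal_zero, dpw_zero, Matrix.zero_mul]
      | add X Y _ _ h1 h2 =>
        rw [Pi.single_add, blockDiagonal_add, dpw_add, Matrix.add_mul, h1, h2, add_zero]
      | smul c X _ h1 =>
        rw [Pi.single_smul, blockDiagonal_smul, dpw_smul, Matrix.smul_mul, h1, smul_zero]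
    rw [hz, Matrix.zero_apply]

end Pool.Agent.T2h17.GP
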