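import Pool.Agent.T2h17.AH.Sp
import Pool.Agent.H204R3.GP.FFT
import Pool.Agent.W437.HD.Darboux

/-!
The first fundamental theorem for products of symplectic groups with arbitrary alternating forms:
tensors in coordinates and multilinear forms.
-/

set_option autoImplicit false
set_option linter.unusedSectionVars false

open Matrix Module
open Pool.Agent.T2h17.AH (sp om Xm vm_Xm Xm_mem)
open Pool.Agent.H204R3.SP (JJ)
open Pool.Agent.H204R3.GP (InvG MatG matG fftG)

namespace Pool.Agent.T2h17.GP

noncomputable section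

section form

variable {a : ℕ} {ι : Type} [Fintype ι] [DecidableEq ι]

/-- the multilinear form attached to a tensor -/
def fT (T : (Fin a → ι) → ℂ) : MultilinearMap ℂ (fun _ : Fin a => ι → ℂ) ℂ :=
  ∑ i, T i • (MultilinearMap.mkPiAlgebra ℂ (Fin a) ℂ).compLinearMap
    (fun s => (LinearMap.proj (i s) : (ι → ℂ) →ₗ[ℂ] ℂ))

theorem fT_apply (T : (Fin a → ι) → ℂ) (w : Fin a → ι → ℂ) :
    fT T w = ∑ i, T i * ∏ s, w s (i s) := by
  unfold fT
  simp

theorem fT_single (T : (Fin a → ι) → ℂ) (i : Fin a → ι) :
    fT T (fun s => Pi.single (i s) 1) = T i := by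
  rw [fT_apply, Finset.sum_eq_single i]
  · simp
  · intro i' _ hi'
    obtain ⟨s, hs⟩ := Function.ne_iff.1 hi'
    rw [Finset.prod_eq_zero (Finset.mem_univ s), mul_zero]
    rw [Pi.single_apply, if_neg hs]
  · intro h
    exact absurd (Finset.mem_univ i) h

theorem single_sum (u : ι → ℂ) : u = ∑ q, u q • (Pi.single q 1 : ι → ℂ) := by
  funext p
  simp [Finset.sum_apply, Pi.single_apply]

theorem fT_update (T : (Fin a → ι) → ℂ) (i : Fin a → ι) (s : Fin a) (u : ι → ℂ) :
    fT T (Function.update (fun t => Pi.single (i t) 1) s u) =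
      ∑ q, u q * T (Function.update i s q) := by
  conv_lhs => rw [single_sum u]
  rw [MultilinearMap.map_update_sum]
  refine Finset.sum_congr rfl fun q _ => ?_
  rw [MultilinearMap.map_update_smul, smul_eq_mul, ← fT_single T (Function.update i s q)]
  congr 2
  funext t
  by_cases h : t = s
  · subst h
    simp
  · simp [h]

/-- the derivation of a multilinear form -/
def dF (f : MultilinearMap ℂ (fun _ : Fin a => ι → ℂ) ℂ) (L : (ι → ℂ) →ₗ[ℂ] (ι → ℂ)) :
    MultilinearMap ℂ (fun _ : Fin a => ι → ℂ) ℂ :=
  ∑ s, f.compLinearMap (fun t => if t = s then L else LinearMap.id)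

theorem dF_apply (f : MultilinearMap ℂ (fun _ : Fin a => ι → ℂ) ℂ) (L : (ι → ℂ) →ₗ[ℂ] (ι → ℂ))
    (w : Fin a → ι → ℂ) : dF f L w = ∑ s, f (Function.update w s (L (w s))) := by
  unfold dF
  rw [_root_.sum_apply]
  refine Finset.sum_congr rfl fun s _ => ?_
  rw [MultilinearMap.compLinearMap_apply]
  congr 1
  funext t
  by_cases h : t = s
  · subst h
    simp
  · simp [h]

end form

/-- the derivation vanishes everywhere if it vanishes on the unit vectors -/
theorem dF_zero {a n k : ℕ} (T : (Fin a → Fin n × Fin k) → ℂ) (j : Fin k)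
    (Y : Matrix (Fin n) (Fin n) ℂ)
    (hT : ∀ i : Fin a → Fin n × Fin k,
      ∑ s, (if (i s).2 = j then ∑ c, Y (i s).1 c * T (Function.update i s (c, j)) else 0) = 0)
    (w : Fin a → Fin n × Fin k → ℂ) :
    ∑ s, fT T (Function.update w s (w s ᵥ* (Matrix.of fun p q : Fin n × Fin k =>
      if p.2 = j ∧ q.2 = j then Y p.1 q.1 else 0))) = 0 := by
  have key : dF (fT T) (Matrix.vecMulLinear (Matrix.of fun p q : Fin n × Fin k =>
      if p.2 = j ∧ q.2 = j then Y p.1 q.1 else 0)) = 0 := by
    refine Module.Basis.ext_multilinear (fun _ => Pi.basisFun ℂ (Fin n × Fin k)) fun i => ?_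
    rw [dF_apply, _root_.zero_apply]
    refine Eq.trans ?_ (hT i)
    refine Finset.sum_congr rfl fun s _ => ?_
    simp only [Pi.basisFun_apply]
    rw [fT_update, Fintype.sum_prod_type]
    rw [Matrix.vecMulLinear_apply, single_one_vecMul]
    simp only [Matrix.row_apply, Matrix.of_apply]
    by_cases h : (i s).2 = j
    · simp only [h, true_and, if_true]
      refine Finset.sum_congr rfl fun c _ => ?_
      rw [Finset.sum_eq_single j]
      · simp
      · intro b _ hb
        rw [if_neg hb, zero_mul]
      · intro h'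
        exact absurd (Finset.mem_univ j) h'
    · simp [h]
  have h := congrArg (fun f => f w) key
  simp only [dF_apply, _root_.zero_apply, Matrix.vecMulLinear_apply] at h
  exact h

end

end Pool.Agent.T2h17.GP
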