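import Pool.Agent.T2h17.GP.FftcA

/-!
The first fundamental theorem for products of symplectic groups with arbitrary alternating forms:
change of the basis.
-/

set_option autoImplicit false
set_option linter.unusedSectionVars false

open Matrix Module
open Pool.Agent.T2h17.AH (sp om Xm vm_Xm Xm_mem)
open Pool.Agent.H204R3.SP (JJ)
open Pool.Agent.H204R3.GP (InvG MatG matG fftG)

namespace Pool.Agent.T2h17.GP

noncomputable section

variable {n k a : ℕ} {R : Type} [Fintype R] [DecidableEq R]

/-- the vectors of a basis in the summands -/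
def hv (e : R → Fin n → ℂ) (q : R × Fin k) : Fin n × Fin k → ℂ :=
  fun p => if p.2 = q.2 then e q.1 p.1 else 0

theorem hv_vecMul (e : R → Fin n → ℂ) (Y : Matrix (Fin n) (Fin n) ℂ) (j : Fin k) (q : R × Fin k) :
    hv e q ᵥ* (Matrix.of fun p p' : Fin n × Fin k =>
      if p.2 = j ∧ p'.2 = j then Y p.1 p'.1 else 0) =
    fun p => if q.2 = j ∧ p.2 = j then (e q.1 ᵥ* Y) p.1 else 0 := by
  funext p
  simp only [vecMul, dotProduct, Matrix.of_apply, hv, Fintype.sum_prod_type]
  by_cases h1 : q.2 = j
  · by_cases h2 : p.2 = j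
    · simp only [h1, h2, and_true, and_self, if_true]
      refine Finset.sum_congr rfl fun v _ => ?_
      rw [Finset.sum_eq_single j]
      · simp
      · intro b _ hb
        rw [if_neg hb, zero_mul]
      · intro h'
        exact absurd (Finset.mem_univ j) h'
    · simp [h2]
  · rw [if_neg (fun h => h1 h.1)]
    refine Finset.sum_eq_zero fun v _ => Finset.sum_eq_zero fun l _ => ?_
    by_cases h3 : l = q.2
    · rw [if_neg (fun h : l = j ∧ p.2 = j => h1 (h3.symm.trans h.1)), mul_zero]
    · rw [if_neg h3, zero_mul]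

/-- the coordinates of the tensor in the new basis -/
def Fc (T : (Fin a → Fin n × Fin k) → ℂ) (e : R → Fin n → ℂ) (I : Fin a → R × Fin k) : ℂ :=
  fT T (fun s => hv e (I s))

theorem hv_update (e : R → Fin n → ℂ) (I : Fin a → R × Fin k) (s : Fin a) (q : R × Fin k) :
    Function.update (fun s => hv e (I s)) s (hv e q) = fun t => hv e (Function.update I s q t) := by
  funext t
  by_cases h : t = s
  · subst h
    simp
  · simp [h]

theorem Fc_inv {P : Matrix (Fin n) (Fin n) ℂ} (hP : Pᵀ = -P) (T : (Fin a → Fin n × Fin k) → ℂ)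
    (hT : ∀ (j : Fin k) (Y : Matrix (Fin n) (Fin n) ℂ), Y ∈ sp P → ∀ i : Fin a → Fin n × Fin k,
      ∑ s, (if (i s).2 = j then ∑ c, Y (i s).1 c * T (Function.update i s (c, j)) else 0) = 0)
    (e : R → Fin n → ℂ) (x y : R) (j : Fin k) (I : Fin a → R × Fin k) :
    ∑ s, (if (I s).2 = j then om P (e (I s).1) (e x) * Fc T e (Function.update I s (y, j)) +
      om P (e (I s).1) (e y) * Fc T e (Function.update I s (x, j)) else 0) = 0 := by
  have h := dF_zero T j (Xm P (e x) (e y)) (hT j _ (Xm_mem hP _ _)) (fun s => hv e (I s))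
  refine Eq.trans (Finset.sum_congr rfl fun s _ => ?_) h
  rw [hv_vecMul]
  by_cases hs : (I s).2 = j
  · rw [if_pos hs]
    have h1 : (fun p : Fin n × Fin k => if (I s).2 = j ∧ p.2 = j then
        (e (I s).1 ᵥ* Xm P (e x) (e y)) p.1 else 0) =
        om P (e (I s).1) (e x) • hv e (y, j) + om P (e (I s).1) (e y) • hv e (x, j) := by
      rw [vm_Xm]
      funext p
      simp only [hv, Pi.add_apply, Pi.smul_apply, smul_eq_mul, hs, true_and]
      by_cases hp : p.2 = j
      · simp only [hp, if_true]
      · simp [hp]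
    rw [h1, MultilinearMap.map_update_add, MultilinearMap.map_update_smul,
      MultilinearMap.map_update_smul, hv_update, hv_update]
    rfl
  · rw [if_neg hs]
    have h1 : (fun p : Fin n × Fin k => if (I s).2 = j ∧ p.2 = j then
        (e (I s).1 ᵥ* Xm P (e x) (e y)) p.1 else 0) = 0 := by
      funext p
      rw [if_neg (fun h => hs h.1)]
      rfl
    rw [h1, MultilinearMap.map_update_zero]

/-- the inverse transformation -/
def Ph (e : Basis R ℂ (Fin n → ℂ)) : ((Fin a → R × Fin k) → ℂ) →ₗ[ℂ] ((Fin a → Fin n × Fin k) → ℂ) where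
  toFun F := fun i => ∑ I : Fin a → R, (∏ s, e.repr (Pi.single (i s).1 1) (I s)) *
    F (fun s => (I s, (i s).2))
  map_add' := by
    intro F G
    funext i
    simp only [Pi.add_apply, mul_add, Finset.sum_add_distrib]
  map_smul' := by
    intro c F
    funext i
    simp only [Pi.smul_apply, smul_eq_mul, RingHom.id_apply, Finset.mul_sum]
    refine Finset.sum_congr rfl fun I _ => ?_
    ring

theorem single_hv (e : Basis R ℂ (Fin n → ℂ)) (p : Fin n × Fin k) :
    (Pi.single p 1 : Fin n × Fin k → ℂ) = ∑ x, e.repr (Pi.single p.1 1) x • hv e (x, p.2) := by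
  have h := e.sum_repr (Pi.single p.1 1)
  funext q
  rw [Finset.sum_apply]
  simp only [Pi.smul_apply, hv, smul_eq_mul]
  by_cases h2 : q.2 = p.2
  · simp only [h2, if_true]
    have h3 := congrFun h q.1
    rw [Finset.sum_apply] at h3
    simp only [Pi.smul_apply, smul_eq_mul] at h3
    rw [h3, Pi.single_apply, Pi.single_apply]
    by_cases h4 : q.1 = p.1
    · rw [if_pos h4, if_pos (Prod.ext h4 h2)]
    · rw [if_neg h4, if_neg (fun h => h4 (congrArg Prod.fst h))]
  · simp only [h2, if_false, mul_zero, Finset.sum_const_zero]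
    rw [Pi.single_apply, if_neg (fun h => h2 (congrArg Prod.snd h))]

theorem Ph_Fc (e : Basis R ℂ (Fin n → ℂ)) (T : (Fin a → Fin n × Fin k) → ℂ) :
    Ph e (Fc T e) = T := by
  funext i
  rw [← fT_single T i]
  have h1 : (fun s => (Pi.single (i s) 1 : Fin n × Fin k → ℂ)) =
      fun s => ∑ x, e.repr (Pi.single (i s).1 1) x • hv e (x, (i s).2) := by
    funext s
    exact single_hv e (i s)
  rw [h1, MultilinearMap.map_sum]
  refine Finset.sum_congr rfl fun I _ => ?_
  rw [MultilinearMap.map_smul_univ]
  rfl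

end

end Pool.Agent.T2h17.GP
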