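import Pool.Agent.T2h17.GP.Stm2

/-! Project GP, task PROJ. -/

set_option autoImplicit false

open Module

namespace Pool.Agent.T2h17.GP

namespace Proj

variable {V : Type} [AddCommGroup V] [Module ℂ V] [FiniteDimensional ℂ V] {K : ℕ}

open Classical in
/-- restriction to a set of indices -/
noncomputable def R (V : Type) [AddCommGroup V] [Module ℂ V] {K : ℕ} (Q : Finset (Fin K)) :
    (Fin K → V) →ₗ[ℂ] (Fin K → V) :=
  LinearMap.pi fun j => if j ∈ Q then LinearMap.proj j else 0

theorem R_mem {Q : Finset (Fin K)} {j : Fin K} (hj : j ∈ Q) (Y : Fin K → V) : R V Q Y j = Y j := by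
  classical
  unfold R
  rw [LinearMap.pi_apply, if_pos hj]
  rfl

theorem R_notMem {Q : Finset (Fin K)} {j : Fin K} (hj : j ∉ Q) (Y : Fin K → V) : R V Q Y j = 0 := by
  classical
  unfold R
  rw [LinearMap.pi_apply, if_neg hj]
  rfl

theorem R_comp {Q Q' : Finset (Fin K)} (h : Q' ⊆ Q) (Y : Fin K → V) :
    R V Q' (R V Q Y) = R V Q' Y := by
  funext j
  by_cases hj : j ∈ Q'
  · rw [R_mem hj, R_mem hj, R_mem (h hj)]
  · rw [R_notMem hj, R_notMem hj]

theorem map_map (M : Submodule ℂ (Fin K → V)) {Q Q' : Finset (Fin K)} (h : Q' ⊆ Q) :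
    (M.map (R V Q)).map (R V Q') = M.map (R V Q') := by
  rw [← Submodule.map_comp]
  congr 1
  exact LinearMap.ext fun Y => R_comp h Y

/-- the elements concentrated at `a` -/
noncomputable def W (M : Submodule ℂ (Fin K → V)) (Q : Finset (Fin K)) (a : Fin K) :
    Submodule ℂ V :=
  (M.map (R V Q)).comap (LinearMap.single ℂ (fun _ : Fin K => V) a)

theorem W_le (G : Submodule ℂ V) (M : Submodule ℂ (Fin K → V)) (hM : ∀ Y ∈ M, ∀ j, Y j ∈ G)
    (Q : Finset (Fin K)) (a : Fin K) (ha : a ∈ Q) : W M Q a ≤ G := by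
  intro v hv
  obtain ⟨Y, hY, hYv⟩ := hv
  have h1 := congrFun hYv a
  rw [R_mem ha] at h1
  have h2 : (LinearMap.single ℂ (fun _ : Fin K => V) a) v a = v := by
    rw [LinearMap.single_apply, Pi.single_eq_same]
  rw [h2] at h1
  rw [← h1]
  exact hM Y hY a

theorem step (M : Submodule ℂ (Fin K → V)) (Q : Finset (Fin K)) (a : Fin K) (ha : a ∈ Q) :
    finrank ℂ (M.map (R V Q)) ≤ finrank ℂ (M.map (R V (Q.erase a))) + finrank ℂ (W M Q a) := by
  classical
  set N := M.map (R V Q) with hN
  have h1 := LinearMap.finrank_range_add_finrank_ker ((R V (Q.erase a)).domRestrict N)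
  rw [LinearMap.range_domRestrict, map_map M (Finset.erase_subset a Q)] at h1
  rw [← h1]
  apply Nat.add_le_add_left
  -- the kernel
  have hker : ∀ Y : LinearMap.ker ((R V (Q.erase a)).domRestrict N),
      ((Y : N) : Fin K → V) = Pi.single a (((Y : N) : Fin K → V) a) := by
    intro Y
    have hY := LinearMap.mem_ker.1 Y.2
    rw [LinearMap.domRestrict_apply] at hY
    obtain ⟨Z, -, hZ⟩ := (Y : N).2
    funext j
    by_cases hj : j = a
    · subst hj
      rw [Pi.single_eq_same]
    · rw [Pi.single_eq_of_ne hj]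
      by_cases hjQ : j ∈ Q
      · have h2 := congrFun hY j
        rw [R_mem (Finset.mem_erase.2 ⟨hj, hjQ⟩)] at h2
        exact h2
      · rw [← hZ, R_notMem hjQ]
  let f : LinearMap.ker ((R V (Q.erase a)).domRestrict N) →ₗ[ℂ] W M Q a :=
    { toFun := fun Y => ⟨((Y : N) : Fin K → V) a, by
        show (LinearMap.single ℂ (fun _ : Fin K => V) a) (((Y : N) : Fin K → V) a) ∈ N
        rw [LinearMap.single_apply, ← hker Y]
        exact (Y : N).2⟩
      map_add' := fun Y Z => rfl
      map_smul' := fun c Y => rfl }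
  apply LinearMap.finrank_le_finrank_of_injective (f := f)
  intro Y Z hYZ
  have h2 : ((Y : N) : Fin K → V) a = ((Z : N) : Fin K → V) a := congrArg Subtype.val hYZ
  apply Subtype.ext
  apply Subtype.ext
  rw [hker Y, hker Z, h2]

theorem upper (G : Submodule ℂ V) (M : Submodule ℂ (Fin K → V)) (hM : ∀ Y ∈ M, ∀ j, Y j ∈ G)
    (Q : Finset (Fin K)) : finrank ℂ (M.map (R V Q)) ≤ Q.card * finrank ℂ G := by
  classical
  induction Q using Finset.induction_on with
  | empty =>
    have h : M.map (R V (∅ : Finset (Fin K))) = ⊥ := by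
      rw [eq_bot_iff]
      rintro Y ⟨Z, -, rfl⟩
      rw [Submodule.mem_bot]
      funext j
      exact R_notMem (Finset.notMem_empty j) Z
    rw [h, finrank_bot]
    exact Nat.zero_le _
  | insert a Q ha ih =>
    have h1 := step M (insert a Q) a (Finset.mem_insert_self a Q)
    rw [Finset.erase_insert ha] at h1
    have h2 := Submodule.finrank_mono (W_le G M hM (insert a Q) a (Finset.mem_insert_self a Q))
    rw [Finset.card_insert_of_notMem ha, Nat.add_mul, Nat.one_mul]
    omega

theorem main (G : Submodule ℂ V) (M : Submodule ℂ (Fin K → V)) (hM : ∀ Y ∈ M, ∀ j, Y j ∈ G) :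
    ∀ (ν : ℕ) (Q : Finset (Fin K)), Q.card * finrank ℂ G ≤ finrank ℂ (M.map (R V Q)) + ν →
    ∃ S ⊆ Q, S.card ≤ ν ∧ ∀ Y : Fin K → V, (∀ j, Y j ∈ G) → ∃ Y' ∈ M, ∀ j ∈ Q, j ∉ S → Y' j = Y j := by
  classical
  intro ν
  induction ν with
  | zero =>
    intro Q hQ
    refine ⟨∅, Finset.empty_subset _, le_rfl, ?_⟩
    have h1 : ∀ a ∈ Q, W M Q a = G := by
      intro a ha
      by_contra hne
      have hlt : finrank ℂ (W M Q a) < finrank ℂ G :=
        Submodule.finrank_lt_finrank_of_lt (lt_of_le_of_ne (W_le G M hM Q a ha) hne)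
      have h2 := step M Q a ha
      have h3 := upper G M hM (Q.erase a)
      have h4 : Q.card = (Q.erase a).card + 1 := (Finset.card_erase_add_one ha).symm
      rw [h4, Nat.add_mul, Nat.one_mul] at hQ
      omega
    intro Y hY
    have h5 : ∑ a ∈ Q, (LinearMap.single ℂ (fun _ : Fin K => V) a) (Y a) ∈ M.map (R V Q) := by
      refine Submodule.sum_mem _ fun a ha => ?_
      have : Y a ∈ W M Q a := by rw [h1 a ha]; exact hY a
      exact this
    obtain ⟨Y', hY', he⟩ := h5
    refine ⟨Y', hY', fun j hj _ => ?_⟩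
    have h6 := congrFun he j
    rw [R_mem hj, Finset.sum_apply, Finset.sum_eq_single_of_mem j hj] at h6
    · rw [h6, LinearMap.single_apply, Pi.single_eq_same]
    · intro b _ hb
      rw [LinearMap.single_apply, Pi.single_eq_of_ne (Ne.symm hb)]
  | succ ν ih =>
    intro Q hQ
    by_cases h1 : ∀ a ∈ Q, W M Q a = G
    · refine ⟨∅, Finset.empty_subset _, Nat.zero_le _, ?_⟩
      intro Y hY
      have h5 : ∑ a ∈ Q, (LinearMap.single ℂ (fun _ : Fin K => V) a) (Y a) ∈ M.map (R V Q) := by
        refine Submodule.sum_mem _ fun a ha => ?_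
        have : Y a ∈ W M Q a := by rw [h1 a ha]; exact hY a
        exact this
      obtain ⟨Y', hY', he⟩ := h5
      refine ⟨Y', hY', fun j hj _ => ?_⟩
      have h6 := congrFun he j
      rw [R_mem hj, Finset.sum_apply, Finset.sum_eq_single_of_mem j hj] at h6
      · rw [h6, LinearMap.single_apply, Pi.single_eq_same]
      · intro b _ hb
        rw [LinearMap.single_apply, Pi.single_eq_of_ne (Ne.symm hb)]
    · push Not at h1
      obtain ⟨a, ha, hne⟩ := h1
      have hlt : finrank ℂ (W M Q a) < finrank ℂ G :=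
        Submodule.finrank_lt_finrank_of_lt (lt_of_le_of_ne (W_le G M hM Q a ha) hne)
      have h2 := step M Q a ha
      have h4 : Q.card = (Q.erase a).card + 1 := (Finset.card_erase_add_one ha).symm
      obtain ⟨S, hS1, hS2, hS3⟩ := ih (Q.erase a) (by
        rw [h4, Nat.add_mul, Nat.one_mul] at hQ
        omega)
      refine ⟨insert a S, ?_, ?_, ?_⟩
      · intro x hx
        rcases Finset.mem_insert.1 hx with rfl | hx
        · exact ha
        · exact Finset.mem_of_mem_erase (hS1 hx)
      · exact (Finset.card_insert_le _ _).trans (by omega)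
      · intro Y hY
        obtain ⟨Y', hY', h5⟩ := hS3 Y hY
        refine ⟨Y', hY', fun j hj hjS => h5 j ?_ ?_⟩
        · rw [Finset.mem_erase]
          exact ⟨fun h => hjS (by rw [h]; exact Finset.mem_insert_self _ _), hj⟩
        · exact fun h => hjS (Finset.mem_insert_of_mem h)

end Proj

theorem t_proj : S_PROJ := by
  intro V _ _ _ K ν G M hM hK
  have h1 : M.map (Proj.R V (Finset.univ : Finset (Fin K))) = M := by
    have : Proj.R V (Finset.univ : Finset (Fin K)) = LinearMap.id :=
      LinearMap.ext fun Y => funext fun j => Proj.R_mem (Finset.mem_univ j) Y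
    rw [this, Submodule.map_id]
  obtain ⟨S, -, hS, h⟩ := Proj.main G M hM ν Finset.univ (by
    rw [h1, Finset.card_univ, Fintype.card_fin]
    exact hK)
  refine ⟨S, hS, fun Y hY => ?_⟩
  obtain ⟨Y', hY', h2⟩ := h Y hY
  exact ⟨Y', hY', fun j hj => h2 j (Finset.mem_univ j) hj⟩

end Pool.Agent.T2h17.GP
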