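import Pool.Agent.T2h17.GP.Asm
import Pool.Agent.T2h17.TV.Tg

/-!
Hodge generic fibres: generic multiples of the period matrix.
-/

set_option autoImplicit false
set_option maxHeartbeats 400000

open Matrix Module

namespace Pool.Agent.T2h17.GP

open Pool.Agent.T2h17.AH (sp om Xm LieT Pres AlgT dpw tp pw)
open Pool.Agent.T2h17.HW (tc)
open Pool.Agent.T2h17.TV (Tg)

/-- the chain rule for derivations -/
theorem chain_ring {K L τ : Type} [CommRing K] [CommRing L] [Algebra K L] [Fintype τ]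
    (D : Derivation K L L) (y : τ → L) (p : MvPolynomial τ K) :
    D (MvPolynomial.aeval y p) = ∑ i, MvPolynomial.aeval y (MvPolynomial.pderiv i p) * D (y i) := by
  classical
  induction p using MvPolynomial.induction_on with
  | C a =>
    simp only [MvPolynomial.aeval_C, MvPolynomial.pderiv_C, map_zero, zero_mul,
      Finset.sum_const_zero]
    exact Derivation.map_algebraMap D a
  | add p q hp hq =>
    simp only [map_add, add_mul, Finset.sum_add_distrib]
    rw [hp, hq]
  | mul_X p i hp =>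
    simp only [map_mul, MvPolynomial.aeval_X, map_add, add_mul,
      Finset.sum_add_distrib, Derivation.leibniz, smul_eq_mul, hp, MvPolynomial.pderiv_X]
    congr 1
    · rw [Finset.sum_eq_single i]
      · simp
      · intro j _ hj
        rw [Pi.single_eq_of_ne (Ne.symm hj)]
        simp
      · intro h
        exact absurd (Finset.mem_univ _) h
    · rw [Finset.mul_sum]
      exact Finset.sum_congr rfl fun j _ => by ring

/-- the polynomial along a line through the origin -/
noncomputable def line {τ : Type} (c : τ → ℂ) (f : MvPolynomial τ ℚ) : Polynomial ℂ :=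
  MvPolynomial.aeval (fun a => Polynomial.C (c a) * Polynomial.X) f

theorem line_eval {τ : Type} (c : τ → ℂ) (f : MvPolynomial τ ℚ) (x : ℂ) :
    (line c f).eval x = MvPolynomial.aeval (fun a => x * c a) f := by
  have h1 : ((Polynomial.aeval x : Polynomial ℂ →ₐ[ℂ] ℂ).restrictScalars ℚ).comp
      (MvPolynomial.aeval (fun a => Polynomial.C (c a) * Polynomial.X)) =
      (MvPolynomial.aeval (fun a => x * c a) : MvPolynomial τ ℚ →ₐ[ℚ] ℂ) := by
    refine MvPolynomial.algHom_ext fun a => ?_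
    rw [AlgHom.comp_apply, MvPolynomial.aeval_X, MvPolynomial.aeval_X, AlgHom.restrictScalars_apply,
      map_mul, Polynomial.aeval_C, Polynomial.aeval_X, mul_comm]
    rfl
  have h2 := DFunLike.congr_fun h1 f
  rw [AlgHom.comp_apply, AlgHom.restrictScalars_apply] at h2
  rw [← h2]
  rfl

theorem line_der {τ : Type} [Fintype τ] (c : τ → ℂ) (f : MvPolynomial τ ℚ) :
    Polynomial.derivative (line c f) = ∑ a, line c (MvPolynomial.pderiv a f) * Polynomial.C (c a) := by
  have h1 := chain_ring ((Polynomial.derivative' (R := ℂ)).restrictScalars ℚ)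
    (fun a => Polynomial.C (c a) * Polynomial.X) f
  have h2 : ∀ p : Polynomial ℂ, (Polynomial.derivative' (R := ℂ)).restrictScalars ℚ p =
      Polynomial.derivative p := fun p => rfl
  simp only [h2] at h1
  unfold line
  rw [h1]
  refine Finset.sum_congr rfl fun a _ => ?_
  congr 1
  simp

theorem ex_lambda {τ : Type} [Fintype τ] (c : τ → ℂ) : ∃ x : ℂ, x ≠ 0 ∧ ∀ f : MvPolynomial τ ℚ,
    MvPolynomial.aeval (fun a => x * c a) f = 0 → line c f = 0 := by
  classical
  have : Countable τ := Finite.to_countable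
  have hcount : Countable (MvPolynomial τ ℚ) := by
    rw [← Cardinal.mk_le_aleph0_iff]
    refine MvPolynomial.cardinalMk_le_max.trans ?_
    simp
  set B : Set ℂ := {0} ∪ ⋃ f : {f : MvPolynomial τ ℚ // line c f ≠ 0}, (line c f.1).rootSet ℂ with hB
  have hBc : B.Countable := by
    refine (Set.countable_singleton _).union (Set.countable_iUnion fun f => ?_)
    exact (Polynomial.rootSet_finite _ _).countable
  have h1 : B ≠ Set.univ := by
    intro h
    rw [h] at hBc
    exact not_countable_complex hBc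
  obtain ⟨x, hx⟩ := (Set.ne_univ_iff_exists_notMem _).1 h1
  refine ⟨x, fun h => hx (Or.inl h), fun f hf => ?_⟩
  by_contra hne
  apply hx
  right
  refine Set.mem_iUnion.2 ⟨⟨f, hne⟩, ?_⟩
  rw [Polynomial.mem_rootSet]
  refine ⟨hne, ?_⟩
  rw [← line_eval] at hf
  rw [Polynomial.coe_aeval_eq_eval]
  exact hf

/-- a generic multiple has a homogeneous ideal of relations -/
theorem scale {n : ℕ} (C : Matrix (Fin n) (Fin n) ℂ) : ∃ x : ℂ, x ≠ 0 ∧
    ∀ d, (1 : Matrix (Fin n) (Fin n) ℂ) ∈ Tg d (x • C) := by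
  obtain ⟨x, hx, h⟩ := ex_lambda fun a : Fin n × Fin n => C a.1 a.2
  refine ⟨x, hx, fun d f _ hf => ?_⟩
  have h1 : (fun a : Fin n × Fin n => (x • C) a.1 a.2) = fun a => x * C a.1 a.2 := rfl
  rw [h1] at hf
  have h2 := h f hf
  have h3 := line_der (fun a : Fin n × Fin n => C a.1 a.2) f
  rw [h2, Polynomial.derivative_zero] at h3
  have h4 := congrArg (fun p => Polynomial.eval x p) h3
  simp only [Polynomial.eval_zero, Polynomial.eval_finsetSum, Polynomial.eval_mul, Polynomial.eval_C,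
    line_eval] at h4
  rw [Matrix.one_mul]
  show ∑ a, MvPolynomial.aeval (fun a : Fin n × Fin n => (x • C) a.1 a.2) (MvPolynomial.pderiv a f) *
    (x * C a.1 a.2) = 0
  rw [h1]
  calc ∑ a : Fin n × Fin n, MvPolynomial.aeval (fun a : Fin n × Fin n => x * C a.1 a.2) (MvPolynomial.pderiv a f) *
        (x * C a.1 a.2) =
      x * ∑ a : Fin n × Fin n, MvPolynomial.aeval (fun a : Fin n × Fin n => x * C a.1 a.2)
        (MvPolynomial.pderiv a f) * C a.1 a.2 := by
        rw [Finset.mul_sum]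
        exact Finset.sum_congr rfl fun a _ => by ring
    _ = 0 := by rw [← h4, mul_zero]

/-! ### tensors with one column -/

theorem pw_zero_apply {α β : Type} (A : Matrix α β ℂ) (i : Fin 0 → α) (m : Fin 0 → β) : pw 0 A i m = 1 := by
  show ∏ s : Fin 0, A (i s) (m s) = 1
  rw [Finset.univ_eq_empty, Finset.prod_empty]

/-- the tensor in the other coordinates -/
theorem col_apply {ι : Type} [Fintype ι] [DecidableEq ι] {a : ℕ} (B : Matrix ι ι ℂ) (t : (Fin a → ι) → ℚ)
    (i : Fin a → ι) (m : Fin 0 → ι) :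
    (pw a B * tc (col t) * pw 0 B⁻¹) i m = ∑ i', (∏ s, B (i s) (i' s)) * (t i' : ℂ) := by
  rw [Matrix.mul_apply]
  have h0 : (Finset.univ : Finset (Fin 0 → ι)) = {m} := by
    ext x
    simp only [Finset.mem_univ, Finset.mem_singleton, true_iff]
    exact Subsingleton.elim _ _
  rw [h0, Finset.sum_singleton, pw_zero_apply, mul_one, Matrix.mul_apply]
  rfl

/-- algebraic tensors in plain form -/
def AT {ι : Type} [Fintype ι] (D : ℕ) (B : Matrix ι ι ℂ) {a : ℕ} (t : (Fin a → ι) → ℚ) : Prop :=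
  ∃ (K : IntermediateField ℚ ℂ) (κ : ℂ), FiniteDimensional ℚ K ∧ Module.finrank ℚ K ≤ D ∧ κ ≠ 0 ∧
    ∀ i : Fin a → ι, ∃ w ∈ K, ∑ i' : Fin a → ι, (∏ s, B (i s) (i' s)) * (t i' : ℂ) = κ * w

theorem at_iff {ι : Type} [Fintype ι] [DecidableEq ι] {D : ℕ} {B : Matrix ι ι ℂ} {a : ℕ}
    {t : (Fin a → ι) → ℚ} : AT D B t ↔ AlgT D B (col t) := by
  constructor
  · rintro ⟨K, κ, h1, h2, h3, h4⟩
    refine ⟨K, κ, h1, h2, h3, fun i m => ?_⟩
    rw [col_apply]
    exact h4 i
  · rintro ⟨K, κ, h1, h2, h3, h4⟩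
    refine ⟨K, κ, h1, h2, h3, fun i => ?_⟩
    have h5 := h4 i Fin.elim0
    rw [col_apply] at h5
    exact h5

theorem at_smul {ι : Type} [Fintype ι] {D : ℕ} {B : Matrix ι ι ℂ} {a : ℕ} {t : (Fin a → ι) → ℚ}
    {x : ℂ} (hx : x ≠ 0) (h : AT D B t) : AT D (x • B) t := by
  obtain ⟨K, κ, h1, h2, h3, h4⟩ := h
  refine ⟨K, x ^ a * κ, h1, h2, mul_ne_zero (pow_ne_zero _ hx) h3, fun i => ?_⟩
  obtain ⟨w, hw, h5⟩ := h4 i
  refine ⟨w, hw, ?_⟩
  rw [mul_assoc, ← h5, Finset.mul_sum]
  refine Finset.sum_congr rfl fun i' _ => ?_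
  have h6 : ∏ s, (x • B) (i s) (i' s) = x ^ a * ∏ s, B (i s) (i' s) := by
    simp only [Matrix.smul_apply, smul_eq_mul, Finset.prod_mul_distrib, Finset.prod_const,
      Finset.card_univ, Fintype.card_fin]
  rw [h6]
  ring

end Pool.Agent.T2h17.GP
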