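import Pool.Agent.T2h17.AH.Sp
import Pool.Agent.T2h17.AH.Core

/-!
Hodge generic fibres: statements of the algebraic parts.
-/

set_option autoImplicit false

open Matrix Module

namespace Pool.Agent.T2h17.GP

open Pool.Agent.T2h17.AH (sp om Xm LieT Pres AlgT dpw)
open Pool.Agent.T2h17.HW (tc)

/-- closed under the bracket -/
def Lie {ι : Type} [Fintype ι] (M : Submodule ℂ (Matrix ι ι ℂ)) : Prop :=
  ∀ X ∈ M, ∀ Y ∈ M, X * Y - Y * X ∈ M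

/-- (GOUR) subalgebras of small codimension of a power of a simple Lie algebra, all of whose proper subalgebras have
codimension at least `m`, contain the sum of all but a few factors -/
def S_GOUR : Prop := ∀ (n k m ν : ℕ) (g : Submodule ℂ (Matrix (Fin n) (Fin n) ℂ)), Lie g →
  (∀ h : Submodule ℂ (Matrix (Fin n) (Fin n) ℂ), h ≤ g → Lie h → h ≠ g → finrank ℂ h + m ≤ finrank ℂ g) →
  (∀ I : Submodule ℂ (Matrix (Fin n) (Fin n) ℂ), I ≤ g → (∀ X ∈ g, ∀ Y ∈ I, X * Y - Y * X ∈ I) → I = ⊥ ∨ I = g) →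
  (∃ X ∈ g, ∃ Y ∈ g, X * Y ≠ Y * X) → 2 * m ≤ finrank ℂ g →
  ∀ M : Submodule ℂ (Fin k → Matrix (Fin n) (Fin n) ℂ), (∀ Y ∈ M, ∀ j, Y j ∈ g) →
    (∀ X ∈ M, ∀ Y ∈ M, (fun j => X j * Y j - Y j * X j) ∈ M) → k * finrank ℂ g ≤ finrank ℂ M + ν →
    ∃ R : Finset (Fin k), R.card * m ≤ ν ∧
      ∀ Y : Fin k → Matrix (Fin n) (Fin n) ℂ, (∀ j, Y j ∈ g) → (∀ j ∈ R, Y j = 0) → Y ∈ M

/-- the operators in `sp S` which preserve a subspace of the row vectors -/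
def stab {n : ℕ} (S : Matrix (Fin n) (Fin n) ℂ) (V : Submodule ℂ (Fin n → ℂ)) :
    Submodule ℂ (Matrix (Fin n) (Fin n) ℂ) where
  carrier := {X | X ∈ sp S ∧ ∀ v ∈ V, v ᵥ* X ∈ V}
  add_mem' := fun hX hY => ⟨(sp S).add_mem hX.1 hY.1, fun v hv => by
    rw [vecMul_add]
    exact V.add_mem (hX.2 v hv) (hY.2 v hv)⟩
  zero_mem' := ⟨(sp S).zero_mem, fun v _ => by
    rw [vecMul_zero]
    exact V.zero_mem⟩
  smul_mem' := fun c X hX => ⟨(sp S).smul_mem c hX.1, fun v hv => by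
    rw [vecMul_smul]
    exact V.smul_mem c (hX.2 v hv)⟩

/-- (STAB) the stabilizer of a nontrivial subspace has codimension at least `n - 1` -/
def S_STAB : Prop := ∀ (n : ℕ) (S : Matrix (Fin n) (Fin n) ℂ), Sᵀ = -S → S.det ≠ 0 →
  ∀ V : Submodule ℂ (Fin n → ℂ), V ≠ ⊥ → V ≠ ⊤ → finrank ℂ (stab S V) + (n - 1) ≤ finrank ℂ (sp S)

/-- (CURVE) one-parameter groups -/
def S_CURVE : Prop := ∀ (n : ℕ) (S : Matrix (Fin n) (Fin n) ℂ), Sᵀ = -S → S.det ≠ 0 →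
  ∀ h : Submodule ℂ (Matrix (Fin n) (Fin n) ℂ), h ≤ sp S → Lie h → ∀ X ∈ h, ∀ p : Fin n → ℂ, Xm S p p ∈ h →
  ∃ γ : ℝ → Fin n → ℂ, γ 0 = p ∧ HasDerivAt γ (p ᵥ* X) 0 ∧ ∀ t, Xm S (γ t) (γ t) ∈ h

/-- (NZ) a subspace of small codimension contains an element of rank one -/
def S_NZ : Prop := ∀ (n : ℕ) (S : Matrix (Fin n) (Fin n) ℂ), Sᵀ = -S → S.det ≠ 0 →
  ∀ h : Submodule ℂ (Matrix (Fin n) (Fin n) ℂ), h ≤ sp S → finrank ℂ (sp S) < finrank ℂ h + n →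
  ∃ p : Fin n → ℂ, p ≠ 0 ∧ Xm S p p ∈ h

/-- (CLS) if the elements of rank one span, then there is a stable subspace or the subalgebra is everything -/
def S_CLS : Prop := ∀ (n : ℕ) (S : Matrix (Fin n) (Fin n) ℂ), Sᵀ = -S → S.det ≠ 0 →
  ∀ h : Submodule ℂ (Matrix (Fin n) (Fin n) ℂ), h ≤ sp S → Lie h →
  Submodule.span ℂ {p : Fin n → ℂ | Xm S p p ∈ h} = ⊤ → h ≠ sp S →
  ∃ V : Submodule ℂ (Fin n → ℂ), V ≠ ⊥ ∧ V ≠ ⊤ ∧ ∀ X ∈ h, ∀ v ∈ V, v ᵥ* X ∈ V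

/-- (MINC) proper subalgebras of the symplectic Lie algebra have codimension at least `n - 1` -/
def S_MINC : Prop := ∀ (n : ℕ) (S : Matrix (Fin n) (Fin n) ℂ), Sᵀ = -S → S.det ≠ 0 →
  ∀ h : Submodule ℂ (Matrix (Fin n) (Fin n) ℂ), h ≤ sp S → Lie h → h ≠ sp S →
  finrank ℂ h + (n - 1) ≤ finrank ℂ (sp S)

/-- (SIMP) the symplectic Lie algebra is simple -/
def S_SIMP : Prop := ∀ (n : ℕ) (S : Matrix (Fin n) (Fin n) ℂ), Sᵀ = -S → S.det ≠ 0 →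
  ∀ I : Submodule ℂ (Matrix (Fin n) (Fin n) ℂ), I ≤ sp S → (∀ X ∈ sp S, ∀ Y ∈ I, X * Y - Y * X ∈ I) →
  I = ⊥ ∨ I = sp S

/-- (PERF) the symplectic Lie algebra is perfect, not abelian, and large -/
def S_PERF : Prop := ∀ (n : ℕ) (S : Matrix (Fin n) (Fin n) ℂ), Sᵀ = -S → S.det ≠ 0 →
  Lie (sp S) ∧ sp S = Submodule.span ℂ {Z | ∃ X ∈ sp S, ∃ Y ∈ sp S, Z = X * Y - Y * X} ∧
  (1 ≤ n → ∃ X ∈ sp S, ∃ Y ∈ sp S, X * Y ≠ Y * X) ∧ 2 * (n - 1) ≤ finrank ℂ (sp S)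

/-- (LIEB) the operators which preserve the lines of the algebraic tensors form a Lie algebra, and brackets
annihilate these tensors -/
def S_LIEB : Prop := ∀ (ι : Type) [Fintype ι] [DecidableEq ι] (D0 a0 : ℕ) (P : Matrix ι ι ℂ), Lie (LieT D0 a0 P) ∧
  ∀ X ∈ LieT D0 a0 P, ∀ Y ∈ LieT D0 a0 P, ∀ a ≤ a0, ∀ b ≤ a0, ∀ T : Matrix (Fin a → ι) (Fin b → ι) ℚ, AlgT D0 P T →
    dpw a (X * Y - Y * X) * tc T - tc T * dpw b (X * Y - Y * X) = 0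

/-- (CMT) the transcendence degree of the periods of a polarised structure with complex multiplication -/
def S_CMT : Prop := ∀ (n : ℕ) (S P M : Matrix (Fin n) (Fin n) ℚ) (A C : Matrix (Fin n) (Fin n) ℂ) (κ : ℂ),
  Sᵀ = -S → S.det ≠ 0 → C.det ≠ 0 → κ ≠ 0 → C * tc P * Cᵀ = κ • tc S → (∀ i j, IsAlgebraic ℚ (A i j)) →
  C * tc M = A * C → M.charpoly.Separable →
  Algebra.trdeg ℚ (IntermediateField.adjoin ℚ (Set.range fun a : Fin n × Fin n => C a.1 a.2)) ≤ (n / 2 + 1 : ℕ)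

/-- the product of the forms `P` over a perfect matching `e`, with the labels `c` of the summands -/
def prT {F : Type} [Field F] {n k a m : ℕ} (P : Matrix (Fin n) (Fin n) F) (e : Fin m × Fin 2 ≃ Fin a)
    (c : Fin m → Fin k) : (Fin a → Fin n × Fin k) → F :=
  fun i => ∏ s, if (i (e (s, 0))).2 = c s ∧ (i (e (s, 1))).2 = c s then
    P (i (e (s, 0))).1 (i (e (s, 1))).1 else 0

/-- (FFTC) the invariant tensors of a product of symplectic groups -/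
def S_FFTC : Prop := ∀ (n k a : ℕ) (P : Matrix (Fin n) (Fin n) ℂ), Pᵀ = -P → P.det ≠ 0 →
  ∀ T : (Fin a → Fin n × Fin k) → ℂ,
    (∀ (j : Fin k) (Y : Matrix (Fin n) (Fin n) ℂ), Y ∈ sp P → ∀ i : Fin a → Fin n × Fin k,
      ∑ s, (if (i s).2 = j then ∑ c, Y (i s).1 c * T (Function.update i s (c, j)) else 0) = 0) →
    T ∈ Submodule.span ℂ {G | ∃ (m : ℕ) (e : Fin m × Fin 2 ≃ Fin a) (c : Fin m → Fin k), G = prT P e c}

/-- (FFTQ) the rational invariant tensors of a product of symplectic groups -/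
def S_FFTQ : Prop := ∀ (n k a : ℕ) (P : Matrix (Fin n) (Fin n) ℚ), Pᵀ = -P → P.det ≠ 0 →
  ∀ T : (Fin a → Fin n × Fin k) → ℚ,
    (∀ (j : Fin k) (Y : Matrix (Fin n) (Fin n) ℂ), Y ∈ sp (tc P) → ∀ i : Fin a → Fin n × Fin k,
      ∑ s, (if (i s).2 = j then ∑ c, Y (i s).1 c * (T (Function.update i s (c, j)) : ℂ) else 0) = 0) →
    T ∈ Submodule.span ℚ {G | ∃ (m : ℕ) (e : Fin m × Fin 2 ≃ Fin a) (c : Fin m → Fin k), G = prT P e c}

end Pool.Agent.T2h17.GP
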